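import Pool.Agent.SawLim.Merge

/-!
The constant `mu` is the infimum of `c_n^{1/n}`.
-/

set_option autoImplicit false

namespace Pool.Agent.SawLim

open Pool.Agent.SawKes Pool.Agent.SawMrg

theorem mu_eq_iInf :
    mu = ⨅ n : {n : ℕ // 1 ≤ n}, ((cc n.1 : ℝ) ^ ((1 : ℝ) / (n.1 : ℝ))) := by
  apply le_antisymm
  · have : Nonempty {n : ℕ // 1 ≤ n} := ⟨⟨1, le_rfl⟩⟩
    apply le_ciInf
    rintro ⟨n, hn⟩
    have hn0 : (0 : ℝ) < n := by exact_mod_cast hn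
    have h1 : (mu ^ n) ^ ((1 : ℝ) / (n : ℝ)) ≤ (cc n : ℝ) ^ ((1 : ℝ) / (n : ℝ)) :=
      Real.rpow_le_rpow (pow_nonneg mu_pos.le n) (mu_pow_le n) (by positivity)
    have h2 : (mu ^ n) ^ ((1 : ℝ) / (n : ℝ)) = mu := by
      rw [← Real.rpow_natCast, ← Real.rpow_mul mu_pos.le, mul_one_div_cancel hn0.ne',
        Real.rpow_one]
    rw [h2] at h1
    exact h1
  · have ht := sub_log.tendsto_lim bdd_log
    have ht2 : Filter.Tendsto (fun n : ℕ => Real.exp (Real.log (cc n) / n)) Filter.atTop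
        (nhds mu) := (Real.continuous_exp.tendsto _).comp ht
    apply ge_of_tendsto ht2
    filter_upwards [Filter.eventually_ge_atTop 1] with n hn
    have hpos : (0 : ℝ) < cc n := by exact_mod_cast cc_pos n
    have e : Real.exp (Real.log (cc n) / n) = (cc n : ℝ) ^ ((1 : ℝ) / (n : ℝ)) := by
      rw [Real.rpow_def_of_pos hpos]
      congr 1; ring
    rw [e]
    exact ciInf_le (f := fun n : {n : ℕ // 1 ≤ n} => ((cc n.1 : ℝ) ^ ((1 : ℝ) / (n.1 : ℝ))))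
      ⟨0, by rintro x ⟨n, rfl⟩; positivity⟩ ⟨n, hn⟩

theorem mu_eq_iInf_card :
    mu = ⨅ n : {n : ℕ // 1 ≤ n},
      ((Nat.card {w : Fin (n.1 + 1) → ℤ × ℤ // IsSAW n.1 w} : ℝ) ^ ((1 : ℝ) / (n.1 : ℝ))) := by
  rw [mu_eq_iInf]
  congr 1
  funext n
  have h : (Nat.card {w : Fin (n.1 + 1) → ℤ × ℤ // IsSAW n.1 w} : ℝ) = (cc n.1 : ℝ) := by
    have := cN_eq n.1
    unfold cN at this
    rw [this, card_saws]
  rw [h]

end Pool.Agent.SawLim
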