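import Pool.Agent.SawLim.Parity2

/-!
Comparison of the limit points of the laws of `X_n` along even and odd `n`.
-/

set_option autoImplicit false

open Pool.Agent.SawKes MeasureTheory Filter Topology

namespace Pool.Agent.SawLim

/-! ### `s_n → ∞` and the ratio `s_{n+1} / s_n` -/

lemma tendsto_s : Tendsto s atTop atTop := by
  obtain ⟨c, hc, h⟩ := s_lower (1 / 2) (by norm_num)
  have h1 : Tendsto (fun n : ℕ => c * (n : ℝ) ^ ((1 : ℝ) / 4)) atTop atTop :=
    Tendsto.const_mul_atTop hc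
      ((tendsto_rpow_atTop (by norm_num : (0 : ℝ) < 1 / 4)).comp tendsto_natCast_atTop_atTop)
  apply tendsto_atTop_mono' _ _ h1
  filter_upwards [eventually_ge_atTop 1] with n hn
  have := h n hn
  have e : ((1 : ℝ) - 1 / 2) / 2 = 1 / 4 := by norm_num
  rwa [e] at this

lemma tendsto_ratio : Tendsto (fun n => cN (n + 2) / cN n) atTop (𝓝 (mu ^ 2)) := by
  obtain ⟨C, hC, h⟩ := merging_aux (1 / 4) (by norm_num) (by norm_num)
  rw [tendsto_iff_norm_sub_tendsto_zero]
  have h1 : Tendsto (fun n : ℕ => C * (n : ℝ) ^ (-(1 / 4) : ℝ)) atTop (𝓝 (C * 0)) :=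
    ((tendsto_rpow_neg_atTop (by norm_num : (0 : ℝ) < 1 / 4)).comp
      tendsto_natCast_atTop_atTop).const_mul C
  rw [mul_zero] at h1
  refine squeeze_zero' (Eventually.of_forall fun _ => norm_nonneg _) ?_ h1
  filter_upwards [eventually_ge_atTop 1] with n hn
  have := (h n hn).1
  rw [Real.norm_eq_abs]
  have e : ((1 : ℝ) / 4 - 1 / 2) = -(1 / 4) := by norm_num
  rwa [e] at this

lemma tendsto_s_ratio : Tendsto (fun n => s (n + 2) / s n) atTop (𝓝 1) := by
  obtain ⟨C, hC, h⟩ := merging_aux (1 / 4) (by norm_num) (by norm_num)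
  rw [tendsto_iff_norm_sub_tendsto_zero]
  have h1 : Tendsto (fun n : ℕ => C * (n : ℝ) ^ (-(1 / 4) : ℝ)) atTop (𝓝 (C * 0)) :=
    ((tendsto_rpow_neg_atTop (by norm_num : (0 : ℝ) < 1 / 4)).comp
      tendsto_natCast_atTop_atTop).const_mul C
  rw [mul_zero] at h1
  refine squeeze_zero' (Eventually.of_forall fun _ => norm_nonneg _) ?_ h1
  filter_upwards [eventually_ge_atTop 1] with n hn
  have := (h n hn).2.1
  rw [Real.norm_eq_abs]
  have e : ((1 : ℝ) / 4 - 1 / 2) = -(1 / 4) := by norm_num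
  rwa [e] at this

lemma norm_last_le {n : ℕ} {v : Fin (n + 1 + 1) → ℤ × ℤ} (h : IsSAW (n + 1) v) :
    ‖pt (v (Fin.last (n + 1)))‖ ≤ ‖pt (ini n v (Fin.last n))‖ + 1 := by
  have h1 := norm_pt_sub_le h (i := n) 1 (by omega)
  have e1 : v (Fin.last (n + 1)) = wN (n + 1) v (n + 1) := w_eq_wN v (Fin.last (n + 1))
  have e2 : ini n v (Fin.last n) = wN (n + 1) v n := by
    rw [w_eq_wN (ini n v), ← wN_ini v le_rfl]; rfl
  rw [e1, e2]
  have h2 := norm_sub_norm_le (pt (wN (n + 1) v (n + 1))) (pt (wN (n + 1) v n))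
  push_cast at h1
  linarith

lemma s_succ_sq {n : ℕ} (hn : 1 ≤ n) {θ : ℝ} (hθ : 0 < θ) :
    s (n + 1) ^ 2 ≤ (1 + θ) * (3 * (cN n / cN (n + 1))) * s n ^ 2 + (1 + 1 / θ) := by
  have h1 := avg_ini_le hn (fun w => ‖pt (w (Fin.last n))‖ ^ 2) (fun _ _ => by positivity)
  rw [← s_sq hn] at h1
  have h2 : avg (n + 1) (fun v => ‖pt (v (Fin.last (n + 1)))‖ ^ 2) ≤
      avg (n + 1) (fun v => (1 + 1 / θ) + (1 + θ) * ‖pt (ini n v (Fin.last n))‖ ^ 2) := by
    apply avg_mono
    intro v hv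
    have h3 := norm_last_le (mem_saws.1 hv)
    set x := ‖pt (ini n v (Fin.last n))‖
    have hx : 0 ≤ x := norm_nonneg _
    have h4 : ‖pt (v (Fin.last (n + 1)))‖ ^ 2 ≤ (x + 1) ^ 2 :=
      pow_le_pow_left₀ (norm_nonneg _) h3 2
    have h5 : (x + 1) ^ 2 ≤ (1 + 1 / θ) + (1 + θ) * x ^ 2 := by
      have h6 : 0 ≤ (θ * x - 1) ^ 2 / θ := by positivity
      have h7 : (θ * x - 1) ^ 2 / θ = θ * x ^ 2 - 2 * x + 1 / θ := by
        field_simp
        ring
      nlinarith
    linarith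
  rw [avg_add_const, ← s_sq (by omega)] at h2
  have h3 : (1 + θ) * avg (n + 1) (fun v => ‖pt (ini n v (Fin.last n))‖ ^ 2) ≤
      (1 + θ) * (3 * (cN n / cN (n + 1)) * s n ^ 2) :=
    mul_le_mul_of_nonneg_left h1 (by linarith)
  linarith

lemma q1_le {n : ℕ} (_hn : 1 ≤ n) : 3 * (cN n / cN (n + 1)) ≤ 9 / (cN (n + 2) / cN n) := by
  have := cN_succ_le (n := n + 1) (by omega)
  have c0 := cN_pos n
  have c1 := cN_pos (n + 1)
  have c2 := cN_pos (n + 2)
  rw [← mul_div_assoc, div_le_div_iff₀ c1 (by positivity)]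
  have e1 : 3 * cN n * (cN (n + 2) / cN n) = 3 * cN (n + 2) := by field_simp
  rw [e1]
  have e2 : cN (n + 2) ≤ 3 * cN (n + 1) := this
  linarith

lemma q2_le {n : ℕ} (hn : 1 ≤ n) : 3 * (cN (n + 1) / cN (n + 2)) ≤ 9 / (cN (n + 2) / cN n) := by
  have := cN_succ_le hn
  have c0 := cN_pos n
  have c2 := cN_pos (n + 2)
  have e1 : 9 / (cN (n + 2) / cN n) = 9 * cN n / cN (n + 2) := by
    field_simp
  rw [e1, ← mul_div_assoc]
  apply div_le_div_of_nonneg_right _ c2.le
  linarith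

/-- the limit points of `s_{n+1} / s_n` lie in `[μ/3, 3/μ]` -/
theorem s_ratio_limit (φ : ℕ → ℕ) (hφ : Tendsto φ atTop atTop) (lam : ℝ)
    (h : Tendsto (fun k => s (φ k + 1) / s (φ k)) atTop (𝓝 lam)) :
    mu / 3 ≤ lam ∧ lam ≤ 3 / mu := by
  have hmu := mu_pos
  have hlam0 : 0 ≤ lam := ge_of_tendsto' h (fun k => div_nonneg (s_nonneg _) (s_nonneg _))
  have hsφ : Tendsto (fun k => s (φ k)) atTop atTop := tendsto_s.comp hφ
  have hinv : Tendsto (fun k => ((s (φ k)) ^ 2)⁻¹) atTop (𝓝 0) :=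
    tendsto_inv_atTop_zero.comp ((tendsto_pow_atTop (by norm_num : (2 : ℕ) ≠ 0)).comp hsφ)
  have hρ : Tendsto (fun k => 9 / (cN (φ k + 2) / cN (φ k))) atTop (𝓝 (9 / mu ^ 2)) :=
    tendsto_const_nhds.div (tendsto_ratio.comp hφ) (pow_pos hmu 2).ne'
  have h2 : Tendsto (fun k => s (φ k + 2) / s (φ k)) atTop (𝓝 1) := tendsto_s_ratio.comp hφ
  have key : ∀ θ : ℝ, 0 < θ → lam ^ 2 ≤ (1 + θ) * (9 / mu ^ 2) ∧
      1 ≤ (1 + θ) * (9 / mu ^ 2) * lam ^ 2 := by
    intro θ hθ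
    constructor
    · have t1 : Tendsto (fun k => (1 + θ) * (9 / (cN (φ k + 2) / cN (φ k))) +
          (1 + 1 / θ) * ((s (φ k)) ^ 2)⁻¹) atTop
          (𝓝 ((1 + θ) * (9 / mu ^ 2) + (1 + 1 / θ) * 0)) :=
        (hρ.const_mul _).add (hinv.const_mul _)
      rw [mul_zero, add_zero] at t1
      apply le_of_tendsto_of_tendsto (h.pow 2) t1
      filter_upwards [hφ.eventually_ge_atTop 1] with k hk
      have hs := s_pos hk
      have a1 := s_succ_sq hk hθ
      have a2 := q1_le hk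
      rw [div_pow, div_le_iff₀ (by positivity)]
      have e : ((1 + θ) * (9 / (cN (φ k + 2) / cN (φ k))) + (1 + 1 / θ) * ((s (φ k)) ^ 2)⁻¹) *
          s (φ k) ^ 2 = (1 + θ) * (9 / (cN (φ k + 2) / cN (φ k))) * s (φ k) ^ 2 +
          (1 + 1 / θ) := by
        have : ((s (φ k)) ^ 2)⁻¹ * s (φ k) ^ 2 = 1 := inv_mul_cancel₀ (by positivity)
        linear_combination (1 + 1 / θ) * this
      rw [e]
      have a3 : (1 + θ) * (3 * (cN (φ k) / cN (φ k + 1))) * s (φ k) ^ 2 ≤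
          (1 + θ) * (9 / (cN (φ k + 2) / cN (φ k))) * s (φ k) ^ 2 := by
        apply mul_le_mul_of_nonneg_right _ (by positivity)
        exact mul_le_mul_of_nonneg_left a2 (by linarith)
      linarith
    · have t1 : Tendsto (fun k => (1 + θ) * (9 / (cN (φ k + 2) / cN (φ k))) *
          (s (φ k + 1) / s (φ k)) ^ 2 + (1 + 1 / θ) * ((s (φ k)) ^ 2)⁻¹) atTop
          (𝓝 ((1 + θ) * (9 / mu ^ 2) * lam ^ 2 + (1 + 1 / θ) * 0)) :=
        ((hρ.const_mul _).mul (h.pow 2)).add (hinv.const_mul _)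
      rw [mul_zero, add_zero] at t1
      have t2 := h2.pow 2
      rw [one_pow] at t2
      apply le_of_tendsto_of_tendsto t2 t1
      filter_upwards [hφ.eventually_ge_atTop 1] with k hk
      have hs := s_pos hk
      have a1 := s_succ_sq (n := φ k + 1) (by omega) hθ
      have a2 := q2_le hk
      rw [div_pow, div_le_iff₀ (by positivity)]
      have e : ((1 + θ) * (9 / (cN (φ k + 2) / cN (φ k))) * (s (φ k + 1) / s (φ k)) ^ 2 +
          (1 + 1 / θ) * ((s (φ k)) ^ 2)⁻¹) * s (φ k) ^ 2 =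
          (1 + θ) * (9 / (cN (φ k + 2) / cN (φ k))) * s (φ k + 1) ^ 2 + (1 + 1 / θ) := by
        have e1 : ((s (φ k)) ^ 2)⁻¹ * s (φ k) ^ 2 = 1 := inv_mul_cancel₀ (by positivity)
        have e2 : (s (φ k + 1) / s (φ k)) ^ 2 * s (φ k) ^ 2 = s (φ k + 1) ^ 2 := by
          rw [div_pow, div_mul_cancel₀ _ (by positivity)]
        linear_combination (1 + 1 / θ) * e1 + (1 + θ) * (9 / (cN (φ k + 2) / cN (φ k))) * e2
      rw [e]
      have a3 : (1 + θ) * (3 * (cN (φ k + 1) / cN (φ k + 1 + 1))) * s (φ k + 1) ^ 2 ≤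
          (1 + θ) * (9 / (cN (φ k + 2) / cN (φ k))) * s (φ k + 1) ^ 2 := by
        apply mul_le_mul_of_nonneg_right _ (by positivity)
        exact mul_le_mul_of_nonneg_left a2 (by linarith)
      have a4 : s (φ k + 2) ^ 2 = s (φ k + 1 + 1) ^ 2 := rfl
      rw [a4]
      linarith
  have k1 : lam ^ 2 ≤ 9 / mu ^ 2 := by
    apply le_of_forall_pos_le_add
    intro ε hε
    have hp : 0 < 9 / mu ^ 2 := by positivity
    have := (key (ε / (9 / mu ^ 2)) (by positivity)).1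
    rw [add_mul, one_mul, div_mul_cancel₀ _ hp.ne'] at this
    exact this
  have k2 : 1 ≤ 9 / mu ^ 2 * lam ^ 2 := by
    apply le_of_forall_pos_le_add
    intro ε hε
    have hp : 0 ≤ 9 / mu ^ 2 * lam ^ 2 := by positivity
    have := (key (ε / (9 / mu ^ 2 * lam ^ 2 + 1)) (by positivity)).2
    have e : (1 + ε / (9 / mu ^ 2 * lam ^ 2 + 1)) * (9 / mu ^ 2) * lam ^ 2 =
        9 / mu ^ 2 * lam ^ 2 + ε / (9 / mu ^ 2 * lam ^ 2 + 1) * (9 / mu ^ 2 * lam ^ 2) := by ring
    rw [e] at this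
    have h3 : ε / (9 / mu ^ 2 * lam ^ 2 + 1) * (9 / mu ^ 2 * lam ^ 2) ≤ ε := by
      rw [div_mul_eq_mul_div, div_le_iff₀ (by positivity)]
      nlinarith
    linarith
  constructor
  · apply le_of_sq_le_sq _ hlam0
    rw [div_pow]
    have : 1 * mu ^ 2 ≤ 9 / mu ^ 2 * lam ^ 2 * mu ^ 2 :=
      mul_le_mul_of_nonneg_right k2 (by positivity)
    have e : 9 / mu ^ 2 * lam ^ 2 * mu ^ 2 = 9 * lam ^ 2 := by field_simp
    rw [e] at this
    linarith
  · apply le_of_sq_le_sq _ (by positivity)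
    rw [div_pow]
    norm_num
    exact k1

/-! ### The limit form -/

section

variable [MeasurableSpace C(unitInterval, EuclideanSpace ℝ (Fin 2))]
  [BorelSpace C(unitInterval, EuclideanSpace ℝ (Fin 2))]

/-- bounded continuous function from a continuous function with values in `[0,1]` -/
noncomputable def mkB (f : C(unitInterval, EuclideanSpace ℝ (Fin 2)) → ℝ) (hf : Continuous f)
    (h0 : ∀ x, 0 ≤ f x) (h1 : ∀ x, f x ≤ 1) :
    BoundedContinuousFunction C(unitInterval, EuclideanSpace ℝ (Fin 2)) ℝ :=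
  BoundedContinuousFunction.ofNormedAddCommGroup f hf 1 (fun x => by
    rw [Real.norm_eq_abs, abs_of_nonneg (h0 x)]; exact h1 x)

lemma WLim_apply {φ : ℕ → ℕ} {ν : Measure C(unitInterval, EuclideanSpace ℝ (Fin 2))}
    (h : WLim φ ν) (f : C(unitInterval, EuclideanSpace ℝ (Fin 2)) → ℝ) (hf : Continuous f)
    (h0 : ∀ x, 0 ≤ f x) (h1 : ∀ x, f x ≤ 1) :
    Tendsto (fun k => avg (φ k) (fun w => f (X (φ k) w))) atTop (𝓝 (∫ x, f x ∂ν)) :=
  h (mkB f hf h0 h1)

/-- slowly varying rescaling does not change the limit -/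
lemma rescale_limit {ψ : ℕ → ℕ} {ν : Measure C(unitInterval, EuclideanSpace ℝ (Fin 2))}
    [IsProbabilityMeasure ν] (h : WLim ψ ν) (r : ℕ → ℝ) (lam : ℝ) (hr : Tendsto r atTop (𝓝 lam))
    (F : C(unitInterval, EuclideanSpace ℝ (Fin 2)) → ℝ) (hF : LipschitzWith 1 F)
    (hF0 : ∀ x, 0 ≤ F x) (hF1 : ∀ x, F x ≤ 1) :
    Tendsto (fun k => avg (ψ k) (fun w => F (r k • X (ψ k) w))) atTop
      (𝓝 (∫ x, F (lam • x) ∂ν)) := by
  have hcont : Continuous fun x : C(unitInterval, EuclideanSpace ℝ (Fin 2)) => F (lam • x) :=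
    hF.continuous.comp (continuous_const_smul lam)
  have h1 := WLim_apply h (fun x => F (lam • x)) hcont (fun _ => hF0 _) (fun _ => hF1 _)
  -- the truncated norm
  have hG : ∀ ε : ℝ, 0 ≤ ε → Tendsto (fun k => avg (ψ k) (fun w => min 1 (ε * ‖X (ψ k) w‖))) atTop
      (𝓝 (∫ x, min 1 (ε * ‖x‖) ∂ν)) := by
    intro ε hε
    exact WLim_apply h (fun x => min 1 (ε * ‖x‖)) (by fun_prop)
      (fun x => le_min zero_le_one (by positivity)) (fun x => min_le_left _ _)
  have hG0 : Tendsto (fun m : ℕ => ∫ x, min 1 ((1 / ((m : ℝ) + 1)) * ‖x‖) ∂ν) atTop (𝓝 0) := by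
    have : Tendsto (fun m : ℕ => ∫ x, min 1 ((1 / ((m : ℝ) + 1)) * ‖x‖) ∂ν) atTop
        (𝓝 (∫ x : C(unitInterval, EuclideanSpace ℝ (Fin 2)), (0 : ℝ) ∂ν)) := by
      apply tendsto_integral_of_dominated_convergence (fun _ => (1 : ℝ))
      · intro m
        apply Continuous.aestronglyMeasurable
        fun_prop
      · exact integrable_const _
      · intro m
        filter_upwards with x
        rw [Real.norm_eq_abs, abs_of_nonneg (le_min zero_le_one (by positivity))]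
        exact min_le_left _ _
      · filter_upwards with x
        have t1 : Tendsto (fun m : ℕ => (1 / ((m : ℝ) + 1)) * ‖x‖) atTop (𝓝 (0 * ‖x‖)) :=
          tendsto_one_div_add_atTop_nhds_zero_nat.mul_const _
        rw [zero_mul] at t1
        have t2 := (tendsto_const_nhds (x := (1 : ℝ))).min t1
        simpa using t2
    simpa using this
  rw [Metric.tendsto_atTop] at h1 ⊢
  intro η hη
  obtain ⟨m, hm⟩ := ((Metric.tendsto_atTop.1 hG0) (η / 3) (by positivity))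
  have hm' := hm m le_rfl
  set ε : ℝ := 1 / ((m : ℝ) + 1) with hε
  have hε0 : 0 < ε := by positivity
  rw [Real.dist_eq, sub_zero] at hm'
  have hm'' := (abs_lt.1 hm').2
  obtain ⟨N1, hN1⟩ := h1 (η / 3) (by positivity)
  obtain ⟨N2, hN2⟩ := (Metric.tendsto_atTop.1 (hG ε hε0.le)) (η / 3) (by positivity)
  obtain ⟨N3, hN3⟩ := (Metric.tendsto_atTop.1 hr) ε hε0
  refine ⟨max N1 (max N2 N3), fun k hk => ?_⟩
  have g1 := hN1 k ((le_max_left _ _).trans hk)
  have g2 := hN2 k (((le_max_left _ _).trans (le_max_right _ _)).trans hk)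
  have g3 := hN3 k (((le_max_right _ _).trans (le_max_right _ _)).trans hk)
  rw [Real.dist_eq] at g1 g2 g3 ⊢
  have hdiff : |avg (ψ k) (fun w => F (r k • X (ψ k) w)) -
      avg (ψ k) (fun w => F (lam • X (ψ k) w))| ≤
      avg (ψ k) (fun w => min 1 (ε * ‖X (ψ k) w‖)) := by
    have e : avg (ψ k) (fun w => F (r k • X (ψ k) w)) -
        avg (ψ k) (fun w => F (lam • X (ψ k) w)) =
        avg (ψ k) (fun w => F (r k • X (ψ k) w) - F (lam • X (ψ k) w)) := by
      rw [avg_eq, avg_eq, avg_eq, Finset.sum_sub_distrib, sub_div]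
    rw [e]
    apply abs_avg_le
    intro w _
    apply le_min
    · rw [abs_le]
      constructor
      · linarith [hF0 (r k • X (ψ k) w), hF1 (lam • X (ψ k) w)]
      · linarith [hF1 (r k • X (ψ k) w), hF0 (lam • X (ψ k) w)]
    · have a1 := lip_abs hF (r k • X (ψ k) w) (lam • X (ψ k) w)
      have a2 : r k • X (ψ k) w - lam • X (ψ k) w = (r k - lam) • X (ψ k) w :=
        (sub_smul (r k) lam (X (ψ k) w)).symm
      rw [a2, norm_smul, Real.norm_eq_abs] at a1
      exact a1.trans (mul_le_mul_of_nonneg_right g3.le (norm_nonneg _))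
  have g2' := (abs_lt.1 g2).2
  calc |avg (ψ k) (fun w => F (r k • X (ψ k) w)) - ∫ x, F (lam • x) ∂ν|
      = |(avg (ψ k) (fun w => F (r k • X (ψ k) w)) -
          avg (ψ k) (fun w => F (lam • X (ψ k) w))) +
        (avg (ψ k) (fun w => F (lam • X (ψ k) w)) - ∫ x, F (lam • x) ∂ν)| := by congr 1; ring
    _ ≤ |avg (ψ k) (fun w => F (r k • X (ψ k) w)) -
          avg (ψ k) (fun w => F (lam • X (ψ k) w))| +
        |avg (ψ k) (fun w => F (lam • X (ψ k) w)) - ∫ x, F (lam • x) ∂ν| := abs_add_le _ _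
    _ < η := by linarith

/-- **Even and odd limit points are comparable.** -/
theorem parity_limit (φ : ℕ → ℕ) (hφ : Tendsto φ atTop atTop) (lam : ℝ)
    (hlam : Tendsto (fun k => s (φ k + 1) / s (φ k)) atTop (𝓝 lam))
    (ν ν' : Measure C(unitInterval, EuclideanSpace ℝ (Fin 2))) [IsProbabilityMeasure ν]
    [IsProbabilityMeasure ν'] (h : WLim φ ν) (h' : WLim (fun k => φ k + 1) ν')
    (A : Set C(unitInterval, EuclideanSpace ℝ (Fin 2))) (hA : MeasurableSet A) :
    ν' ((fun x => lam • x) ⁻¹' A) ≤ ENNReal.ofReal (9 / mu ^ 2) * ν A ∧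
    ν A ≤ ENNReal.ofReal (9 / mu ^ 2) * ν' ((fun x => lam • x) ⁻¹' A) := by
  obtain ⟨C, hC, hq⟩ := parity_quant (1 / 4) (by norm_num) (by norm_num)
  have hmeas : Measurable fun x : C(unitInterval, EuclideanSpace ℝ (Fin 2)) => lam • x :=
    (continuous_const_smul lam).measurable
  have hc0 : 0 ≤ 9 / mu ^ 2 := by have := mu_pos; positivity
  have hmap : ν' ((fun x => lam • x) ⁻¹' A) =
      (ν'.map (fun x : C(unitInterval, EuclideanSpace ℝ (Fin 2)) => lam • x)) A :=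
    (Measure.map_apply hmeas hA).symm
  have hprob : IsProbabilityMeasure
      (ν'.map (fun x : C(unitInterval, EuclideanSpace ℝ (Fin 2)) => lam • x)) :=
    Measure.isProbabilityMeasure_map hmeas.aemeasurable
  have herr : Tendsto (fun k => C * (1 / s (φ k) + (φ k : ℝ) ^ ((1 : ℝ) / 4 - 1 / 2))) atTop
      (𝓝 0) := by
    have t1 : Tendsto (fun k => 1 / s (φ k)) atTop (𝓝 0) := by
      simp only [one_div]
      exact tendsto_inv_atTop_zero.comp (tendsto_s.comp hφ)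
    have t2 : Tendsto (fun k => (φ k : ℝ) ^ ((1 : ℝ) / 4 - 1 / 2)) atTop (𝓝 0) := by
      have e : ((1 : ℝ) / 4 - 1 / 2) = -(1 / 4) := by norm_num
      rw [e]
      exact (tendsto_rpow_neg_atTop (by norm_num : (0 : ℝ) < 1 / 4)).comp
        (tendsto_natCast_atTop_atTop.comp hφ)
    have := (t1.add t2).const_mul C
    simpa using this
  have hEF : ∀ F : C(unitInterval, EuclideanSpace ℝ (Fin 2)) → ℝ, LipschitzWith 1 F →
      (∀ x, 0 ≤ F x) → (∀ x, F x ≤ 1) →
      Tendsto (fun k => EF F (1 / s (φ k)) (φ k)) atTop (𝓝 (∫ x, F x ∂ν)) ∧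
      Tendsto (fun k => EF F (1 / s (φ k)) (φ k + 1)) atTop (𝓝 (∫ x, F (lam • x) ∂ν')) := by
    intro F hF hF0 hF1
    constructor
    · have t1 := WLim_apply h F hF.continuous hF0 hF1
      refine t1.congr' ?_
      filter_upwards [hφ.eventually_ge_atTop 1] with k hk
      unfold EF
      have hs := s_pos hk
      have e : 1 / s (φ k) * s (φ k) = 1 := by field_simp
      rw [e]
      simp only [one_smul]
    · have t1 := rescale_limit h' (fun k => s (φ k + 1) / s (φ k)) lam hlam F hF hF0 hF1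
      refine t1.congr (fun k => ?_)
      unfold EF
      have e : 1 / s (φ k) * s (φ k + 1) = s (φ k + 1) / s (φ k) := by ring
      rw [e]
  have hineq : ∀ F : C(unitInterval, EuclideanSpace ℝ (Fin 2)) → ℝ, LipschitzWith 1 F →
      (∀ x, 0 ≤ F x) → (∀ x, F x ≤ 1) →
      ∫ x, F (lam • x) ∂ν' ≤ 9 / mu ^ 2 * ∫ x, F x ∂ν ∧
      ∫ x, F x ∂ν ≤ 9 / mu ^ 2 * ∫ x, F (lam • x) ∂ν' := by
    intro F hF hF0 hF1
    obtain ⟨t1, t2⟩ := hEF F hF hF0 hF1
    constructor
    · have t3 := (t1.const_mul (9 / mu ^ 2)).add herr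
      rw [add_zero] at t3
      apply le_of_tendsto_of_tendsto t2 t3
      filter_upwards [hφ.eventually_ge_atTop 1] with k hk
      exact (hq (φ k) hk F hF hF0 hF1 (1 / s (φ k)) (by have := s_pos hk; positivity)).1
    · have t3 := (t2.const_mul (9 / mu ^ 2)).add herr
      rw [add_zero] at t3
      apply le_of_tendsto_of_tendsto t1 t3
      filter_upwards [hφ.eventually_ge_atTop 1] with k hk
      exact (hq (φ k) hk F hF hF0 hF1 (1 / s (φ k)) (by have := s_pos hk; positivity)).2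
  have hint : ∀ F : C(unitInterval, EuclideanSpace ℝ (Fin 2)) → ℝ, LipschitzWith 1 F →
      ∫ x, F x ∂(ν'.map (fun x : C(unitInterval, EuclideanSpace ℝ (Fin 2)) => lam • x)) =
      ∫ x, F (lam • x) ∂ν' := by
    intro F hF
    exact integral_map hmeas.aemeasurable hF.continuous.aestronglyMeasurable
  rw [hmap]
  constructor
  · apply measure_le_of_lip _ _ _ hc0 _ A hA
    intro F hF hF0 hF1
    rw [hint F hF]
    exact (hineq F hF hF0 hF1).1
  · apply measure_le_of_lip _ _ _ hc0 _ A hA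
    intro F hF hF0 hF1
    rw [hint F hF]
    exact (hineq F hF hF0 hF1).2

end

end Pool.Agent.SawLim
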