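import Pool.Agent.SawLim.Defs
import Pool.Agent.Saw39.Core

/-!
The finite set of `n`-step self-avoiding walks and its description by step words.
-/

set_option autoImplicit false

open SawNu

namespace Pool.Agent.SawLim

/-- positions of a step word -/
def path (n : ℕ) (l : List Pt) : Fin (n + 1) → ℤ × ℤ := fun k => ps l k

open scoped Classical in
/-- the finite set of `n`-step self-avoiding walks -/
noncomputable def saws (n : ℕ) : Finset (Fin (n + 1) → ℤ × ℤ) := (WS sqL n).image (path n)

lemma mem_sqS (b : Bool) (s : Pt) : s ∈ sqL.S b ↔ |s.1| + |s.2| = 1 := by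
  show s ∈ ({(1, 0), (0, 1), (-1, 0), (0, -1)} : Finset Pt) ↔ _
  simp only [Finset.mem_insert, Finset.mem_singleton]
  obtain ⟨a, b⟩ := s
  simp only [Prod.mk.injEq]
  constructor
  · rintro (⟨rfl, rfl⟩ | ⟨rfl, rfl⟩ | ⟨rfl, rfl⟩ | ⟨rfl, rfl⟩) <;> simp
  · intro h
    rcases abs_cases a with ⟨h1, h2⟩ | ⟨h1, h2⟩ <;> rcases abs_cases b with ⟨h3, h4⟩ | ⟨h3, h4⟩ <;>
      omega

lemma TW_sq (b : Bool) (l : List Pt) : TW sqL.S b l ↔ ∀ s ∈ l, |s.1| + |s.2| = 1 := by
  induction l generalizing b with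
  | nil => simp [TW]
  | cons s l ih =>
    simp only [TW, ih, mem_sqS, List.mem_cons, forall_eq_or_imp]

lemma path_isSAW {n : ℕ} {l : List Pt} (h : l ∈ WS sqL n) : IsSAW n (path n l) := by
  rw [mem_WS] at h
  obtain ⟨h1, h2, h3⟩ := h
  rw [TW_sq] at h2
  refine ⟨by simp [path], ?_, ?_⟩
  · intro k
    have hk : (k : ℕ) < l.length := by rw [h1]; exact k.2
    have e : path n l k.succ = path n l k.castSucc + l[(k : ℕ)] := by
      simp only [path, Fin.val_succ, Fin.val_castSucc]
      exact ps_succ hk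
    rw [e]
    have := h2 l[(k : ℕ)] (List.getElem_mem hk)
    simpa using this
  · intro i j hij
    simp only [path] at hij
    by_contra hne
    have hne' : (i : ℕ) ≠ j := fun h => hne (Fin.ext h)
    rcases lt_or_gt_of_ne hne' with hlt | hlt
    · exact h3 i j hlt (by have := j.2; omega) hij
    · exact h3 j i hlt (by have := i.2; omega) hij.symm

/-- step word of a walk -/
def steps (n : ℕ) (w : Fin (n + 1) → ℤ × ℤ) : List Pt :=
  List.ofFn (fun k : Fin n => w k.succ - w k.castSucc)

lemma length_steps (n : ℕ) (w : Fin (n + 1) → ℤ × ℤ) : (steps n w).length = n := by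
  simp [steps]

lemma ps_steps {n : ℕ} {w : Fin (n + 1) → ℤ × ℤ} (h0 : w 0 = 0) (k : ℕ) (hk : k ≤ n) :
    ps (steps n w) k = w ⟨k, by omega⟩ := by
  induction k with
  | zero => rw [ps_zero]; exact h0.symm
  | succ k ih =>
    have hk' : k < (steps n w).length := by rw [length_steps]; omega
    rw [ps_succ hk', ih (by omega)]
    have : (steps n w)[k] = w ⟨k + 1, by omega⟩ - w ⟨k, by omega⟩ := by
      simp only [steps, List.getElem_ofFn]
      rfl
    rw [this]
    abel

lemma path_steps {n : ℕ} {w : Fin (n + 1) → ℤ × ℤ} (h0 : w 0 = 0) : path n (steps n w) = w := by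
  funext k
  exact ps_steps h0 k (by have := k.2; omega)

lemma steps_mem {n : ℕ} {w : Fin (n + 1) → ℤ × ℤ} (h : IsSAW n w) : steps n w ∈ WS sqL n := by
  obtain ⟨h1, h2, h3⟩ := h
  rw [mem_WS]
  refine ⟨length_steps n w, ?_, ?_⟩
  · rw [TW_sq]
    intro s hs
    rw [steps, List.mem_ofFn] at hs
    obtain ⟨k, rfl⟩ := hs
    exact h2 k
  · intro i j hij hj he
    rw [length_steps] at hj
    rw [ps_steps h1 i (by omega), ps_steps h1 j hj] at he
    have := congrArg Fin.val (h3 he)
    simp only at this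
    omega

theorem mem_saws {n : ℕ} {w : Fin (n + 1) → ℤ × ℤ} : w ∈ saws n ↔ IsSAW n w := by
  classical
  rw [saws, Finset.mem_image]
  constructor
  · rintro ⟨l, hl, rfl⟩
    exact path_isSAW hl
  · intro h
    exact ⟨steps n w, steps_mem h, path_steps h.1⟩

lemma steps_path {n : ℕ} {l : List Pt} (h : l.length = n) : steps n (path n l) = l := by
  apply List.ext_getElem
  · rw [length_steps, h]
  · intro k h1 h2
    simp only [steps, List.getElem_ofFn, path, Fin.val_succ, Fin.val_castSucc]
    rw [ps_succ h2]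
    abel

lemma path_injOn (n : ℕ) : Set.InjOn (path n) (WS sqL n : Set (List Pt)) := by
  intro l hl l' hl' he
  have h1 := (mem_WS.1 (Finset.mem_coe.1 hl)).1
  have h2 := (mem_WS.1 (Finset.mem_coe.1 hl')).1
  rw [← steps_path h1, ← steps_path h2, he]

/-- counting walks with a property through words -/
theorem card_saws_filter (n : ℕ) (P : (Fin (n + 1) → ℤ × ℤ) → Prop) [DecidablePred P]
    (Q : List Pt → Prop) [DecidablePred Q]
    (h : ∀ l ∈ WS sqL n, (P (path n l) ↔ Q l)) :
    ((saws n).filter P).card = ((WS sqL n).filter Q).card := by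
  classical
  have : (saws n).filter P = ((WS sqL n).filter Q).image (path n) := by
    ext w
    simp only [Finset.mem_filter, Finset.mem_image, saws]
    constructor
    · rintro ⟨⟨l, hl, rfl⟩, hP⟩
      exact ⟨l, ⟨hl, (h l hl).1 hP⟩, rfl⟩
    · rintro ⟨l, ⟨hl, hQ⟩, rfl⟩
      exact ⟨⟨l, hl, rfl⟩, (h l hl).2 hQ⟩
  rw [this, Finset.card_image_of_injOn]
  exact (path_injOn n).mono (fun l hl => by
    rw [Finset.mem_coe, Finset.mem_filter] at hl
    exact hl.1)

theorem avg_eq (n : ℕ) (f : (Fin (n + 1) → ℤ × ℤ) → ℝ) :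
    avg n f = (∑ w ∈ saws n, f w) / ((saws n).card : ℝ) := by
  classical
  let _ : Fintype {w : Fin (n + 1) → ℤ × ℤ // IsSAW n w} :=
    Fintype.subtype (saws n) (fun w => mem_saws)
  have h1 : (∑ᶠ w : {w : Fin (n + 1) → ℤ × ℤ // IsSAW n w}, f w) = ∑ w ∈ saws n, f w := by
    rw [finsum_eq_sum_of_fintype]
    exact (Finset.sum_subtype (saws n) (fun w => mem_saws) f).symm
  have h2 : Nat.card {w : Fin (n + 1) → ℤ × ℤ // IsSAW n w} = (saws n).card := by
    rw [Nat.card_eq_fintype_card]
    exact Fintype.subtype_card (saws n) (fun w => mem_saws)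
  rw [avg, h1, h2]

/-- the straight walk to the right -/
lemma straight_isSAW (n : ℕ) : IsSAW n (fun k => (((k : ℕ) : ℤ), (0 : ℤ))) := by
  refine ⟨by simp, ?_, ?_⟩
  · intro k; simp
  · intro i j hij
    simp only [Prod.mk.injEq] at hij
    exact Fin.ext (by exact_mod_cast hij.1)

lemma saws_nonempty (n : ℕ) : (saws n).Nonempty :=
  ⟨_, mem_saws.2 (straight_isSAW n)⟩

lemma card_saws_pos (n : ℕ) : (0 : ℝ) < ((saws n).card : ℝ) := by
  exact_mod_cast (saws_nonempty n).card_pos

/-- symmetry: coordinate swap -/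
def swp (p : ℤ × ℤ) : ℤ × ℤ := (p.2, p.1)

lemma isSAW_swp {n : ℕ} {w : Fin (n + 1) → ℤ × ℤ} (h : IsSAW n w) :
    IsSAW n (fun k => swp (w k)) := by
  obtain ⟨h1, h2, h3⟩ := h
  refine ⟨by simp [swp, h1], ?_, ?_⟩
  · intro k
    have := h2 k
    simp only [swp]
    rw [add_comm]; exact this
  · intro i j hij
    apply h3
    simp only [swp, Prod.mk.injEq] at hij
    exact Prod.ext hij.2 hij.1

/-- symmetry: vertical reflection -/
def vrf (p : ℤ × ℤ) : ℤ × ℤ := (p.1, -p.2)

lemma isSAW_vrf {n : ℕ} {w : Fin (n + 1) → ℤ × ℤ} (h : IsSAW n w) :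
    IsSAW n (fun k => vrf (w k)) := by
  obtain ⟨h1, h2, h3⟩ := h
  refine ⟨by simp [vrf, h1], ?_, ?_⟩
  · intro k
    have := h2 k
    simp only [vrf]
    have e : |(-(w k.succ).2) - (-(w k.castSucc).2)| = |(w k.succ).2 - (w k.castSucc).2| := by
      rw [← abs_neg]; congr 1; ring
    rw [e]; exact this
  · intro i j hij
    apply h3
    simp only [vrf, Prod.mk.injEq, neg_inj] at hij
    exact Prod.ext hij.1 hij.2

lemma swp_swp (p : ℤ × ℤ) : swp (swp p) = p := rfl
lemma vrf_vrf (p : ℤ × ℤ) : vrf (vrf p) = p := by simp [vrf]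

open scoped Classical in
theorem card_filter_swp (n : ℕ) (P : (Fin (n + 1) → ℤ × ℤ) → Prop) :
    ((saws n).filter (fun w => P (fun k => swp (w k)))).card = ((saws n).filter P).card := by
  have hinv : ∀ w : Fin (n + 1) → ℤ × ℤ, (fun k => swp (swp (w k))) = w := by
    intro w; funext k; rw [swp_swp]
  have e : (saws n).filter P =
      ((saws n).filter (fun w => P (fun k => swp (w k)))).image (fun w k => swp (w k)) := by
    ext w
    rw [Finset.mem_image]
    constructor
    · intro hw
      rw [Finset.mem_filter] at hw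
      refine ⟨fun k => swp (w k), ?_, hinv w⟩
      rw [Finset.mem_filter]
      refine ⟨mem_saws.2 (isSAW_swp (mem_saws.1 hw.1)), ?_⟩
      have := hinv w
      simp only [this]
      exact hw.2
    · rintro ⟨v, hv, rfl⟩
      rw [Finset.mem_filter] at hv ⊢
      exact ⟨mem_saws.2 (isSAW_swp (mem_saws.1 hv.1)), hv.2⟩
  rw [e, Finset.card_image_of_injective]
  intro v w h
  rw [← hinv v, ← hinv w]
  funext k
  have := congrFun h k
  simp only at this ⊢
  rw [this]

open scoped Classical in
theorem card_filter_vrf (n : ℕ) (P : (Fin (n + 1) → ℤ × ℤ) → Prop) :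
    ((saws n).filter (fun w => P (fun k => vrf (w k)))).card = ((saws n).filter P).card := by
  have hinv : ∀ w : Fin (n + 1) → ℤ × ℤ, (fun k => vrf (vrf (w k))) = w := by
    intro w; funext k; rw [vrf_vrf]
  have e : (saws n).filter P =
      ((saws n).filter (fun w => P (fun k => vrf (w k)))).image (fun w k => vrf (w k)) := by
    ext w
    rw [Finset.mem_image]
    constructor
    · intro hw
      rw [Finset.mem_filter] at hw
      refine ⟨fun k => vrf (w k), ?_, hinv w⟩
      rw [Finset.mem_filter]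
      refine ⟨mem_saws.2 (isSAW_vrf (mem_saws.1 hw.1)), ?_⟩
      have := hinv w
      simp only [this]
      exact hw.2
    · rintro ⟨v, hv, rfl⟩
      rw [Finset.mem_filter] at hv ⊢
      exact ⟨mem_saws.2 (isSAW_vrf (mem_saws.1 hv.1)), hv.2⟩
  rw [e, Finset.card_image_of_injective]
  intro v w h
  rw [← hinv v, ← hinv w]
  funext k
  have := congrFun h k
  simp only at this ⊢
  rw [this]

end Pool.Agent.SawLim
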