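import Pool.Agent.SawLim.Merge

/-!
Weak convergence of the laws of `X_n` along sparse sequences.
-/

set_option autoImplicit false

open MeasureTheory Filter Topology

namespace Pool.Agent.SawLim

/-- the laws of `X_{φ k}` converge weakly to `ν` -/
def WLim (φ : ℕ → ℕ) [MeasurableSpace C(unitInterval, EuclideanSpace ℝ (Fin 2))]
    (ν : Measure C(unitInterval, EuclideanSpace ℝ (Fin 2))) : Prop :=
  ∀ F : BoundedContinuousFunction C(unitInterval, EuclideanSpace ℝ (Fin 2)) ℝ,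
    Tendsto (fun k => avg (φ k) (fun w => F (X (φ k) w))) atTop (𝓝 (∫ x, F x ∂ν))

section

variable [MeasurableSpace C(unitInterval, EuclideanSpace ℝ (Fin 2))]
  [BorelSpace C(unitInterval, EuclideanSpace ℝ (Fin 2))]

/-- the law of `X_n` -/
noncomputable def lawM (n : ℕ) : Measure C(unitInterval, EuclideanSpace ℝ (Fin 2)) :=
  ∑ w ∈ saws n, ENNReal.ofReal (1 / ((saws n).card : ℝ)) • Measure.dirac (X n w)

instance (n : ℕ) : IsProbabilityMeasure (lawM n) := by
  constructor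
  unfold lawM
  rw [Measure.finsetSum_apply]
  simp only [Measure.smul_apply, measure_univ, smul_eq_mul, mul_one, Finset.sum_const, nsmul_eq_mul]
  have hc := card_saws_pos n
  have e : (((saws n).card : ℕ) : ENNReal) = ENNReal.ofReal ((saws n).card : ℝ) := by
    rw [ENNReal.ofReal_natCast]
  rw [e, ← ENNReal.ofReal_mul hc.le, mul_one_div_cancel hc.ne', ENNReal.ofReal_one]

lemma integral_lawM (n : ℕ) (f : C(unitInterval, EuclideanSpace ℝ (Fin 2)) → ℝ) :
    ∫ x, f x ∂(lawM n) = avg n (fun w => f (X n w)) := by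
  unfold lawM
  have hc := card_saws_pos n
  rw [integral_finsetSum_measure]
  · rw [avg_eq, Finset.sum_div]
    apply Finset.sum_congr rfl
    intro w _
    rw [integral_smul_measure, integral_dirac, ENNReal.toReal_ofReal (by positivity), smul_eq_mul]
    ring
  · intro w _
    apply Integrable.smul_measure
    · exact integrable_dirac (by simp)
    · exact ENNReal.ofReal_ne_top

/-- the law as a probability measure -/
noncomputable def lawP (n : ℕ) : ProbabilityMeasure C(unitInterval, EuclideanSpace ℝ (Fin 2)) :=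
  ⟨lawM n, inferInstance⟩

lemma integral_lawP (n : ℕ) (f : C(unitInterval, EuclideanSpace ℝ (Fin 2)) → ℝ) :
    ∫ x, f x ∂(lawP n : Measure C(unitInterval, EuclideanSpace ℝ (Fin 2))) =
      avg n (fun w => f (X n w)) := integral_lawM n f

lemma WLim_iff_tendsto (φ : ℕ → ℕ)
    (P : ProbabilityMeasure C(unitInterval, EuclideanSpace ℝ (Fin 2))) :
    WLim φ (P : Measure C(unitInterval, EuclideanSpace ℝ (Fin 2))) ↔
      Tendsto (fun k => lawP (φ k)) atTop (𝓝 P) := by
  rw [ProbabilityMeasure.tendsto_iff_forall_integral_tendsto]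
  unfold WLim
  simp only [integral_lawP]

lemma WLim_iff_lip' (φ : ℕ → ℕ)
    (P : ProbabilityMeasure C(unitInterval, EuclideanSpace ℝ (Fin 2))) :
    WLim φ (P : Measure C(unitInterval, EuclideanSpace ℝ (Fin 2))) ↔
      ∀ F : C(unitInterval, EuclideanSpace ℝ (Fin 2)) → ℝ,
      (∃ C : ℝ, ∀ x y, dist (F x) (F y) ≤ C) → LipschitzWith 1 F →
      Tendsto (fun k => avg (φ k) (fun w => F (X (φ k) w))) atTop
        (𝓝 (∫ x, F x ∂(P : Measure C(unitInterval, EuclideanSpace ℝ (Fin 2))))) := by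
  rw [WLim_iff_tendsto, tendsto_iff_forall_lipschitz_integral_tendsto]
  simp only [integral_lawP]
  constructor
  · intro h F hb hF
    exact h F hb ⟨1, hF⟩
  · rintro h F ⟨C, hb⟩ ⟨L, hF⟩
    set r : ℝ := (L : ℝ) + 1 with hr
    have hr0 : 0 < r := by positivity
    have h1 := h (fun x => r⁻¹ * F x) ⟨r⁻¹ * C, fun x y => by
        rw [Real.dist_eq, ← mul_sub, abs_mul, abs_of_pos (inv_pos.2 hr0), ← Real.dist_eq]
        exact mul_le_mul_of_nonneg_left (hb x y) (inv_pos.2 hr0).le⟩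
      (by
        apply LipschitzWith.of_dist_le_mul
        intro x y
        rw [Real.dist_eq, ← mul_sub, abs_mul, abs_of_pos (inv_pos.2 hr0), ← Real.dist_eq,
          NNReal.coe_one, one_mul]
        have h2 := hF.dist_le_mul x y
        rw [inv_mul_le_iff₀ hr0]
        refine h2.trans (mul_le_mul_of_nonneg_right ?_ dist_nonneg)
        linarith)
    have h2 := h1.const_mul r
    rw [integral_const_mul, ← mul_assoc, mul_inv_cancel₀ hr0.ne', one_mul] at h2
    refine h2.congr (fun k => ?_)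
    have h3 := avg_add_const (n := φ k) (fun w => F (X (φ k) w)) 0 r⁻¹
    simp only [zero_add] at h3
    rw [h3, ← mul_assoc, mul_inv_cancel₀ hr0.ne', one_mul]

lemma WLim_iff_lip (φ : ℕ → ℕ) (ν : Measure C(unitInterval, EuclideanSpace ℝ (Fin 2)))
    [hν : IsProbabilityMeasure ν] :
    WLim φ ν ↔ ∀ F : C(unitInterval, EuclideanSpace ℝ (Fin 2)) → ℝ,
      (∃ C : ℝ, ∀ x y, dist (F x) (F y) ≤ C) → LipschitzWith 1 F →
      Tendsto (fun k => avg (φ k) (fun w => F (X (φ k) w))) atTop (𝓝 (∫ x, F x ∂ν)) :=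
  WLim_iff_lip' φ ⟨ν, hν⟩

/-- two sequences of the same parity at distance `O(φ^{1/2-η})` have the same weak limits -/
theorem WLim_of_close (η : ℝ) (hη : 0 < η) (φ ψ : ℕ → ℕ) (hφ : Tendsto φ atTop atTop)
    (hpar : ∀ᶠ k in atTop, φ k % 2 = ψ k % 2) (D : ℝ)
    (hD : ∀ᶠ k in atTop, |(ψ k : ℝ) - φ k| ≤ D * (φ k : ℝ) ^ (1 / 2 - η))
    (ν : Measure C(unitInterval, EuclideanSpace ℝ (Fin 2))) [IsProbabilityMeasure ν]
    (h : WLim φ ν) : WLim ψ ν := by
  rw [WLim_iff_lip] at h ⊢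
  intro F hb hF
  have h1 := h F hb hF
  obtain ⟨δ, hδ0, hδη, hδ4⟩ : ∃ δ : ℝ, 0 < δ ∧ δ < η ∧ δ < 1 / 2 :=
    ⟨min (η / 2) (1 / 4), by positivity, lt_of_le_of_lt (min_le_left _ _) (by linarith),
      lt_of_le_of_lt (min_le_right _ _) (by norm_num)⟩
  obtain ⟨C, hC, hT⟩ := merging_tele δ hδ0 hδ4
  have hφr : Tendsto (fun k => (φ k : ℝ)) atTop atTop := tendsto_natCast_atTop_atTop.comp hφ
  have D0 : 0 ≤ |D| := abs_nonneg D
  -- the two averages are close
  have hclose : ∀ᶠ k in atTop,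
      |avg (ψ k) (fun w => F (X (ψ k) w)) - avg (φ k) (fun w => F (X (φ k) w))| ≤
        (C * |D| * 2) * (φ k : ℝ) ^ (-(η - δ)) := by
    -- `D φ^{1/2-η} ≤ φ / 2`
    have e1 : ∀ᶠ k in atTop, |D| * (φ k : ℝ) ^ (1 / 2 - η) ≤ (φ k : ℝ) / 2 := by
      have t1 : Tendsto (fun x : ℝ => |D| * x ^ (-(1 / 2 + η))) atTop (𝓝 (|D| * 0)) :=
        (tendsto_rpow_neg_atTop (by linarith : 0 < 1 / 2 + η)).const_mul _
      rw [mul_zero] at t1
      have t2 := (t1.comp hφr).eventually (ge_mem_nhds (show (0 : ℝ) < 1 / 2 by norm_num))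
      filter_upwards [t2, hφr.eventually_ge_atTop 1] with k k1 k2
      have k0 : (0 : ℝ) < φ k := by linarith
      simp only [Function.comp_apply] at k1
      have k3 : (φ k : ℝ) ^ (1 / 2 - η) = (φ k : ℝ) ^ (-(1 / 2 + η)) * φ k := by
        nth_rewrite 3 [← Real.rpow_one (φ k : ℝ)]
        rw [← Real.rpow_add k0]
        congr 1; ring
      rw [k3, ← mul_assoc]
      nlinarith
    filter_upwards [hpar, hD, e1, hφ.eventually_ge_atTop 2] with k k1 k2 k3 k4
    have k0 : (0 : ℝ) < φ k := by exact_mod_cast (by omega : 0 < φ k)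
    have kp : 0 < (φ k : ℝ) ^ (1 / 2 - η) := Real.rpow_pos_of_pos k0 _
    have k5 : |(ψ k : ℝ) - φ k| ≤ |D| * (φ k : ℝ) ^ (1 / 2 - η) :=
      k2.trans (mul_le_mul_of_nonneg_right (le_abs_self D) kp.le)
    have kq : 0 < (φ k : ℝ) ^ (δ - 1 / 2) := Real.rpow_pos_of_pos k0 _
    have kexp : (φ k : ℝ) ^ (1 / 2 - η) * (φ k : ℝ) ^ (δ - 1 / 2) = (φ k : ℝ) ^ (-(η - δ)) := by
      rw [← Real.rpow_add k0]; congr 1; ring
    rcases le_total (φ k) (ψ k) with hle | hle
    · obtain ⟨j, hj⟩ : ∃ j, ψ k = φ k + 2 * j := ⟨(ψ k - φ k) / 2, by omega⟩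
      have h2 := hT F hF (φ k) (by omega) j
      rw [← hj] at h2
      refine h2.trans ?_
      have hj2 : (j : ℝ) ≤ |D| * (φ k : ℝ) ^ (1 / 2 - η) := by
        have : (ψ k : ℝ) - φ k = 2 * j := by rw [hj]; push_cast; ring
        rw [this, abs_of_nonneg (by positivity)] at k5
        have : (0 : ℝ) ≤ j := Nat.cast_nonneg _
        linarith
      calc C * j * (φ k : ℝ) ^ (δ - 1 / 2)
          ≤ C * (|D| * (φ k : ℝ) ^ (1 / 2 - η)) * (φ k : ℝ) ^ (δ - 1 / 2) := by
            apply mul_le_mul_of_nonneg_right _ kq.le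
            exact mul_le_mul_of_nonneg_left hj2 hC
        _ = C * |D| * ((φ k : ℝ) ^ (1 / 2 - η) * (φ k : ℝ) ^ (δ - 1 / 2)) := by ring
        _ = C * |D| * (φ k : ℝ) ^ (-(η - δ)) := by rw [kexp]
        _ ≤ (C * |D| * 2) * (φ k : ℝ) ^ (-(η - δ)) := by
            apply mul_le_mul_of_nonneg_right _ (Real.rpow_pos_of_pos k0 _).le
            nlinarith [mul_nonneg hC D0]
    · obtain ⟨j, hj⟩ : ∃ j, φ k = ψ k + 2 * j := ⟨(φ k - ψ k) / 2, by omega⟩
      have hψ2 : (φ k : ℝ) / 2 ≤ ψ k := by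
        have := (abs_le.1 k5).1
        linarith
      have hψ1 : 1 ≤ ψ k := by
        have : (1 : ℝ) ≤ ψ k := by
          have : (2 : ℝ) ≤ φ k := by exact_mod_cast k4
          linarith
        exact_mod_cast this
      have h2 := hT F hF (ψ k) hψ1 j
      rw [← hj, abs_sub_comm] at h2
      refine h2.trans ?_
      have hj2 : (j : ℝ) ≤ |D| * (φ k : ℝ) ^ (1 / 2 - η) := by
        have : (ψ k : ℝ) - φ k = -(2 * j) := by rw [hj]; push_cast; ring
        rw [this, abs_neg, abs_of_nonneg (by positivity)] at k5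
        have : (0 : ℝ) ≤ j := Nat.cast_nonneg _
        linarith
      have hpow : (ψ k : ℝ) ^ (δ - 1 / 2) ≤ 2 * (φ k : ℝ) ^ (δ - 1 / 2) := by
        have p1 : (ψ k : ℝ) ^ (δ - 1 / 2) ≤ ((φ k : ℝ) / 2) ^ (δ - 1 / 2) :=
          Real.rpow_le_rpow_of_nonpos (by positivity) hψ2 (by linarith)
        have p2 : ((φ k : ℝ) / 2) ^ (δ - 1 / 2) =
            (φ k : ℝ) ^ (δ - 1 / 2) * (1 / 2 : ℝ) ^ (δ - 1 / 2) := by
          rw [← Real.mul_rpow k0.le (by norm_num)]
          congr 1; ring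
        have p3 : (1 / 2 : ℝ) ^ (δ - 1 / 2) ≤ 2 := by
          have : (1 / 2 : ℝ) ^ (δ - 1 / 2) ≤ (1 / 2 : ℝ) ^ (-1 : ℝ) :=
            Real.rpow_le_rpow_of_exponent_ge (by norm_num) (by norm_num) (by linarith)
          rw [Real.rpow_neg_one] at this
          norm_num at this ⊢
          linarith
        rw [p2] at p1
        nlinarith
      calc C * j * (ψ k : ℝ) ^ (δ - 1 / 2)
          ≤ C * (|D| * (φ k : ℝ) ^ (1 / 2 - η)) * (2 * (φ k : ℝ) ^ (δ - 1 / 2)) := by
            apply mul_le_mul _ hpow (by positivity) (by positivity)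
            exact mul_le_mul_of_nonneg_left hj2 hC
        _ = (C * |D| * 2) * ((φ k : ℝ) ^ (1 / 2 - η) * (φ k : ℝ) ^ (δ - 1 / 2)) := by ring
        _ = (C * |D| * 2) * (φ k : ℝ) ^ (-(η - δ)) := by rw [kexp]
  have hzero : Tendsto (fun k => avg (ψ k) (fun w => F (X (ψ k) w)) -
      avg (φ k) (fun w => F (X (φ k) w))) atTop (𝓝 0) := by
    have t1 : Tendsto (fun k => (C * |D| * 2) * (φ k : ℝ) ^ (-(η - δ))) atTop
        (𝓝 ((C * |D| * 2) * 0)) :=
      ((tendsto_rpow_neg_atTop (by linarith : 0 < η - δ)).comp hφr).const_mul _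
    rw [mul_zero] at t1
    exact squeeze_zero_norm' (hclose.mono fun k hk => by rwa [Real.norm_eq_abs]) t1
  have := hzero.add h1
  rw [zero_add] at this
  refine this.congr (fun k => ?_)
  ring

/-- **Sparse subsequence criterion.** -/
theorem WLim_of_sparse (η : ℝ) (hη : 0 < η) (N : ℕ → ℕ) (hN : StrictMono N) (r : ℕ)
    (hpar : ∀ k, N k % 2 = r) (D : ℝ)
    (hD : ∀ k, (N (k + 1) : ℝ) - N k ≤ D * (N k : ℝ) ^ (1 / 2 - η))
    (ν : Measure C(unitInterval, EuclideanSpace ℝ (Fin 2))) [IsProbabilityMeasure ν]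
    (h : WLim N ν) : WLim (fun m => 2 * m + r) ν := by
  classical
  have hr : r < 2 := by rw [← hpar 0]; exact Nat.mod_lt _ (by norm_num)
  -- the last index
  have hfin : ∀ n : ℕ, N 0 ≤ n → ∃ j, N j ≤ n ∧ n < N (j + 1) := by
    intro n hn
    have hex : ∃ j, n < N j := ⟨n + 1, lt_of_lt_of_le (Nat.lt_succ_self n) (hN.id_le _)⟩
    have h1 := Nat.find_spec hex
    have h2 : Nat.find hex ≠ 0 := by
      intro h0
      rw [h0] at h1
      omega
    refine ⟨Nat.find hex - 1, ?_, ?_⟩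
    · have := Nat.find_min hex (show Nat.find hex - 1 < Nat.find hex by omega)
      omega
    · have e : Nat.find hex - 1 + 1 = Nat.find hex := by omega
      rw [e]; exact h1
  choose! j hj1 hj2 using hfin
  have hbig : ∀ᶠ m : ℕ in atTop, N 0 ≤ 2 * m + r := by
    filter_upwards [eventually_ge_atTop (N 0)] with m hm
    omega
  have hjt : Tendsto (fun m => j (2 * m + r)) atTop atTop := by
    rw [tendsto_atTop]
    intro b
    filter_upwards [eventually_ge_atTop (N (b + 1)), hbig] with m hm hm'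
    have h3 := hj2 _ hm'
    by_contra hc
    push Not at hc
    have h4 : N (j (2 * m + r) + 1) ≤ N (b + 1) := hN.monotone (by omega)
    omega
  have h1 : WLim (fun m => N (j (2 * m + r))) ν := by
    intro F
    exact (h F).comp hjt
  refine WLim_of_close η hη (fun m => N (j (2 * m + r))) (fun m => 2 * m + r)
    (hN.tendsto_atTop.comp hjt) ?_ D ?_ ν h1
  · filter_upwards with m
    rw [hpar]
    omega
  · filter_upwards [hbig] with m hm
    have h3 : ((2 * m + r : ℕ) : ℝ) < N (j (2 * m + r) + 1) := by exact_mod_cast hj2 _ hm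
    have h4 : (N (j (2 * m + r)) : ℝ) ≤ ((2 * m + r : ℕ) : ℝ) := by exact_mod_cast hj1 _ hm
    rw [abs_of_nonneg (by linarith)]
    have := hD (j (2 * m + r))
    linarith

end

end Pool.Agent.SawLim
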