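import Mathlib

/-!
The rescaled planar self-avoiding walk `X_n` as a random element of `C([0,1], ℝ²)`.
-/

set_option autoImplicit false

namespace Pool.Agent.SawLim

/-- `w = (w 0, ..., w n)` is an `n`-step self-avoiding walk on `ℤ²` started at the origin:
`w 0 = 0`, consecutive sites are at distance `1`, and all sites are distinct. -/
def IsSAW (n : ℕ) (w : Fin (n + 1) → ℤ × ℤ) : Prop :=
  w 0 = 0 ∧
  (∀ k : Fin n, |(w k.succ).1 - (w k.castSucc).1| + |(w k.succ).2 - (w k.castSucc).2| = 1) ∧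
  Function.Injective w

/-- A lattice site as a point of the Euclidean plane. -/
noncomputable def pt (p : ℤ × ℤ) : EuclideanSpace ℝ (Fin 2) := !₂[(p.1 : ℝ), (p.2 : ℝ)]

/-- Expectation `⟨f⟩_n` with respect to the uniform probability measure on the finite set of
`n`-step self-avoiding walks. -/
noncomputable def avg (n : ℕ) (f : (Fin (n + 1) → ℤ × ℤ) → ℝ) : ℝ :=
  (∑ᶠ w : {w : Fin (n + 1) → ℤ × ℤ // IsSAW n w}, f w) /
    (Nat.card {w : Fin (n + 1) → ℤ × ℤ // IsSAW n w} : ℝ)

/-- `s_n = ⟨|ω(n)|²⟩_n^{1/2}`, the root mean square end-to-end distance. -/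
noncomputable def s (n : ℕ) : ℝ := Real.sqrt (avg n fun w => ‖pt (w (Fin.last n))‖ ^ 2)

/-- The continuous path `X_n ∈ C([0,1], ℝ²)` of the walk `w`: `X_n(k/n) = w(k)/s_n` for
`k = 0, ..., n`, with linear interpolation between these times (the weight of the step number `k`
at time `t` is `n t - k` cut off to the interval `[0,1]`). -/
noncomputable def X (n : ℕ) (w : Fin (n + 1) → ℤ × ℤ) :
    C(unitInterval, EuclideanSpace ℝ (Fin 2)) where
  toFun t := (s n)⁻¹ • (pt (w 0) + ∑ k : Fin n,
    (max 0 (min 1 ((n : ℝ) * (t : ℝ) - (k : ℝ)))) • (pt (w k.succ) - pt (w k.castSucc)))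
  continuous_toFun := by fun_prop

end Pool.Agent.SawLim
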