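import Pool.Agent.SawLim.Bridge

/-!
`X_n` is the linear interpolation of the rescaled walk; its supremum norm.
-/

set_option autoImplicit false

namespace Pool.Agent.SawLim

/-- the walk as a function on `ℕ`, constant after time `n` -/
def wN (n : ℕ) (w : Fin (n + 1) → ℤ × ℤ) (k : ℕ) : ℤ × ℤ := w ⟨min k n, by omega⟩

lemma wN_of_le {n : ℕ} (w : Fin (n + 1) → ℤ × ℤ) {k : ℕ} (h : k ≤ n) :
    wN n w k = w ⟨k, by omega⟩ := by
  unfold wN
  congr 1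
  exact Fin.ext (min_eq_left h)

lemma wN_succ {n : ℕ} (w : Fin (n + 1) → ℤ × ℤ) (k : Fin n) :
    w k.succ = wN n w (k + 1) := by
  rw [wN_of_le w (by have := k.2; omega)]
  rfl

lemma wN_castSucc {n : ℕ} (w : Fin (n + 1) → ℤ × ℤ) (k : Fin n) :
    w k.castSucc = wN n w k := by
  rw [wN_of_le w (by have := k.2; omega)]
  rfl

/-- `X_n` is the linear interpolation of `w(k) / s_n` at the times `k / n`. -/
theorem X_apply {n : ℕ} (w : Fin (n + 1) → ℤ × ℤ) (t : unitInterval) (j : ℕ) (hj : j < n)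
    (h1 : (j : ℝ) ≤ n * (t : ℝ)) (h2 : (n : ℝ) * (t : ℝ) ≤ j + 1) :
    X n w t = (s n)⁻¹ • (pt (wN n w j) +
      ((n : ℝ) * (t : ℝ) - j) • (pt (wN n w (j + 1)) - pt (wN n w j))) := by
  have hX : X n w t = (s n)⁻¹ • (pt (w 0) + ∑ k : Fin n,
    (max 0 (min 1 ((n : ℝ) * (t : ℝ) - (k : ℝ)))) • (pt (w k.succ) - pt (w k.castSucc))) := rfl
  rw [hX]
  congr 1
  have e0 : w 0 = wN n w 0 := by
    rw [wN_of_le w (Nat.zero_le _)]; rfl
  have e1 : ∑ k : Fin n, (max 0 (min 1 ((n : ℝ) * (t : ℝ) - (k : ℝ)))) •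
      (pt (w k.succ) - pt (w k.castSucc)) =
      ∑ k ∈ Finset.range n, (max 0 (min 1 ((n : ℝ) * (t : ℝ) - (k : ℝ)))) •
      (pt (wN n w (k + 1)) - pt (wN n w k)) := by
    rw [Finset.sum_range]
    apply Finset.sum_congr rfl
    intro k _
    rw [wN_succ w k, wN_castSucc w k]
  rw [e1, e0, ← Finset.sum_range_add_sum_Ico _ (by omega : j ≤ n),
    Finset.sum_eq_sum_Ico_succ_bot hj]
  have e2 : ∑ k ∈ Finset.range j, (max 0 (min 1 ((n : ℝ) * (t : ℝ) - (k : ℝ)))) •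
      (pt (wN n w (k + 1)) - pt (wN n w k)) = pt (wN n w j) - pt (wN n w 0) := by
    rw [← Finset.sum_range_sub (fun k => pt (wN n w k))]
    apply Finset.sum_congr rfl
    intro k hk
    rw [Finset.mem_range] at hk
    have hk' : (k : ℝ) + 1 ≤ j := by exact_mod_cast hk
    rw [min_eq_left (by linarith), max_eq_right (by norm_num), one_smul]
  have e3 : ∑ k ∈ Finset.Ico (j + 1) n, (max 0 (min 1 ((n : ℝ) * (t : ℝ) - (k : ℝ)))) •
      (pt (wN n w (k + 1)) - pt (wN n w k)) = 0 := by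
    apply Finset.sum_eq_zero
    intro k hk
    rw [Finset.mem_Ico] at hk
    have hk' : (j : ℝ) + 1 ≤ k := by exact_mod_cast hk.1
    rw [max_eq_left, zero_smul]
    exact (min_le_right _ _).trans (by linarith)
  rw [e2, e3, max_eq_right (le_min (by norm_num) (by linarith)), min_eq_right (by linarith)]
  abel

theorem exists_index {n : ℕ} (hn : 0 < n) (t : unitInterval) :
    ∃ j : ℕ, j < n ∧ (j : ℝ) ≤ n * (t : ℝ) ∧ (n : ℝ) * (t : ℝ) ≤ j + 1 := by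
  have h0 : 0 ≤ (n : ℝ) * (t : ℝ) := mul_nonneg (Nat.cast_nonneg _) t.2.1
  have h1 : (n : ℝ) * (t : ℝ) ≤ n := by
    have := t.2.2
    have hn' : (0 : ℝ) ≤ n := Nat.cast_nonneg _
    nlinarith
  by_cases hlt : (n : ℝ) * (t : ℝ) < n
  · refine ⟨⌊(n : ℝ) * (t : ℝ)⌋₊, ?_, Nat.floor_le h0, (Nat.lt_floor_add_one _).le⟩
    exact (Nat.floor_lt h0).2 hlt
  · refine ⟨n - 1, by omega, ?_, ?_⟩
    · have : ((n - 1 : ℕ) : ℝ) = n - 1 := by
        rw [Nat.cast_sub (by omega)]; simp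
      linarith
    · have : ((n - 1 : ℕ) : ℝ) = n - 1 := by
        rw [Nat.cast_sub (by omega)]; simp
      linarith

theorem X_one {n : ℕ} (hn : 0 < n) (w : Fin (n + 1) → ℤ × ℤ) :
    X n w 1 = (s n)⁻¹ • pt (w (Fin.last n)) := by
  have h1 : ((n - 1 : ℕ) : ℝ) = n - 1 := by
    rw [Nat.cast_sub (by omega)]; simp
  rw [X_apply w 1 (n - 1) (by omega) (by simp) (by simp [h1])]
  congr 1
  have e : n - 1 + 1 = n := by omega
  rw [e, h1]
  have : ((n : ℝ) * ((1 : unitInterval) : ℝ) - ((n : ℝ) - 1)) = 1 := by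
    simp
  rw [this, one_smul, add_sub_cancel, wN_of_le w le_rfl]
  rfl

theorem X_zero {n : ℕ} (hn : 0 < n) (w : Fin (n + 1) → ℤ × ℤ) :
    X n w 0 = (s n)⁻¹ • pt (w 0) := by
  rw [X_apply w 0 0 hn (by simp) (by simp)]
  congr 1
  simp only [CharP.cast_eq_zero, Set.Icc.coe_zero, mul_zero, sub_zero, zero_smul, add_zero]
  rw [wN_of_le w (Nat.zero_le _)]
  rfl

/-- the value of `X_n` at time `k/n` -/
theorem X_div {n : ℕ} (w : Fin (n + 1) → ℤ × ℤ) (k : ℕ) (hk : k ≤ n) (t : unitInterval)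
    (ht : (n : ℝ) * (t : ℝ) = k) (hn : 0 < n) :
    X n w t = (s n)⁻¹ • pt (w ⟨k, by omega⟩) := by
  by_cases h : k < n
  · rw [X_apply w t k h ht.ge (by linarith), ht, sub_self, zero_smul, add_zero,
      wN_of_le w hk]
  · have hkn : k = n := by omega
    subst hkn
    have ht1 : t = 1 := by
      apply Subtype.ext
      have hn' : (k : ℝ) ≠ 0 := by positivity
      have : (k : ℝ) * (t : ℝ) = k * 1 := by linarith
      exact mul_left_cancel₀ hn' this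
    rw [ht1, X_one hn]
    rfl

lemma s_nonneg (n : ℕ) : 0 ≤ s n := Real.sqrt_nonneg _

/-- The supremum norm of `X_n` is attained at a lattice time. -/
theorem norm_X_le {n : ℕ} (hn : 0 < n) (w : Fin (n + 1) → ℤ × ℤ) {M : ℝ}
    (hM : ∀ k, (s n)⁻¹ * ‖pt (w k)‖ ≤ M) : ‖X n w‖ ≤ M := by
  have hM0 : 0 ≤ M := le_trans (mul_nonneg (inv_nonneg.2 (s_nonneg n)) (norm_nonneg _)) (hM 0)
  rw [ContinuousMap.norm_le _ hM0]
  intro t
  obtain ⟨j, hj, h1, h2⟩ := exists_index hn t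
  rw [X_apply w t j hj h1 h2, norm_smul, norm_inv, Real.norm_of_nonneg (s_nonneg n)]
  obtain ⟨θ, hθ⟩ : ∃ θ : ℝ, θ = (n : ℝ) * (t : ℝ) - j := ⟨_, rfl⟩
  rw [← hθ]
  have hθ0 : 0 ≤ θ := by rw [hθ]; linarith
  have hθ1 : θ ≤ 1 := by rw [hθ]; linarith
  have e : pt (wN n w j) + θ • (pt (wN n w (j + 1)) - pt (wN n w j)) =
      (1 - θ) • pt (wN n w j) + θ • pt (wN n w (j + 1)) := by
    rw [smul_sub, sub_smul, one_smul]; abel
  rw [e]
  have hb1 := hM ⟨min j n, by omega⟩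
  have hb2 := hM ⟨min (j + 1) n, by omega⟩
  have hnorm : ‖(1 - θ) • pt (wN n w j) + θ • pt (wN n w (j + 1))‖ ≤
      (1 - θ) * ‖pt (wN n w j)‖ + θ * ‖pt (wN n w (j + 1))‖ := by
    refine (norm_add_le _ _).trans ?_
    rw [norm_smul, norm_smul, Real.norm_of_nonneg (by linarith), Real.norm_of_nonneg hθ0]
  have hs : 0 ≤ (s n)⁻¹ := inv_nonneg.2 (s_nonneg n)
  calc (s n)⁻¹ * ‖(1 - θ) • pt (wN n w j) + θ • pt (wN n w (j + 1))‖
      ≤ (s n)⁻¹ * ((1 - θ) * ‖pt (wN n w j)‖ + θ * ‖pt (wN n w (j + 1))‖) :=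
        mul_le_mul_of_nonneg_left hnorm hs
    _ = (1 - θ) * ((s n)⁻¹ * ‖pt (wN n w j)‖) + θ * ((s n)⁻¹ * ‖pt (wN n w (j + 1))‖) := by ring
    _ ≤ (1 - θ) * M + θ * M := by
        apply add_le_add
        · exact mul_le_mul_of_nonneg_left hb1 (by linarith)
        · exact mul_le_mul_of_nonneg_left hb2 hθ0
    _ = M := by ring

theorem exists_norm_X {n : ℕ} (hn : 0 < n) (w : Fin (n + 1) → ℤ × ℤ) :
    ∃ k, ‖X n w‖ ≤ (s n)⁻¹ * ‖pt (w k)‖ := by
  obtain ⟨k, _, hk⟩ := Finset.exists_max_image Finset.univ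
    (fun k => (s n)⁻¹ * ‖pt (w k)‖) ⟨0, Finset.mem_univ _⟩
  exact ⟨k, norm_X_le hn w (fun k' => hk k' (Finset.mem_univ _))⟩

end Pool.Agent.SawLim
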