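import Mathlib

/-!
From tail bounds to expectations of nondecreasing functions, on a finite set.
-/

set_option autoImplicit false

open MeasureTheory

namespace Pool.Agent.SawLim

lemma layer (a M : ℝ) (h0 : 0 ≤ a) (hM : a ≤ M) :
    ∫ u in (0 : ℝ)..M, (if u < a then (1 : ℝ) else 0) = a := by
  rw [intervalIntegral.integral_of_le (h0.trans hM)]
  have e : (fun u : ℝ => if u < a then (1 : ℝ) else 0) = (Set.Iio a).indicator (fun _ => 1) := by
    funext u
    simp [Set.indicator]
  rw [e, setIntegral_indicator measurableSet_Iio]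
  have e2 : Set.Ioc 0 M ∩ Set.Iio a = Set.Ioo 0 a := by
    ext u
    simp only [Set.mem_inter_iff, Set.mem_Ioc, Set.mem_Iio, Set.mem_Ioo]
    constructor
    · rintro ⟨⟨h1, h2⟩, h3⟩; exact ⟨h1, h3⟩
    · rintro ⟨h1, h2⟩; exact ⟨⟨h1, (h2.le).trans hM⟩, h2⟩
  rw [e2]
  simp [h0]

lemma layer_integrable (a M : ℝ) :
    IntervalIntegrable (fun u : ℝ => if u < a then (1 : ℝ) else 0) volume 0 M := by
  have e : (fun u : ℝ => if u < a then (1 : ℝ) else 0) = (Set.Iio a).indicator (fun _ => 1) := by
    funext u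
    simp [Set.indicator]
  rw [e]
  have h : IntegrableOn (fun _ : ℝ => (1 : ℝ)) (Set.uIoc 0 M) volume :=
    (intervalIntegrable_iff.1 (intervalIntegrable_const))
  rw [intervalIntegrable_iff]
  exact h.indicator measurableSet_Iio

/-- Comparison of sums of a nondecreasing function from comparison of tails. -/
theorem sum_le_of_tail {α : Type*} (S : Finset α) (A B : α → ℝ) (K : ℝ)
    (h : ∀ lam : ℝ, ((S.filter (fun x => lam ≤ A x)).card : ℝ) ≤
      K * ((S.filter (fun x => lam ≤ B x)).card : ℝ))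
    (hK : 0 ≤ K) (Φ : ℝ → ℝ) (hΦ : Monotone Φ) (h0 : ∀ x, 0 ≤ Φ x) :
    ∑ x ∈ S, Φ (A x) ≤ K * ∑ x ∈ S, Φ (B x) := by
  classical
  obtain ⟨M, hMA, hMB⟩ : ∃ M : ℝ, (∀ x ∈ S, Φ (A x) ≤ M) ∧ (∀ x ∈ S, Φ (B x) ≤ M) := by
    refine ⟨∑ x ∈ S, (Φ (A x) + Φ (B x)), ?_, ?_⟩
    · intro x hx
      have := Finset.single_le_sum (f := fun x => Φ (A x) + Φ (B x))
        (fun y _ => add_nonneg (h0 _) (h0 _)) hx
      linarith [h0 (B x)]
    · intro x hx
      have := Finset.single_le_sum (f := fun x => Φ (A x) + Φ (B x))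
        (fun y _ => add_nonneg (h0 _) (h0 _)) hx
      linarith [h0 (A x)]
  by_cases hS : S.Nonempty
  swap
  · rw [Finset.not_nonempty_iff_eq_empty] at hS
    subst hS; simp
  obtain ⟨x0, hx0⟩ := hS
  have hM0 : 0 ≤ M := (h0 _).trans (hMA x0 hx0)
  -- tails of Φ
  have htail : ∀ u : ℝ, ((S.filter (fun x => u < Φ (A x))).card : ℝ) ≤
      K * ((S.filter (fun x => u < Φ (B x))).card : ℝ) := by
    intro u
    by_cases hne : (S.filter (fun x => u < Φ (A x))).Nonempty
    · obtain ⟨y, hy, hmin⟩ := Finset.exists_min_image _ A hne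
      rw [Finset.mem_filter] at hy
      have e1 : (S.filter (fun x => u < Φ (A x))).card ≤ (S.filter (fun x => A y ≤ A x)).card := by
        apply Finset.card_le_card
        intro x hx
        have := hmin x hx
        rw [Finset.mem_filter] at hx ⊢
        exact ⟨hx.1, this⟩
      have e2 : (S.filter (fun x => A y ≤ B x)).card ≤ (S.filter (fun x => u < Φ (B x))).card := by
        apply Finset.card_le_card
        intro x hx
        rw [Finset.mem_filter] at hx ⊢
        exact ⟨hx.1, lt_of_lt_of_le hy.2 (hΦ hx.2)⟩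
      have e1' : ((S.filter (fun x => u < Φ (A x))).card : ℝ) ≤
        ((S.filter (fun x => A y ≤ A x)).card : ℝ) := by exact_mod_cast e1
      have e2' : ((S.filter (fun x => A y ≤ B x)).card : ℝ) ≤
        ((S.filter (fun x => u < Φ (B x))).card : ℝ) := by exact_mod_cast e2
      exact e1'.trans ((h (A y)).trans (mul_le_mul_of_nonneg_left e2' hK))
    · rw [Finset.not_nonempty_iff_eq_empty] at hne
      rw [hne]
      simp only [Finset.card_empty, CharP.cast_eq_zero]
      positivity
  have hcount : ∀ (C : α → ℝ) (u : ℝ), ((S.filter (fun x => u < Φ (C x))).card : ℝ) =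
      ∑ x ∈ S, (if u < Φ (C x) then (1 : ℝ) else 0) := by
    intro C u
    rw [Finset.card_filter]
    push_cast
    rfl
  have hint : ∀ (C : α → ℝ), (∀ x ∈ S, Φ (C x) ≤ M) → ∑ x ∈ S, Φ (C x) =
      ∫ u in (0 : ℝ)..M, ∑ x ∈ S, (if u < Φ (C x) then (1 : ℝ) else 0) := by
    intro C hC
    rw [intervalIntegral.integral_finsetSum (fun x _ => layer_integrable _ _)]
    apply Finset.sum_congr rfl
    intro x hx
    rw [layer _ _ (h0 _) (hC x hx)]
  have hI : ∀ (C : α → ℝ), IntervalIntegrable
      (fun u => ∑ x ∈ S, (if u < Φ (C x) then (1 : ℝ) else 0)) volume 0 M := by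
    intro C
    have := IntervalIntegrable.sum (μ := volume) (a := 0) (b := M) S
      (f := fun x u => (if u < Φ (C x) then (1 : ℝ) else 0)) (fun x _ => layer_integrable _ _)
    have e : (∑ x ∈ S, fun u => (if u < Φ (C x) then (1 : ℝ) else 0)) =
        fun u => ∑ x ∈ S, (if u < Φ (C x) then (1 : ℝ) else 0) := by
      funext u; simp
    rw [e] at this
    exact this
  rw [hint A hMA, hint B hMB, ← intervalIntegral.integral_const_mul]
  apply intervalIntegral.integral_mono_on hM0
  · exact hI A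
  · exact (hI B).const_mul K
  · intro u _
    have := htail u
    rw [hcount, hcount] at this
    exact this

end Pool.Agent.SawLim
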