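import Pool.Agent.SawLim.MergeB
import Pool.Agent.SawMrg.H
import Pool.Agent.Saw39.Final

/-!
The merging theorem: the laws of `X_n` and `X_{n+2}` differ by at most `n^{-1/2+δ}`.
-/

set_option autoImplicit false

open SawNu Pool.Agent.SawKes

namespace Pool.Agent.SawLim

/-! ### Lower bound for `s_n` -/

lemma s_lower (δ : ℝ) (hδ : 0 < δ) : ∃ c : ℝ, 0 < c ∧ ∀ n : ℕ, 1 ≤ n →
    c * (n : ℝ) ^ ((1 - δ) / 2) ≤ s n := by
  classical
  obtain ⟨c, hc, h⟩ := msq_lower sqRot (fun δ hδ => core sqL δ hδ) δ hδ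
  refine ⟨Real.sqrt c, Real.sqrt_pos.2 hc, fun n hn => ?_⟩
  have h1 := h n hn
  have hlast : ∀ l ∈ WS sqL n, (path n l (Fin.last n)).2 = ht l := by
    intro l hl
    have h1 := (mem_WS.1 hl).1
    show (ps l n).2 = ht l
    rw [← h1, ps_length]
  have h2 : ∑ l ∈ WS sqL n, (ht l : ℝ) ^ 2 ≤ ∑ w ∈ saws n, ‖pt (w (Fin.last n))‖ ^ 2 := by
    rw [saws, Finset.sum_image (path_injOn n)]
    apply Finset.sum_le_sum
    intro l hl
    rw [norm_pt_sq, hlast l hl]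
    nlinarith [sq_nonneg (((path n l (Fin.last n)).1 : ℤ) : ℝ)]
  have h3 : ((WS sqL n).card : ℝ) = ((saws n).card : ℝ) := by
    rw [Pool.Agent.SawMrg.card_saws]; rfl
  have hcp := card_saws_pos n
  have h4 : c * (n : ℝ) ^ (1 - δ) ≤ s n ^ 2 := by
    rw [s_sq hn, avg_eq, le_div_iff₀ hcp, ← h3]
    calc c * (n : ℝ) ^ (1 - δ) * ((WS sqL n).card : ℝ)
        = c * ((n : ℝ) ^ (1 - δ) * (WS sqL n).card) := by ring
      _ ≤ _ := h1.trans h2
  have hn0 : (0 : ℝ) ≤ n := Nat.cast_nonneg _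
  have h5 : Real.sqrt (c * (n : ℝ) ^ (1 - δ)) ≤ s n := by
    rw [← Real.sqrt_sq (s_nonneg n)]
    exact Real.sqrt_le_sqrt h4
  rw [Real.sqrt_mul hc.le] at h5
  have h6 : Real.sqrt ((n : ℝ) ^ (1 - δ)) = (n : ℝ) ^ ((1 - δ) / 2) := by
    rw [Real.sqrt_eq_rpow, ← Real.rpow_mul hn0]
    congr 1; ring
  rwa [h6] at h5

/-! ### Balanced -/

lemma balanced_large : ∃ a : ℝ, 0 < a ∧ a ≤ 1 ∧ ∀ δ : ℝ, 0 < δ → δ < 1 / 2 →
    ∃ n₀ : ℕ, ∀ n : ℕ, n₀ ≤ n → Balanced n (mu ^ 2) a ((n : ℝ) ^ (δ - 1 / 2)) := by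
  classical
  obtain ⟨a, ha, ha1, h⟩ := Pool.Agent.SawMrg.Hmain
  refine ⟨a, ha, ha1, fun δ hδ hδ' => ?_⟩
  obtain ⟨n₁, h₁⟩ := h δ hδ hδ' 5
  refine ⟨max n₁ (max (cc 2) 2), fun n hn => ?_⟩
  have hn1 : n₁ ≤ n := (le_max_left _ _).trans hn
  have hn2 : cc 2 ≤ n := ((le_max_left _ _).trans (le_max_right _ _)).trans hn
  have hn3 : 2 ≤ n := ((le_max_right _ _).trans (le_max_right _ _)).trans hn
  have hnr : (1 : ℝ) ≤ n := by exact_mod_cast (by omega : 1 ≤ n)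
  have hn0 : (0 : ℝ) < n := by linarith
  constructor
  · have h2 := h₁ n hn1
    have e : (saws n).filter (fun w => ¬ (|((Ins n w).card : ℝ) - mu ^ 2 * (Del n w).card| ≤
        (n : ℝ) ^ (δ - 1 / 2) * (Ins n w).card ∧ a * n ≤ (Ins n w).card)) =
        (saws n).filter (fun w => ¬ (a * n ≤ ((Ins n w).card : ℝ) ∧
        |((Ins n w).card : ℝ) - mu ^ 2 * ((Del n w).card : ℝ)| ≤
        (n : ℝ) ^ (δ - 1 / 2) * ((Ins n w).card : ℝ))) := by
      apply Finset.filter_congr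
      intro w _
      rw [and_comm]
    rw [e]
    refine le_trans ?_ h2
    apply mul_le_mul_of_nonneg_right _ (Nat.cast_nonneg _)
    exact pow_le_pow_right₀ hnr (by norm_num)
  · have h2 := h₁ (n + 2) (by omega)
    set Z := (saws (n + 2)).filter fun v => (Del (n + 2) v).card = 0 with hZ
    have hsub : Z ⊆ (saws (n + 2)).filter (fun w => ¬ (a * ((n + 2 : ℕ) : ℝ) ≤
        ((Ins (n + 2) w).card : ℝ) ∧
        |((Ins (n + 2) w).card : ℝ) - mu ^ 2 * ((Del (n + 2) w).card : ℝ)| ≤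
        ((n + 2 : ℕ) : ℝ) ^ (δ - 1 / 2) * ((Ins (n + 2) w).card : ℝ))) := by
      intro v hv
      rw [hZ, Finset.mem_filter] at hv
      rw [Finset.mem_filter]
      refine ⟨hv.1, ?_⟩
      rintro ⟨g1, g2⟩
      rw [hv.2] at g2
      have hI : 0 < ((Ins (n + 2) v).card : ℝ) := by
        refine lt_of_lt_of_le ?_ g1
        positivity
      rw [Nat.cast_zero, mul_zero, sub_zero, abs_of_pos hI] at g2
      have h3 : ((n + 2 : ℕ) : ℝ) ^ (δ - 1 / 2) < 1 := by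
        apply Real.rpow_lt_one_of_one_lt_of_neg _ (by linarith)
        push_cast
        linarith
      nlinarith
    have h3 : ((n + 2 : ℕ) : ℝ) ^ 5 * (Z.card : ℝ) ≤ ((saws (n + 2)).card : ℝ) := by
      refine le_trans ?_ h2
      apply mul_le_mul_of_nonneg_left _ (by positivity)
      exact_mod_cast Finset.card_le_card hsub
    have h4 : ((saws (n + 2)).card : ℝ) ≤ n * ((saws n).card : ℝ) := by
      rw [Pool.Agent.SawMrg.card_saws, Pool.Agent.SawMrg.card_saws]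
      have := cc_mul n 2
      have h5 : cc n * cc 2 ≤ cc n * n := Nat.mul_le_mul_left _ hn2
      have h6 : cc (n + 2) ≤ n * cc n := by rw [mul_comm n]; exact this.trans h5
      exact_mod_cast h6
    have h5 : (n : ℝ) ^ 5 * (Z.card : ℝ) ≤ ((n + 2 : ℕ) : ℝ) ^ 5 * (Z.card : ℝ) := by
      apply mul_le_mul_of_nonneg_right _ (Nat.cast_nonneg _)
      apply pow_le_pow_left₀ hn0.le
      push_cast; linarith
    have h6 : (n : ℝ) * ((n : ℝ) ^ 4 * (Z.card : ℝ)) ≤ n * ((saws n).card : ℝ) := by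
      calc (n : ℝ) * ((n : ℝ) ^ 4 * (Z.card : ℝ)) = (n : ℝ) ^ 5 * (Z.card : ℝ) := by ring
        _ ≤ _ := h5.trans (h3.trans h4)
    exact le_of_mul_le_mul_left h6 hn0

/-! ### From large `n` to all `n` -/

lemma extend_rpow {ι : Type*} (G : ι → ℕ → ℝ) (B : ℕ → ℝ) (x C₀ : ℝ) (N : ℕ)
    (h : ∀ i, ∀ n : ℕ, N ≤ n → 1 ≤ n → G i n ≤ C₀ * (n : ℝ) ^ x)
    (hB : ∀ i, ∀ n : ℕ, 1 ≤ n → G i n ≤ B n) :
    ∃ C : ℝ, 0 ≤ C ∧ ∀ i, ∀ n : ℕ, 1 ≤ n → G i n ≤ C * (n : ℝ) ^ x := by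
  refine ⟨max C₀ 0 + ∑ n ∈ Finset.range N, |B n| * (n : ℝ) ^ (-x), ?_, fun i n hn => ?_⟩
  · have : 0 ≤ ∑ n ∈ Finset.range N, |B n| * (n : ℝ) ^ (-x) :=
      Finset.sum_nonneg fun _ _ => by positivity
    have := le_max_right C₀ 0
    linarith
  · have hn0 : (0 : ℝ) < n := by exact_mod_cast hn
    have hp : 0 < (n : ℝ) ^ x := Real.rpow_pos_of_pos hn0 x
    have hs : 0 ≤ ∑ n ∈ Finset.range N, |B n| * (n : ℝ) ^ (-x) :=
      Finset.sum_nonneg fun _ _ => by positivity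
    have hm := le_max_right C₀ 0
    have hm' := le_max_left C₀ 0
    rcases le_or_gt N n with hN | hN
    · refine (h i n hN hn).trans (mul_le_mul_of_nonneg_right ?_ hp.le)
      linarith
    · have h1 : |B n| * (n : ℝ) ^ (-x) ≤ ∑ n ∈ Finset.range N, |B n| * (n : ℝ) ^ (-x) :=
        Finset.single_le_sum (f := fun n : ℕ => |B n| * (n : ℝ) ^ (-x))
          (fun _ _ => by positivity) (Finset.mem_range.2 hN)
      calc G i n ≤ B n := hB i n hn
        _ ≤ |B n| := le_abs_self _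
        _ = |B n| * (n : ℝ) ^ (-x) * (n : ℝ) ^ x := by
            rw [mul_assoc, ← Real.rpow_add hn0]; simp
        _ ≤ _ := mul_le_mul_of_nonneg_right (by linarith) hp.le

/-! ### The comparison for large `n` -/

/-- number of `n`-step self-avoiding walks -/
noncomputable def cN (n : ℕ) : ℝ := (Nat.card {w : Fin (n + 1) → ℤ × ℤ // IsSAW n w} : ℝ)

lemma cN_eq (n : ℕ) : cN n = ((saws n).card : ℝ) := by
  classical
  let _ : Fintype {w : Fin (n + 1) → ℤ × ℤ // IsSAW n w} :=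
    Fintype.subtype (saws n) (fun w => mem_saws)
  unfold cN
  rw [Nat.card_eq_fintype_card]
  congr 1
  exact Fintype.subtype_card (saws n) (fun w => mem_saws)

lemma cN_pos (n : ℕ) : 0 < cN n := by rw [cN_eq]; exact card_saws_pos n

/-- difference of the expectations of `F` -/
noncomputable def dF (F : C(unitInterval, EuclideanSpace ℝ (Fin 2)) → ℝ) (n : ℕ) : ℝ :=
  |avg (n + 2) (fun v => F (X (n + 2) v)) - avg n (fun w => F (X n w))|

lemma avg_norm_le (δ : ℝ) (hδ : 0 < δ) : ∃ K : ℝ, 1 ≤ K ∧ ∀ n : ℕ, 1 ≤ n →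
    avg n (fun w => ‖X n w‖) ≤ K * (n : ℝ) ^ δ := by
  obtain ⟨K, hK, h⟩ := max_X_sq δ hδ
  refine ⟨1 + K, by linarith, fun n hn => ?_⟩
  have h1 := (h n hn).2
  have hn1 : (1 : ℝ) ≤ n := by exact_mod_cast hn
  have hp : 1 ≤ (n : ℝ) ^ δ := Real.one_le_rpow hn1 hδ.le
  have h2 : avg n (fun w => ‖X n w‖) ≤ avg n (fun w => 1 + 1 * ‖X n w‖ ^ 2) := by
    apply avg_mono
    intro w _
    nlinarith [sq_nonneg (‖X n w‖ - 1), norm_nonneg (X n w)]
  rw [avg_add_const] at h2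
  linarith

theorem large (δ : ℝ) (hδ : 0 < δ) (hδ' : δ < 1 / 2) : ∃ C₀ : ℝ, ∃ N : ℕ, ∀ n : ℕ, N ≤ n → 1 ≤ n →
    |cN (n + 2) / cN n - mu ^ 2| ≤ C₀ * (n : ℝ) ^ (δ - 1 / 2) ∧
    |s (n + 2) / s n - 1| ≤ C₀ * (n : ℝ) ^ (δ - 1 / 2) ∧
    ∀ F : C(unitInterval, EuclideanSpace ℝ (Fin 2)) → ℝ, LipschitzWith 1 F →
      dF F n ≤ C₀ * (n : ℝ) ^ (δ - 1 / 2) := by
  obtain ⟨a, ha, _, hbal⟩ := balanced_large
  obtain ⟨N₁, h₁⟩ := hbal (δ / 2) (by positivity) (by linarith)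
  obtain ⟨c, hc, hs⟩ := s_lower (δ / 2) (by positivity)
  obtain ⟨K', hK', hX⟩ := avg_norm_le (δ / 2) (by positivity)
  have hm : 1 ≤ mu ^ 2 := one_le_pow₀ one_le_mu
  obtain ⟨K, hKdef⟩ : ∃ K, K = KC (mu ^ 2) a := ⟨_, rfl⟩
  have h8 : 8 ≤ K := by rw [hKdef]; exact eight_le_KC hm ha
  obtain ⟨N₂, h₂⟩ : ∃ N : ℕ, ∀ n : ℕ, N ≤ n → (n : ℝ) ^ (δ / 2 - 1 / 2) ≤ 1 / (80 * K) := by
    have h : Filter.Tendsto (fun n : ℕ => (n : ℝ) ^ (-(1 / 2 - δ / 2))) Filter.atTop (nhds 0) :=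
      (tendsto_rpow_neg_atTop (by linarith : 0 < 1 / 2 - δ / 2)).comp tendsto_natCast_atTop_atTop
    have h3 := h.eventually (ge_mem_nhds (show (0 : ℝ) < 1 / (80 * K) by positivity))
    obtain ⟨N, hN⟩ := Filter.eventually_atTop.1 h3
    refine ⟨N, fun n hn => ?_⟩
    have := hN n hn
    rwa [neg_sub] at this
  obtain ⟨N₃, h₃⟩ : ∃ N : ℕ, ∀ n : ℕ, N ≤ n → 8 * mu ^ 2 ≤ a * n := by
    obtain ⟨N, hN⟩ := exists_nat_ge (8 * mu ^ 2 / a)
    refine ⟨N, fun n hn => ?_⟩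
    have : (N : ℝ) ≤ n := by exact_mod_cast hn
    have h3 : 8 * mu ^ 2 / a ≤ n := hN.trans this
    rw [div_le_iff₀ ha] at h3
    linarith
  refine ⟨40 * K + 4 * K * (10 / c + 81 * K * K' + 3), max N₁ (max N₂ N₃), fun n hn hn1 => ?_⟩
  have k1 := h₁ n ((le_max_left _ _).trans hn)
  have k2 := h₂ n (((le_max_left _ _).trans (le_max_right _ _)).trans hn)
  have k3 := h₃ n (((le_max_right _ _).trans (le_max_right _ _)).trans hn)
  have hnr : (1 : ℝ) ≤ n := by exact_mod_cast hn1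
  have hn0 : (0 : ℝ) < n := by linarith
  have hen : 1 / (n : ℝ) ≤ (n : ℝ) ^ (δ / 2 - 1 / 2) := by
    rw [one_div, ← Real.rpow_neg_one]
    exact Real.rpow_le_rpow_of_exponent_le hnr (by linarith)
  have hE0 : 0 < (n : ℝ) ^ (δ / 2 - 1 / 2) := Real.rpow_pos_of_pos hn0 _
  have hE : (n : ℝ) ^ (δ / 2 - 1 / 2) ≤ (n : ℝ) ^ (δ - 1 / 2) :=
    Real.rpow_le_rpow_of_exponent_le hnr (by linarith)
  set e : ℝ := (n : ℝ) ^ (δ / 2 - 1 / 2) with he
  set E : ℝ := (n : ℝ) ^ (δ - 1 / 2) with hEdef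
  have hE0' : 0 < E := lt_of_lt_of_le hE0 hE
  have hK80 : 80 * (K * e) ≤ 1 := by
    rw [le_div_iff₀ (by positivity)] at k2
    linarith
  have hKe : K * e ≤ 1 / 2 := by linarith
  have he4 : e ≤ 1 / 4 := by nlinarith
  have hC1 : 0 ≤ 4 * K * (10 / c + 81 * K * K' + 3) := by positivity
  refine ⟨?_, ?_, ?_⟩
  · have h := card_bal hm ha hn1 k3 hen he4 k1
    rw [← hKdef, ← cN_eq, ← cN_eq] at h
    have hcp := cN_pos n
    have e1 : cN (n + 2) / cN n - mu ^ 2 = (cN (n + 2) - mu ^ 2 * cN n) / cN n := by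
      field_simp
    rw [e1, abs_div, abs_of_pos hcp, div_le_iff₀ hcp]
    refine h.trans ?_
    apply mul_le_mul_of_nonneg_right _ hcp.le
    have : K * e ≤ K * E := mul_le_mul_of_nonneg_left hE (by linarith)
    nlinarith [mul_nonneg hC1 hE0'.le, mul_pos (show 0 < K by linarith) hE0']
  · have h := s_bal hm ha hn1 k3 hen (by rw [← hKdef]; exact hKe) k1
    rw [← hKdef] at h
    have hsp := s_pos hn1
    have e1 : s (n + 2) / s n - 1 = (s (n + 2) - s n) / s n := by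
      field_simp
    rw [e1, abs_div, abs_of_pos hsp, div_le_iff₀ hsp]
    refine h.trans ?_
    apply mul_le_mul_of_nonneg_right _ hsp.le
    have : K * e ≤ K * E := mul_le_mul_of_nonneg_left hE (by linarith)
    nlinarith [mul_nonneg hC1 hE0'.le]
  · intro F hF
    have h := merge_bal hm ha hn1 k3 hen (by rw [← hKdef]; exact hK80) k1 F hF
    rw [← hKdef] at h
    have hsp := s_pos hn1
    have i1 : 10 / s n ≤ 10 / c * E := by
      have j1 := hs n hn1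
      have j2 : (n : ℝ) ^ ((1 - δ / 2) / 2) * E ≥ 1 := by
        rw [hEdef, ← Real.rpow_add hn0]
        exact Real.one_le_rpow hnr (by linarith)
      rw [div_mul_eq_mul_div, div_le_div_iff₀ hsp hc]
      have j3 : c * ((n : ℝ) ^ ((1 - δ / 2) / 2) * E) ≤ s n * E := by
        rw [← mul_assoc]
        exact mul_le_mul_of_nonneg_right j1 hE0'.le
      nlinarith
    have i2 : e * avg n (fun w => ‖X n w‖) ≤ K' * E := by
      have j1 := hX n hn1
      calc e * avg n (fun w => ‖X n w‖) ≤ e * (K' * (n : ℝ) ^ (δ / 2)) :=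
            mul_le_mul_of_nonneg_left j1 hE0.le
        _ = K' * (e * (n : ℝ) ^ (δ / 2)) := by ring
        _ = K' * E := by
            rw [he, ← Real.rpow_add hn0, hEdef]
            congr 2; ring
    have i3 : 81 * K * e * avg n (fun w => ‖X n w‖) ≤ 81 * K * K' * E := by
      have : 81 * K * e * avg n (fun w => ‖X n w‖) =
        81 * K * (e * avg n (fun w => ‖X n w‖)) := by ring
      rw [this]
      have := mul_le_mul_of_nonneg_left i2 (show 0 ≤ 81 * K by linarith)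
      linarith
    unfold dF
    refine h.trans ?_
    calc 4 * K * (10 / s n + 81 * K * e * avg n (fun w => ‖X n w‖) + 3 * e)
        ≤ 4 * K * (10 / c * E + 81 * K * K' * E + 3 * E) := by
          apply mul_le_mul_of_nonneg_left _ (by linarith)
          linarith
      _ = 4 * K * (10 / c + 81 * K * K' + 3) * E := by ring
      _ ≤ _ := by
          apply mul_le_mul_of_nonneg_right _ hE0'.le
          linarith

lemma dF_trivial (F : C(unitInterval, EuclideanSpace ℝ (Fin 2)) → ℝ) (hF : LipschitzWith 1 F)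
    (n : ℕ) (hn : 1 ≤ n) : dF F n ≤ 2 * n + 2 := by
  have hLip : ∀ x y, |F x - F y| ≤ ‖x - y‖ := by
    intro x y
    have := hF.dist_le_mul x y
    rwa [Real.dist_eq, dist_eq_norm, NNReal.coe_one, one_mul] at this
  have key : ∀ m : ℕ, 1 ≤ m → |avg m (fun w => F (X m w)) - F 0| ≤ m := by
    intro m hm
    have h1 := avg_sub_const (n := m) (fun w => F (X m w)) (F 0)
    rw [← h1]
    have h2 : |avg m (fun w => F (X m w) - F 0)| ≤ avg m (fun w => (m : ℝ) + 0 * 0) := by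
      apply abs_avg_le
      intro w hw
      refine (hLip _ _).trans ?_
      rw [sub_zero, mul_zero, add_zero]
      exact norm_X_le_n hm (mem_saws.1 hw)
    rw [avg_add_const] at h2
    simpa using h2
  have h1 := key n hn
  have h2 := key (n + 2) (by omega)
  unfold dF
  push_cast at h2
  have e : avg (n + 2) (fun v => F (X (n + 2) v)) - avg n (fun w => F (X n w)) =
      (avg (n + 2) (fun v => F (X (n + 2) v)) - F 0) - (avg n (fun w => F (X n w)) - F 0) := by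
    ring
  rw [e]
  refine (abs_sub _ _).trans ?_
  linarith

/-- **Merging theorem**, `δ < 1/2`. -/
theorem merging_aux (δ : ℝ) (hδ : 0 < δ) (hδ' : δ < 1 / 2) : ∃ C : ℝ, 0 ≤ C ∧ ∀ n : ℕ, 1 ≤ n →
    |cN (n + 2) / cN n - mu ^ 2| ≤ C * (n : ℝ) ^ (δ - 1 / 2) ∧
    |s (n + 2) / s n - 1| ≤ C * (n : ℝ) ^ (δ - 1 / 2) ∧
    ∀ F : C(unitInterval, EuclideanSpace ℝ (Fin 2)) → ℝ, LipschitzWith 1 F →
      dF F n ≤ C * (n : ℝ) ^ (δ - 1 / 2) := by
  obtain ⟨C₀, N, h⟩ := large δ hδ hδ'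
  obtain ⟨C1, p1, h1⟩ := extend_rpow (ι := Unit) (fun _ n => |cN (n + 2) / cN n - mu ^ 2|)
    (fun n => |cN (n + 2) / cN n - mu ^ 2|) (δ - 1 / 2) C₀ N
    (fun _ n hn hn1 => (h n hn hn1).1) (fun _ n _ => le_rfl)
  obtain ⟨C2, p2, h2⟩ := extend_rpow (ι := Unit) (fun _ n => |s (n + 2) / s n - 1|)
    (fun n => |s (n + 2) / s n - 1|) (δ - 1 / 2) C₀ N
    (fun _ n hn hn1 => (h n hn hn1).2.1) (fun _ n _ => le_rfl)
  obtain ⟨C3, p3, h3⟩ := extend_rpow
    (ι := {F : C(unitInterval, EuclideanSpace ℝ (Fin 2)) → ℝ // LipschitzWith 1 F})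
    (fun F n => dF F.1 n) (fun n => 2 * n + 2) (δ - 1 / 2) C₀ N
    (fun F n hn hn1 => (h n hn hn1).2.2 F.1 F.2) (fun F n hn => dF_trivial F.1 F.2 n hn)
  refine ⟨C1 + C2 + C3, by linarith, fun n hn => ?_⟩
  have hn0 : (0 : ℝ) < n := by exact_mod_cast hn
  have hE : 0 < (n : ℝ) ^ (δ - 1 / 2) := Real.rpow_pos_of_pos hn0 _
  refine ⟨?_, ?_, fun F hF => ?_⟩
  · have := h1 () n hn
    nlinarith [mul_nonneg p2 hE.le, mul_nonneg p3 hE.le]
  · have := h2 () n hn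
    nlinarith [mul_nonneg p1 hE.le, mul_nonneg p3 hE.le]
  · have := h3 ⟨F, hF⟩ n hn
    simp only at this
    nlinarith [mul_nonneg p1 hE.le, mul_nonneg p2 hE.le]

/-- telescoped version -/
theorem merging_tele (δ : ℝ) (hδ : 0 < δ) (hδ' : δ < 1 / 2) : ∃ C : ℝ, 0 ≤ C ∧
    ∀ F : C(unitInterval, EuclideanSpace ℝ (Fin 2)) → ℝ, LipschitzWith 1 F →
      ∀ n : ℕ, 1 ≤ n → ∀ k : ℕ,
      |avg (n + 2 * k) (fun v => F (X (n + 2 * k) v)) - avg n (fun w => F (X n w))| ≤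
        C * k * (n : ℝ) ^ (δ - 1 / 2) := by
  obtain ⟨C, hC, h⟩ := merging_aux δ hδ hδ'
  refine ⟨C, hC, fun F hF n hn k => ?_⟩
  induction k with
  | zero => simp
  | succ k ih =>
    have h1 := (h (n + 2 * k) (by omega)).2.2 F hF
    unfold dF at h1
    have hn0 : (0 : ℝ) < n := by exact_mod_cast hn
    have h2 : ((n + 2 * k : ℕ) : ℝ) ^ (δ - 1 / 2) ≤ (n : ℝ) ^ (δ - 1 / 2) := by
      apply Real.rpow_le_rpow_of_nonpos hn0 _ (by linarith)
      push_cast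
      have : (0 : ℝ) ≤ k := Nat.cast_nonneg _
      linarith
    have h3 : C * ((n + 2 * k : ℕ) : ℝ) ^ (δ - 1 / 2) ≤ C * (n : ℝ) ^ (δ - 1 / 2) :=
      mul_le_mul_of_nonneg_left h2 hC
    have e1 : n + 2 * (k + 1) = n + 2 * k + 2 := by ring
    have e2 : avg (n + 2 * (k + 1)) (fun v => F (X (n + 2 * (k + 1)) v)) =
        avg (n + 2 * k + 2) (fun v => F (X (n + 2 * k + 2) v)) := by rw [e1]
    rw [e2]
    calc |avg (n + 2 * k + 2) (fun v => F (X (n + 2 * k + 2) v)) - avg n (fun w => F (X n w))|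
        = |(avg (n + 2 * k + 2) (fun v => F (X (n + 2 * k + 2) v)) -
            avg (n + 2 * k) (fun v => F (X (n + 2 * k) v))) +
          (avg (n + 2 * k) (fun v => F (X (n + 2 * k) v)) - avg n (fun w => F (X n w)))| := by
          congr 1; ring
      _ ≤ C * (n : ℝ) ^ (δ - 1 / 2) + C * k * (n : ℝ) ^ (δ - 1 / 2) :=
          (abs_add_le _ _).trans (add_le_add (h1.trans h3) ih)
      _ = C * ((k + 1 : ℕ) : ℝ) * (n : ℝ) ^ (δ - 1 / 2) := by push_cast; ring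

end Pool.Agent.SawLim
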