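import Pool.Agent.SawLim.Transfer

/-!
Averages version of the transfer lemma and the comparison of `X_{n+2}` with `X_n`.
-/

set_option autoImplicit false

namespace Pool.Agent.SawLim

/-- the constant of the comparison -/
noncomputable def KC (m2 a : ℝ) : ℝ := 3 * m2 + 18 * m2 ^ 2 / a + 5

lemma eight_le_KC {m2 a : ℝ} (hm : 1 ≤ m2) (ha : 0 < a) : 8 ≤ KC m2 a := by
  unfold KC
  have : 0 ≤ 18 * m2 ^ 2 / a := by positivity
  linarith

open scoped Classical in
/-- all but a fraction `n^{-4}` of the `n`-step walks have at least `a n` possible insertions `I`,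
and `I = μ² J (1 + O(e))`; few `(n+2)`-step walks have no possible deletion -/
def Balanced (n : ℕ) (m2 a e : ℝ) : Prop :=
  (n : ℝ) ^ 4 * (((saws n).filter fun w =>
    ¬ (|((Ins n w).card : ℝ) - m2 * (Del n w).card| ≤ e * (Ins n w).card ∧
      a * n ≤ (Ins n w).card)).card : ℝ) ≤ (saws n).card ∧
  (n : ℝ) ^ 4 * (((saws (n + 2)).filter fun v => (Del (n + 2) v).card = 0).card : ℝ) ≤
    (saws n).card

section

variable {n : ℕ} {m2 a e : ℝ}

/-- `transfer` under `Balanced` -/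
lemma transfer_bal (hm : 1 ≤ m2) (ha : 0 < a) (hn : 1 ≤ n) (hna : 8 * m2 ≤ a * n)
    (hen : 1 / (n : ℝ) ≤ e) (he : e ≤ 1 / 4) (hB : Balanced n m2 a e) (M : ℝ)
    (f : (Fin (n + 2 + 1) → ℤ × ℤ) → ℝ) (g η : (Fin (n + 1) → ℤ × ℤ) → ℝ)
    (hf : ∀ v ∈ saws (n + 2), |f v| ≤ M) (hg : ∀ w ∈ saws n, |g w| ≤ M)
    (hη : ∀ w ∈ saws n, 0 ≤ η w)
    (hfg : ∀ w ∈ saws n, ∀ p ∈ Ins n w, |f (ins n w p.1 p.2) - g w| ≤ η w) :
    |∑ v ∈ saws (n + 2), f v - m2 * ∑ w ∈ saws n, g w| ≤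
      3 * m2 * ∑ w ∈ saws n, η w + (KC m2 a - (5 + m2)) * e * ∑ w ∈ saws n, |g w| +
      (5 + m2) * M / (n : ℝ) ^ 3 * (saws n).card := by
  classical
  have hn0 : (0 : ℝ) < n := by exact_mod_cast hn
  have hn1 : (1 : ℝ) ≤ n := by exact_mod_cast hn
  have he0 : 0 ≤ e := le_trans (by positivity) hen
  have hM : 0 ≤ M := by
    obtain ⟨w, hw⟩ := saws_nonempty n
    exact (abs_nonneg _).trans (hg w hw)
  have h := transfer n m2 a e M hm ha he hn hna f g η
    (fun w => |((Ins n w).card : ℝ) - m2 * (Del n w).card| ≤ e * (Ins n w).card ∧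
      a * n ≤ (Ins n w).card) hf hg hη hfg (fun w _ h => h) he0
  refine h.trans ?_
  obtain ⟨b1, b2⟩ := hB
  set B : ℝ := (((saws n).filter fun w =>
    ¬ (|((Ins n w).card : ℝ) - m2 * (Del n w).card| ≤ e * (Ins n w).card ∧
      a * n ≤ (Ins n w).card)).card : ℝ) with hBdef
  set Z : ℝ := (((saws (n + 2)).filter fun v => (Del (n + 2) v).card = 0).card : ℝ) with hZ
  set c : ℝ := ((saws n).card : ℝ) with hc
  have hS : 0 ≤ ∑ w ∈ saws n, |g w| := Finset.sum_nonneg fun _ _ => abs_nonneg _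
  have k1 : (2 * m2 * e + 18 * m2 ^ 2 / (a * n)) ≤ (KC m2 a - (5 + m2)) * e := by
    unfold KC
    have : 18 * m2 ^ 2 / (a * n) = 18 * m2 ^ 2 / a * (1 / n) := by
      field_simp
    rw [this]
    have h2 : 18 * m2 ^ 2 / a * (1 / n) ≤ 18 * m2 ^ 2 / a * e :=
      mul_le_mul_of_nonneg_left hen (by positivity)
    linarith
  have k2 : (4 * n + m2) * M * B + M * Z ≤ (5 + m2) * M / (n : ℝ) ^ 3 * c := by
    have hn4 : (0 : ℝ) < (n : ℝ) ^ 4 := by positivity
    have hB' : B ≤ c / (n : ℝ) ^ 4 := by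
      rw [le_div_iff₀ hn4]; linarith
    have hZ' : Z ≤ c / (n : ℝ) ^ 4 := by
      rw [le_div_iff₀ hn4]; linarith
    have hc0 : 0 ≤ c := Nat.cast_nonneg _
    have hm0 : 0 ≤ m2 := by linarith
    have i1 : (4 * n + m2) * M * B ≤ (4 * n + m2) * M * (c / (n : ℝ) ^ 4) :=
      mul_le_mul_of_nonneg_left hB' (by positivity)
    have i2 : M * Z ≤ M * (c / (n : ℝ) ^ 4) := mul_le_mul_of_nonneg_left hZ' hM
    have i3 : (4 * n + m2) * M * (c / (n : ℝ) ^ 4) + M * (c / (n : ℝ) ^ 4) =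
        (4 * n + m2 + 1) * (M * (c / (n : ℝ) ^ 4)) := by ring
    have i4 : (4 * n + m2 + 1) * (M * (c / (n : ℝ) ^ 4)) ≤
        ((5 + m2) * n) * (M * (c / (n : ℝ) ^ 4)) := by
      apply mul_le_mul_of_nonneg_right _ (by positivity)
      nlinarith
    have i5 : ((5 + m2) * n) * (M * (c / (n : ℝ) ^ 4)) = (5 + m2) * M / (n : ℝ) ^ 3 * c := by
      field_simp
    linarith
  have k3 : (2 * m2 * e + 18 * m2 ^ 2 / (a * n)) * ∑ w ∈ saws n, |g w| ≤
      (KC m2 a - (5 + m2)) * e * ∑ w ∈ saws n, |g w| := mul_le_mul_of_nonneg_right k1 hS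
  linarith

lemma card_bal (hm : 1 ≤ m2) (ha : 0 < a) (hn : 1 ≤ n) (hna : 8 * m2 ≤ a * n)
    (hen : 1 / (n : ℝ) ≤ e) (he : e ≤ 1 / 4) (hB : Balanced n m2 a e) :
    |((saws (n + 2)).card : ℝ) - m2 * (saws n).card| ≤ KC m2 a * e * (saws n).card := by
  have h := transfer_bal hm ha hn hna hen he hB 1 (fun _ => 1) (fun _ => 1) (fun _ => 0)
    (by simp) (by simp) (by simp) (by simp)
  simp only [Finset.sum_const, nsmul_eq_mul, mul_one, mul_zero, zero_add, abs_one] at h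
  refine h.trans ?_
  have hn0 : (0 : ℝ) < n := by exact_mod_cast hn
  have hn1 : (1 : ℝ) ≤ n := by exact_mod_cast hn
  have k : (5 + m2) / (n : ℝ) ^ 3 ≤ (5 + m2) * e := by
    rw [div_eq_mul_one_div]
    apply mul_le_mul_of_nonneg_left _ (by linarith)
    refine le_trans ?_ hen
    apply one_div_le_one_div_of_le hn0
    nlinarith [sq_nonneg ((n : ℝ) - 1), mul_nonneg (by linarith : (0 : ℝ) ≤ n) (sq_nonneg ((n : ℝ)))]
  have := mul_le_mul_of_nonneg_right k (Nat.cast_nonneg (saws n).card)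
  linarith

lemma half_card (hm : 1 ≤ m2) (ha : 0 < a) (hn : 1 ≤ n) (hna : 8 * m2 ≤ a * n)
    (hen : 1 / (n : ℝ) ≤ e) (he : KC m2 a * e ≤ 1 / 2) (hB : Balanced n m2 a e) :
    ((saws n).card : ℝ) / 2 ≤ (saws (n + 2)).card := by
  have h8 := eight_le_KC hm ha
  have he0 : 0 ≤ e := le_trans (by positivity) hen
  have h := card_bal hm ha hn hna hen (by nlinarith) hB
  have h1 := (abs_le.1 h).1
  have hc := card_saws_pos n
  nlinarith

/-- **transfer for averages** -/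
theorem transfer_avg (hm : 1 ≤ m2) (ha : 0 < a) (hn : 1 ≤ n) (hna : 8 * m2 ≤ a * n)
    (hen : 1 / (n : ℝ) ≤ e) (he : KC m2 a * e ≤ 1 / 2) (hB : Balanced n m2 a e) (M : ℝ)
    (f : (Fin (n + 2 + 1) → ℤ × ℤ) → ℝ) (g η : (Fin (n + 1) → ℤ × ℤ) → ℝ)
    (hf : ∀ v ∈ saws (n + 2), |f v| ≤ M) (hg : ∀ w ∈ saws n, |g w| ≤ M)
    (hη : ∀ w ∈ saws n, 0 ≤ η w)
    (hfg : ∀ w ∈ saws n, ∀ p ∈ Ins n w, |f (ins n w p.1 p.2) - g w| ≤ η w) :
    |avg (n + 2) f - avg n g| ≤ 4 * KC m2 a * (avg n η + e * avg n (fun w => |g w|) +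
      M / (n : ℝ) ^ 3) := by
  have h8 := eight_le_KC hm ha
  have he0 : 0 ≤ e := le_trans (by positivity) hen
  have he4 : e ≤ 1 / 4 := by nlinarith
  have hM : 0 ≤ M := by
    obtain ⟨w, hw⟩ := saws_nonempty n
    exact (abs_nonneg _).trans (hg w hw)
  have h1 := transfer_bal hm ha hn hna hen he4 hB M f g η hf hg hη hfg
  have h2 := card_bal hm ha hn hna hen he4 hB
  have h3 := half_card hm ha hn hna hen he hB
  have hc := card_saws_pos n
  have hc' := card_saws_pos (n + 2)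
  rw [avg_eq, avg_eq, avg_eq, avg_eq]
  set c : ℝ := ((saws n).card : ℝ) with hcdef
  set c' : ℝ := ((saws (n + 2)).card : ℝ) with hcdef'
  set A := ∑ v ∈ saws (n + 2), f v
  set B := ∑ w ∈ saws n, g w
  set S := ∑ w ∈ saws n, |g w|
  set H := ∑ w ∈ saws n, η w
  have hH : 0 ≤ H := Finset.sum_nonneg hη
  have hBS : |B| ≤ S := Finset.abs_sum_le_sum_abs _ _
  have hS : 0 ≤ S := (abs_nonneg _).trans hBS
  have hn3 : (0 : ℝ) < (n : ℝ) ^ 3 := by
    have : (0 : ℝ) < n := by exact_mod_cast hn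
    positivity
  set K := KC m2 a
  have hK0 : 0 < K := by linarith
  have hK5 : 5 + m2 ≤ K := by
    show 5 + m2 ≤ KC m2 a
    unfold KC
    have : 0 ≤ 18 * m2 ^ 2 / a := by positivity
    linarith
  have hK3 : 3 * m2 ≤ K := by
    show 3 * m2 ≤ KC m2 a
    unfold KC
    have : 0 ≤ 18 * m2 ^ 2 / a := by positivity
    linarith
  have key : A / c' - B / c = ((A - m2 * B) + (B / c) * (m2 * c - c')) / c' := by
    field_simp
    ring
  rw [key, abs_div, abs_of_pos hc', div_le_iff₀ hc']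
  have e1 : |(A - m2 * B) + (B / c) * (m2 * c - c')| ≤
      |A - m2 * B| + (S / c) * (K * e * c) := by
    refine (abs_add_le _ _).trans ?_
    rw [abs_mul, abs_div, abs_of_pos hc]
    have : |m2 * c - c'| ≤ K * e * c := by rw [abs_sub_comm]; exact h2
    gcongr
  have e2 : |A - m2 * B| ≤ K * H + K * e * S + K * (M / (n : ℝ) ^ 3) * c := by
    refine h1.trans ?_
    have f1 : 3 * m2 * H ≤ K * H := mul_le_mul_of_nonneg_right hK3 hH
    have f2 : (K - (5 + m2)) * e * S ≤ K * e * S := by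
      apply mul_le_mul_of_nonneg_right _ hS
      apply mul_le_mul_of_nonneg_right _ he0
      linarith
    have f3 : (5 + m2) * M / (n : ℝ) ^ 3 * c ≤ K * (M / (n : ℝ) ^ 3) * c := by
      rw [mul_div_assoc]
      apply mul_le_mul_of_nonneg_right _ hc.le
      apply mul_le_mul_of_nonneg_right hK5
      positivity
    linarith
  have e3 : (S / c) * (K * e * c) = K * e * S := by
    field_simp
  have e4 : K * H + K * e * S + K * (M / (n : ℝ) ^ 3) * c + K * e * S ≤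
      4 * K * (H / c + e * (S / c) + M / (n : ℝ) ^ 3) * (c / 2) := by
    have : 4 * K * (H / c + e * (S / c) + M / (n : ℝ) ^ 3) * (c / 2) =
        2 * K * H + 2 * K * e * S + 2 * K * (M / (n : ℝ) ^ 3) * c := by
      field_simp
      ring
    rw [this]
    have g1 : 0 ≤ K * H := by positivity
    have g2 : 0 ≤ K * (M / (n : ℝ) ^ 3) * c := by positivity
    linarith
  have e5 : 4 * K * (H / c + e * (S / c) + M / (n : ℝ) ^ 3) * (c / 2) ≤
      4 * K * (H / c + e * (S / c) + M / (n : ℝ) ^ 3) * c' :=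
    mul_le_mul_of_nonneg_left h3 (by positivity)
  linarith

end

end Pool.Agent.SawLim
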