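import Pool.Agent.SawLim.MergeA

/-!
Comparison of `s_{n+2}` with `s_n` and of the law of `X_{n+2}` with the law of `X_n`.
-/

set_option autoImplicit false

namespace Pool.Agent.SawLim

lemma avg_nonneg {n : ℕ} {f : (Fin (n + 1) → ℤ × ℤ) → ℝ} (h : ∀ w ∈ saws n, 0 ≤ f w) :
    0 ≤ avg n f := by
  rw [avg_eq]
  exact div_nonneg (Finset.sum_nonneg h) (Nat.cast_nonneg _)

lemma avg_mono {n : ℕ} {f g : (Fin (n + 1) → ℤ × ℤ) → ℝ} (h : ∀ w ∈ saws n, f w ≤ g w) :
    avg n f ≤ avg n g := by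
  rw [avg_eq, avg_eq]
  exact div_le_div_of_nonneg_right (Finset.sum_le_sum h) (Nat.cast_nonneg _)

lemma avg_add_const {n : ℕ} (f : (Fin (n + 1) → ℤ × ℤ) → ℝ) (c d : ℝ) :
    avg n (fun w => c + d * f w) = c + d * avg n f := by
  have hc := card_saws_pos n
  rw [avg_eq, avg_eq, Finset.sum_add_distrib, ← Finset.mul_sum, Finset.sum_const, nsmul_eq_mul]
  field_simp

lemma avg_sub_const {n : ℕ} (f : (Fin (n + 1) → ℤ × ℤ) → ℝ) (c : ℝ) :
    avg n (fun w => f w - c) = avg n f - c := by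
  have h := avg_add_const f (-c) 1
  simp only [one_mul] at h
  have e : (fun w => f w - c) = fun w => -c + f w := by funext w; ring
  rw [e, h]; ring

lemma abs_avg_le {n : ℕ} {f g : (Fin (n + 1) → ℤ × ℤ) → ℝ} (h : ∀ w ∈ saws n, |f w| ≤ g w) :
    |avg n f| ≤ avg n g := by
  rw [avg_eq, avg_eq, abs_div, abs_of_pos (card_saws_pos n)]
  apply div_le_div_of_nonneg_right _ (Nat.cast_nonneg _)
  exact (Finset.abs_sum_le_sum_abs _ _).trans (Finset.sum_le_sum h)

lemma norm_X_le_n {n : ℕ} (hn : 1 ≤ n) {w : Fin (n + 1) → ℤ × ℤ} (h : IsSAW n w) :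
    ‖X n w‖ ≤ n := by
  apply norm_X_le (by omega)
  intro k
  have h1 := norm_pt_le_n h k
  have h2 := one_le_s hn
  have h3 : (s n)⁻¹ ≤ 1 := inv_le_one_of_one_le₀ h2
  calc (s n)⁻¹ * ‖pt (w k)‖ ≤ 1 * n := mul_le_mul h3 h1 (norm_nonneg _) zero_le_one
    _ = n := one_mul _

section

variable {n : ℕ} {m2 a e : ℝ}

theorem s_sq_bal (hm : 1 ≤ m2) (ha : 0 < a) (hn : 1 ≤ n) (hna : 8 * m2 ≤ a * n)
    (hen : 1 / (n : ℝ) ≤ e) (he : KC m2 a * e ≤ 1 / 2) (hB : Balanced n m2 a e) :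
    |s (n + 2) ^ 2 - s n ^ 2| ≤ 40 * KC m2 a * e * s n ^ 2 := by
  have hn0 : (0 : ℝ) < n := by exact_mod_cast hn
  have hn1 : (1 : ℝ) ≤ n := by exact_mod_cast hn
  have h := transfer_avg hm ha hn hna hen he hB (((n : ℝ) + 2) ^ 2)
    (fun v => ‖pt (v (Fin.last (n + 2)))‖ ^ 2) (fun w => ‖pt (w (Fin.last n))‖ ^ 2) (fun _ => 0)
    (fun v hv => by
      rw [abs_of_nonneg (by positivity)]
      have := norm_pt_le_n (mem_saws.1 hv) (Fin.last (n + 2))
      push_cast at this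
      exact pow_le_pow_left₀ (norm_nonneg _) this 2)
    (fun w hw => by
      rw [abs_of_nonneg (by positivity)]
      have := norm_pt_le_n (mem_saws.1 hw) (Fin.last n)
      exact pow_le_pow_left₀ (norm_nonneg _) (by linarith) 2)
    (fun _ _ => le_rfl)
    (fun w _ p hp => by
      simp only [ins_last w p.2 (mem_Ins.1 (show (p.1, p.2) ∈ Ins n w from hp)).1, sub_self,
        abs_zero, le_refl])
  have e0 : avg n (fun _ : Fin (n + 1) → ℤ × ℤ => (0 : ℝ)) = 0 := by
    rw [avg_eq]; simp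
  have e1 : avg n (fun w : Fin (n + 1) → ℤ × ℤ => |‖pt (w (Fin.last n))‖ ^ 2|) = s n ^ 2 := by
    rw [s_sq hn]
    congr 1
    funext w
    rw [abs_of_nonneg (by positivity)]
  rw [e0, e1, ← s_sq hn, ← s_sq (by omega), zero_add] at h
  refine h.trans ?_
  have hs := one_le_s hn
  have h8 := eight_le_KC hm ha
  have he0 : 0 ≤ e := le_trans (by positivity) hen
  have k1 : ((n : ℝ) + 2) ^ 2 / (n : ℝ) ^ 3 ≤ 9 * e := by
    have : ((n : ℝ) + 2) ^ 2 / (n : ℝ) ^ 3 ≤ 9 * (1 / n) := by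
      rw [mul_one_div, div_le_div_iff₀ (by positivity) hn0]
      have : ((n : ℝ) + 2) ^ 2 ≤ 9 * (n : ℝ) ^ 2 := by nlinarith
      calc ((n : ℝ) + 2) ^ 2 * n ≤ 9 * (n : ℝ) ^ 2 * n := mul_le_mul_of_nonneg_right this hn0.le
        _ = 9 * (n : ℝ) ^ 3 := by ring
    linarith
  have k2 : 9 * e ≤ 9 * e * s n ^ 2 := by
    have : 1 ≤ s n ^ 2 := one_le_pow₀ hs
    nlinarith
  calc 4 * KC m2 a * (e * s n ^ 2 + ((n : ℝ) + 2) ^ 2 / (n : ℝ) ^ 3)
      ≤ 4 * KC m2 a * (10 * e * s n ^ 2) := by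
        apply mul_le_mul_of_nonneg_left _ (by linarith)
        linarith
    _ = 40 * KC m2 a * e * s n ^ 2 := by ring

theorem s_bal (hm : 1 ≤ m2) (ha : 0 < a) (hn : 1 ≤ n) (hna : 8 * m2 ≤ a * n)
    (hen : 1 / (n : ℝ) ≤ e) (he : KC m2 a * e ≤ 1 / 2) (hB : Balanced n m2 a e) :
    |s (n + 2) - s n| ≤ 40 * KC m2 a * e * s n := by
  have h := s_sq_bal hm ha hn hna hen he hB
  have h1 := s_pos hn
  have h2 := s_pos (show 1 ≤ n + 2 by omega)
  have e1 : s (n + 2) ^ 2 - s n ^ 2 = (s (n + 2) - s n) * (s (n + 2) + s n) := by ring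
  rw [e1, abs_mul, abs_of_pos (add_pos h2 h1)] at h
  have h3 : |s (n + 2) - s n| * s n ≤ 40 * KC m2 a * e * s n * s n := by
    calc |s (n + 2) - s n| * s n ≤ |s (n + 2) - s n| * (s (n + 2) + s n) :=
          mul_le_mul_of_nonneg_left (by linarith) (abs_nonneg _)
      _ ≤ _ := by linarith
  exact le_of_mul_le_mul_right h3 h1

/-- comparison of the laws -/
theorem merge_bal (hm : 1 ≤ m2) (ha : 0 < a) (hn : 1 ≤ n) (hna : 8 * m2 ≤ a * n)
    (hen : 1 / (n : ℝ) ≤ e) (he : 80 * (KC m2 a * e) ≤ 1) (hB : Balanced n m2 a e)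
    (F : C(unitInterval, EuclideanSpace ℝ (Fin 2)) → ℝ) (hF : LipschitzWith 1 F) :
    |avg (n + 2) (fun v => F (X (n + 2) v)) - avg n (fun w => F (X n w))| ≤
      4 * KC m2 a * (10 / s n + 81 * KC m2 a * e * avg n (fun w => ‖X n w‖) + 3 * e) := by
  have hn0 : (0 : ℝ) < n := by exact_mod_cast hn
  have hn1 : (1 : ℝ) ≤ n := by exact_mod_cast hn
  have h8 := eight_le_KC hm ha
  have he0 : 0 ≤ e := le_trans (by positivity) hen
  have he' : KC m2 a * e ≤ 1 / 2 := by nlinarith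
  have hs1 := s_pos hn
  have hs2 := s_pos (show 1 ≤ n + 2 by omega)
  have hsb := s_bal hm ha hn hna hen he' hB
  have hs3 : s n / 2 ≤ s (n + 2) := by
    have := (abs_le.1 hsb).1
    nlinarith
  have hLip : ∀ x y, |F x - F y| ≤ ‖x - y‖ := by
    intro x y
    have := hF.dist_le_mul x y
    rwa [Real.dist_eq, dist_eq_norm, NNReal.coe_one, one_mul] at this
  have h := transfer_avg hm ha hn hna hen he' hB ((n : ℝ) + 2)
    (fun v => F (X (n + 2) v) - F 0) (fun w => F (X n w) - F 0)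
    (fun w => 10 / s n + 80 * KC m2 a * e * ‖X n w‖)
    (fun v hv => by
      refine (hLip _ _).trans ?_
      rw [sub_zero]
      have := norm_X_le_n (by omega) (mem_saws.1 hv)
      push_cast at this
      exact this)
    (fun w hw => by
      refine (hLip _ _).trans ?_
      rw [sub_zero]
      have := norm_X_le_n hn (mem_saws.1 hw)
      linarith)
    (fun w _ => by positivity)
    (fun w hw p hp => by
      rw [sub_sub_sub_cancel_right]
      refine (hLip _ _).trans ?_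
      have h1 := ins_close_norm (mem_saws.1 hw) (show (p.1, p.2) ∈ Ins n w from hp)
      have e1 : s (n + 2) • (X (n + 2) (ins n w p.1 p.2) - X n w) =
          (s (n + 2) • X (n + 2) (ins n w p.1 p.2) - s n • X n w) +
          (s n - s (n + 2)) • X n w := by
        have := sub_smul (s n) (s (n + 2)) (X n w)
        rw [smul_sub, this]; abel
      have e2 : s (n + 2) * ‖X (n + 2) (ins n w p.1 p.2) - X n w‖ ≤
          5 + 40 * KC m2 a * e * s n * ‖X n w‖ := by
        calc s (n + 2) * ‖X (n + 2) (ins n w p.1 p.2) - X n w‖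
            = ‖s (n + 2) • (X (n + 2) (ins n w p.1 p.2) - X n w)‖ := by
              rw [norm_smul, Real.norm_of_nonneg hs2.le]
          _ ≤ 5 + |s n - s (n + 2)| * ‖X n w‖ := by
              rw [e1]
              refine (norm_add_le _ _).trans (add_le_add h1 ?_)
              rw [norm_smul, Real.norm_eq_abs]
          _ ≤ _ := by
              rw [abs_sub_comm]
              exact add_le_add le_rfl (mul_le_mul_of_nonneg_right hsb (norm_nonneg _))
      have e3 : s n / 2 * ‖X (n + 2) (ins n w p.1 p.2) - X n w‖ ≤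
          5 + 40 * KC m2 a * e * s n * ‖X n w‖ :=
        (mul_le_mul_of_nonneg_right hs3 (norm_nonneg _)).trans e2
      have e4 : 10 / s n + 80 * KC m2 a * e * ‖X n w‖ =
          (5 + 40 * KC m2 a * e * s n * ‖X n w‖) / (s n / 2) := by
        field_simp
        ring
      rw [e4, le_div_iff₀ (by positivity)]
      linarith)
  rw [avg_sub_const, avg_sub_const, sub_sub_sub_cancel_right, avg_add_const] at h
  refine h.trans ?_
  apply mul_le_mul_of_nonneg_left _ (by linarith)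
  have k1 : avg n (fun w => |F (X n w) - F 0|) ≤ avg n (fun w => ‖X n w‖) := by
    apply avg_mono
    intro w _
    refine (hLip _ _).trans ?_
    rw [sub_zero]
  have k2 : ((n : ℝ) + 2) / (n : ℝ) ^ 3 ≤ 3 * e := by
    have : ((n : ℝ) + 2) / (n : ℝ) ^ 3 ≤ 3 * (1 / n) := by
      rw [mul_one_div, div_le_div_iff₀ (by positivity) hn0]
      nlinarith [mul_nonneg (mul_nonneg hn0.le hn0.le) (sub_nonneg.2 hn1),
        mul_nonneg hn0.le (sub_nonneg.2 hn1)]
    linarith
  have k3 : e * avg n (fun w => |F (X n w) - F 0|) ≤ e * avg n (fun w => ‖X n w‖) :=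
    mul_le_mul_of_nonneg_left k1 he0
  have k4 : 0 ≤ avg n (fun w => ‖X n w‖) := avg_nonneg (fun _ _ => norm_nonneg _)
  have k5 : e * avg n (fun w => ‖X n w‖) ≤ KC m2 a * e * avg n (fun w => ‖X n w‖) := by
    apply mul_le_mul_of_nonneg_right _ k4
    nlinarith
  linarith

end

end Pool.Agent.SawLim
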