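import Pool.Agent.SawLim.SupX

/-!
Local moves on self-avoiding walks: insertion of a unit bump at a step and deletion of a U-shape.
-/

set_option autoImplicit false

namespace Pool.Agent.SawLim

/-- the four unit vectors -/
def dirs : Finset (ℤ × ℤ) := {(1, 0), (-1, 0), (0, 1), (0, -1)}

/-- lattice adjacency -/
def adj (p q : ℤ × ℤ) : Prop := |q.1 - p.1| + |q.2 - p.2| = 1

instance (p q : ℤ × ℤ) : Decidable (adj p q) := by unfold adj; infer_instance

lemma mem_dirs {f : ℤ × ℤ} : f ∈ dirs ↔ |f.1| + |f.2| = 1 := by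
  simp only [dirs, Finset.mem_insert, Finset.mem_singleton]
  obtain ⟨a, b⟩ := f
  simp only [Prod.mk.injEq]
  constructor
  · rintro (⟨rfl, rfl⟩ | ⟨rfl, rfl⟩ | ⟨rfl, rfl⟩ | ⟨rfl, rfl⟩) <;> simp
  · intro h
    rcases abs_cases a with ⟨h1, h2⟩ | ⟨h1, h2⟩ <;> rcases abs_cases b with ⟨h3, h4⟩ | ⟨h3, h4⟩ <;>
      omega

lemma adj_iff {p q : ℤ × ℤ} : adj p q ↔ q - p ∈ dirs := by
  rw [mem_dirs]; rfl

lemma adj_comm {p q : ℤ × ℤ} : adj p q ↔ adj q p := by
  unfold adj
  rw [abs_sub_comm q.1 p.1, abs_sub_comm q.2 p.2]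

/-- the possible insertions of a bump: `(k, f)` with `f` a unit vector orthogonal to the step
`w k → w (k+1)`, the two sites `w k + f`, `w (k+1) + f` being free -/
def Ins (n : ℕ) (w : Fin (n + 1) → ℤ × ℤ) : Finset (ℕ × (ℤ × ℤ)) :=
  (Finset.range n ×ˢ dirs).filter fun p =>
    p.2.1 * (wN n w (p.1 + 1) - wN n w p.1).1 + p.2.2 * (wN n w (p.1 + 1) - wN n w p.1).2 = 0 ∧
    (∀ j, w j ≠ wN n w p.1 + p.2) ∧ (∀ j, w j ≠ wN n w (p.1 + 1) + p.2)

/-- the possible deletions: the `U`-shapes `(w k, w (k+1), w (k+2), w (k+3))` with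
`w k` and `w (k+3)` adjacent -/
def Del (n : ℕ) (w : Fin (n + 1) → ℤ × ℤ) : Finset ℕ :=
  (Finset.range (n - 2)).filter fun k => adj (wN n w k) (wN n w (k + 3))

/-- insertion of a bump -/
def ins (n : ℕ) (w : Fin (n + 1) → ℤ × ℤ) (k : ℕ) (f : ℤ × ℤ) : Fin (n + 2 + 1) → ℤ × ℤ :=
  fun j => if (j : ℕ) ≤ k then wN n w j else if (j : ℕ) = k + 1 then wN n w k + f else
    if (j : ℕ) = k + 2 then wN n w (k + 1) + f else wN n w (j - 2)

/-- deletion of a `U`-shape -/
def del (n : ℕ) (v : Fin (n + 2 + 1) → ℤ × ℤ) (k : ℕ) : Fin (n + 1) → ℤ × ℤ :=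
  fun j => if (j : ℕ) ≤ k then wN (n + 2) v j else wN (n + 2) v (j + 2)

/-! ### Walks as functions on `ℕ` -/

lemma wN_zero {n : ℕ} {w : Fin (n + 1) → ℤ × ℤ} (h : IsSAW n w) : wN n w 0 = 0 := by
  rw [wN_of_le w (Nat.zero_le _)]; exact h.1

lemma wN_adj {n : ℕ} {w : Fin (n + 1) → ℤ × ℤ} (h : IsSAW n w) {k : ℕ} (hk : k < n) :
    adj (wN n w k) (wN n w (k + 1)) := by
  have := h.2.1 ⟨k, hk⟩
  rw [wN_succ w ⟨k, hk⟩, wN_castSucc w ⟨k, hk⟩] at this
  exact this

lemma wN_inj {n : ℕ} {w : Fin (n + 1) → ℤ × ℤ} (h : IsSAW n w) {i j : ℕ} (hi : i ≤ n) (hj : j ≤ n)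
    (he : wN n w i = wN n w j) : i = j := by
  rw [wN_of_le w hi, wN_of_le w hj] at he
  have := congrArg Fin.val (h.2.2 he)
  simpa using this

lemma w_eq_wN {n : ℕ} (w : Fin (n + 1) → ℤ × ℤ) (j : Fin (n + 1)) : w j = wN n w j := by
  rw [wN_of_le w (by have := j.2; omega)]

lemma forall_ne_iff {n : ℕ} {w : Fin (n + 1) → ℤ × ℤ} {p : ℤ × ℤ} :
    (∀ j, w j ≠ p) ↔ ∀ j ≤ n, wN n w j ≠ p := by
  constructor
  · intro h j hj
    rw [wN_of_le w hj]; exact h _
  · intro h j
    rw [w_eq_wN w j]; exact h j (by have := j.2; omega)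

/-- a criterion for `IsSAW` through a function on `ℕ` -/
lemma isSAW_of {n : ℕ} {w : Fin (n + 1) → ℤ × ℤ} (u : ℕ → ℤ × ℤ) (hu : ∀ j : Fin (n + 1), w j = u j)
    (h0 : u 0 = 0) (h1 : ∀ k < n, adj (u k) (u (k + 1)))
    (h2 : ∀ i j, i < j → j ≤ n → u i ≠ u j) : IsSAW n w := by
  refine ⟨by rw [hu]; exact h0, ?_, ?_⟩
  · intro k
    rw [hu, hu]
    exact h1 k k.2
  · intro i j hij
    rw [hu, hu] at hij
    by_contra hne
    have hne' : (i : ℕ) ≠ j := fun h => hne (Fin.ext h)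
    rcases lt_or_gt_of_ne hne' with hlt | hlt
    · exact h2 i j hlt (by have := j.2; omega) hij
    · exact h2 j i hlt (by have := i.2; omega) hij.symm

lemma wN_ins {n : ℕ} (w : Fin (n + 1) → ℤ × ℤ) (k : ℕ) (f : ℤ × ℤ) {j : ℕ} (hj : j ≤ n + 2) :
    wN (n + 2) (ins n w k f) j = if j ≤ k then wN n w j else if j = k + 1 then wN n w k + f else
    if j = k + 2 then wN n w (k + 1) + f else wN n w (j - 2) := by
  rw [wN_of_le _ hj]; rfl

lemma wN_del {n : ℕ} (v : Fin (n + 2 + 1) → ℤ × ℤ) (k : ℕ) {j : ℕ} (hj : j ≤ n) :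
    wN n (del n v k) j = if j ≤ k then wN (n + 2) v j else wN (n + 2) v (j + 2) := by
  rw [wN_of_le _ hj]; rfl

lemma mem_Ins {n : ℕ} {w : Fin (n + 1) → ℤ × ℤ} {k : ℕ} {f : ℤ × ℤ} :
    (k, f) ∈ Ins n w ↔ k < n ∧ f ∈ dirs ∧
    (f.1 * (wN n w (k + 1) - wN n w k).1 + f.2 * (wN n w (k + 1) - wN n w k).2 = 0) ∧
    (∀ j ≤ n, wN n w j ≠ wN n w k + f) ∧ (∀ j ≤ n, wN n w j ≠ wN n w (k + 1) + f) := by
  simp only [Ins, Finset.mem_filter, Finset.mem_product, Finset.mem_range, forall_ne_iff, and_assoc]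

lemma mem_Del {n : ℕ} {w : Fin (n + 1) → ℤ × ℤ} {k : ℕ} :
    k ∈ Del n w ↔ k + 3 ≤ n ∧ adj (wN n w k) (wN n w (k + 3)) := by
  simp only [Del, Finset.mem_filter, Finset.mem_range]
  constructor
  · rintro ⟨h1, h2⟩; exact ⟨by omega, h2⟩
  · rintro ⟨h1, h2⟩; exact ⟨by omega, h2⟩

/-- a four cycle of the square lattice is a unit square -/
lemma square {a b c d : ℤ × ℤ} (h1 : adj a b) (h2 : adj b c) (h3 : adj c d) (h4 : adj a d)
    (hac : a ≠ c) (hbd : b ≠ d) :
    c = d + (b - a) ∧ (b - a).1 * (d - a).1 + (b - a).2 * (d - a).2 = 0 := by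
  obtain ⟨a1, a2⟩ := a
  obtain ⟨b1, b2⟩ := b
  obtain ⟨c1, c2⟩ := c
  obtain ⟨d1, d2⟩ := d
  rw [adj_iff] at h1 h2 h3 h4
  simp only [dirs, Finset.mem_insert, Finset.mem_singleton, Prod.mk_sub_mk, Prod.mk.injEq] at h1 h2 h3 h4
  simp only [ne_eq, Prod.mk.injEq, not_and] at hac hbd
  simp only [Prod.mk_sub_mk, Prod.mk_add_mk, Prod.mk.injEq]
  rcases h1 with ⟨e1, e1'⟩ | ⟨e1, e1'⟩ | ⟨e1, e1'⟩ | ⟨e1, e1'⟩ <;>
  rcases h4 with ⟨e4, e4'⟩ | ⟨e4, e4'⟩ | ⟨e4, e4'⟩ | ⟨e4, e4'⟩ <;>
  rw [e1, e1', e4, e4'] <;>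
  refine ⟨⟨?_, ?_⟩, ?_⟩ <;> omega


/-! ### The moves are inverse to each other -/

set_option linter.unusedVariables false

theorem isSAW_ins {n : ℕ} {w : Fin (n + 1) → ℤ × ℤ} (h : IsSAW n w) {k : ℕ} {f : ℤ × ℤ}
    (hk : (k, f) ∈ Ins n w) : IsSAW (n + 2) (ins n w k f) := by
  rw [mem_Ins] at hk
  obtain ⟨hkn, hf, ho, ha, hb⟩ := hk
  have hstep := wN_adj h hkn
  apply isSAW_of (fun j => if j ≤ k then wN n w j else if j = k + 1 then wN n w k + f else
    if j = k + 2 then wN n w (k + 1) + f else wN n w (j - 2)) (fun j => rfl)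
  · simp [wN_zero h]
  · intro j hj
    rcases lt_trichotomy j k with hlt | rfl | hgt
    · rw [if_pos (by omega), if_pos (by omega)]
      exact wN_adj h (by omega)
    · rw [if_pos le_rfl, if_neg (by omega), if_pos rfl, adj_iff]
      simpa using hf
    · rcases Nat.lt_trichotomy j (k + 2) with h2 | rfl | h2
      · obtain rfl : j = k + 1 := by omega
        rw [if_neg (by omega), if_pos rfl, if_neg (by omega), if_neg (by omega), if_pos (by omega)]
        unfold adj at hstep ⊢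
        simpa using hstep
      · rw [if_neg (by omega), if_neg (by omega), if_pos rfl, if_neg (by omega), if_neg (by omega),
          if_neg (by omega), adj_comm, adj_iff]
        simpa using hf
      · rw [if_neg (by omega), if_neg (by omega), if_neg (by omega), if_neg (by omega),
          if_neg (by omega), if_neg (by omega)]
        have e : j + 1 - 2 = (j - 2) + 1 := by omega
        rw [e]
        exact wN_adj h (by omega)
  · have hab : wN n w k + f ≠ wN n w (k + 1) + f := by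
      intro he
      have := wN_inj h (by omega) (by omega) (add_right_cancel he)
      omega
    intro i j hij hj he
    have hi : i ≤ n + 2 := by omega
    split_ifs at he with h1 h2 h3 h4 h5 h6 h7 h8 h9 h10 h11 h12 <;>
    first
    | omega
    | exact absurd he (ha _ (by omega))
    | exact absurd he.symm (ha _ (by omega))
    | exact absurd he (hb _ (by omega))
    | exact absurd he.symm (hb _ (by omega))
    | exact absurd he hab
    | (have := wN_inj h (by omega) (by omega) he; omega)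

theorem isSAW_del {n : ℕ} {v : Fin (n + 2 + 1) → ℤ × ℤ} (h : IsSAW (n + 2) v) {k : ℕ}
    (hk : k ∈ Del (n + 2) v) : IsSAW n (del n v k) := by
  rw [mem_Del] at hk
  obtain ⟨hkn, ha⟩ := hk
  apply isSAW_of (fun j => if j ≤ k then wN (n + 2) v j else wN (n + 2) v (j + 2)) (fun j => rfl)
  · simp [wN_zero h]
  · intro j hj
    rcases lt_trichotomy j k with hlt | rfl | hgt
    · rw [if_pos (by omega), if_pos (by omega)]
      exact wN_adj h (by omega)
    · rw [if_pos le_rfl, if_neg (by omega)]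
      exact ha
    · rw [if_neg (by omega), if_neg (by omega)]
      have e : j + 1 + 2 = (j + 2) + 1 := by omega
      rw [e]
      exact wN_adj h (by omega)
  · intro i j hij hj he
    split_ifs at he with h1 h2 <;>
    (have := wN_inj h (by omega) (by omega) he; omega)

lemma del_ins {n : ℕ} (w : Fin (n + 1) → ℤ × ℤ) {k : ℕ} (f : ℤ × ℤ) (hk : k < n) :
    del n (ins n w k f) k = w := by
  funext j
  have hj : (j : ℕ) ≤ n := by have := j.2; omega
  rw [w_eq_wN w j, w_eq_wN (del n (ins n w k f) k) j, wN_del _ _ hj]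
  split_ifs with h1
  · rw [wN_ins _ _ _ (by omega), if_pos h1]
  · rw [wN_ins _ _ _ (by omega), if_neg (by omega), if_neg (by omega), if_neg (by omega)]
    rfl

lemma mem_Del_ins {n : ℕ} {w : Fin (n + 1) → ℤ × ℤ} (h : IsSAW n w) {k : ℕ} (f : ℤ × ℤ)
    (hk : k < n) : k ∈ Del (n + 2) (ins n w k f) := by
  rw [mem_Del]
  refine ⟨by omega, ?_⟩
  rw [wN_ins _ _ _ (by omega), wN_ins _ _ _ (by omega), if_pos le_rfl, if_neg (by omega),
    if_neg (by omega), if_neg (by omega)]
  exact wN_adj h hk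

lemma ins_label {n : ℕ} (w : Fin (n + 1) → ℤ × ℤ) {k : ℕ} (f : ℤ × ℤ) (hk : k < n) :
    wN (n + 2) (ins n w k f) (k + 1) - wN (n + 2) (ins n w k f) k = f := by
  rw [wN_ins _ _ _ (by omega), wN_ins _ _ _ (by omega), if_pos le_rfl, if_neg (by omega),
    if_pos rfl]
  simp

lemma ushape {n : ℕ} {v : Fin (n + 1) → ℤ × ℤ} (h : IsSAW n v) {k : ℕ}
    (hk : k ∈ Del n v) :
    wN n v (k + 2) = wN n v (k + 3) + (wN n v (k + 1) - wN n v k) ∧
    (wN n v (k + 1) - wN n v k).1 * (wN n v (k + 3) - wN n v k).1 +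
    (wN n v (k + 1) - wN n v k).2 * (wN n v (k + 3) - wN n v k).2 = 0 := by
  rw [mem_Del] at hk
  obtain ⟨hkn, ha⟩ := hk
  refine square (wN_adj h (by omega)) (wN_adj h (by omega)) (wN_adj h (by omega)) ha ?_ ?_
  · intro he
    have := wN_inj h (by omega) (by omega) he
    omega
  · intro he
    have := wN_inj h (by omega) (by omega) he
    omega

lemma mem_Ins_del {n : ℕ} {v : Fin (n + 2 + 1) → ℤ × ℤ} (h : IsSAW (n + 2) v) {k : ℕ}
    (hk : k ∈ Del (n + 2) v) :
    (k, wN (n + 2) v (k + 1) - wN (n + 2) v k) ∈ Ins n (del n v k) := by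
  obtain ⟨hu1, hu2⟩ := ushape h hk
  rw [mem_Del] at hk
  obtain ⟨hkn, ha⟩ := hk
  rw [mem_Ins]
  have e0 : wN n (del n v k) k = wN (n + 2) v k := by rw [wN_del _ _ (by omega), if_pos le_rfl]
  have e1 : wN n (del n v k) (k + 1) = wN (n + 2) v (k + 3) := by
    rw [wN_del _ _ (by omega), if_neg (by omega)]
  refine ⟨by omega, ?_, ?_, ?_, ?_⟩
  · exact adj_iff.1 (wN_adj h (by omega))
  · rw [e0, e1]; exact hu2
  · intro j hj he
    rw [e0, wN_del _ _ hj] at he
    have e : wN (n + 2) v k + (wN (n + 2) v (k + 1) - wN (n + 2) v k) = wN (n + 2) v (k + 1) := by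
      abel
    rw [e] at he
    split_ifs at he <;> (have := wN_inj h (by omega) (by omega) he; omega)
  · intro j hj he
    rw [e1, ← hu1, wN_del _ _ hj] at he
    split_ifs at he <;> (have := wN_inj h (by omega) (by omega) he; omega)

lemma ins_del {n : ℕ} {v : Fin (n + 2 + 1) → ℤ × ℤ} (h : IsSAW (n + 2) v) {k : ℕ}
    (hk : k ∈ Del (n + 2) v) :
    ins n (del n v k) k (wN (n + 2) v (k + 1) - wN (n + 2) v k) = v := by
  obtain ⟨hu1, hu2⟩ := ushape h hk
  rw [mem_Del] at hk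
  obtain ⟨hkn, ha⟩ := hk
  funext j
  have hj : (j : ℕ) ≤ n + 2 := by have := j.2; omega
  rw [w_eq_wN v j, w_eq_wN (ins n (del n v k) k _) j, wN_ins _ _ _ hj]
  split_ifs with h1 h2 h3
  · rw [wN_del _ _ (by omega), if_pos h1]
  · rw [wN_del _ _ (by omega), if_pos le_rfl, h2]
    abel
  · rw [wN_del _ _ (by omega), if_neg (by omega), ← hu1, h3]
  · rw [wN_del _ _ (by omega), if_neg (by omega)]
    congr 1
    omega

/-- **Double counting** of the labelled moves. -/
theorem sum_moves {M : Type*} [AddCommMonoid M] (n : ℕ)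
    (F : (Fin (n + 1) → ℤ × ℤ) → ℕ → (ℤ × ℤ) → (Fin (n + 2 + 1) → ℤ × ℤ) → M) :
    ∑ w ∈ saws n, ∑ p ∈ Ins n w, F w p.1 p.2 (ins n w p.1 p.2) =
    ∑ v ∈ saws (n + 2), ∑ k ∈ Del (n + 2) v,
      F (del n v k) k (wN (n + 2) v (k + 1) - wN (n + 2) v k) v := by
  rw [Finset.sum_sigma', Finset.sum_sigma']
  refine Finset.sum_bij' (fun x _ => ⟨ins n x.1 x.2.1 x.2.2, x.2.1⟩)
    (fun y _ => ⟨del n y.1 y.2, (y.2, wN (n + 2) y.1 (y.2 + 1) - wN (n + 2) y.1 y.2)⟩)
    ?_ ?_ ?_ ?_ ?_
  · rintro ⟨w, k, f⟩ hx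
    rw [Finset.mem_sigma] at hx ⊢
    obtain ⟨hw, hp⟩ := hx
    have hw' := mem_saws.1 hw
    exact ⟨mem_saws.2 (isSAW_ins hw' hp), mem_Del_ins hw' f (mem_Ins.1 hp).1⟩
  · rintro ⟨v, k⟩ hy
    rw [Finset.mem_sigma] at hy ⊢
    obtain ⟨hv, hk⟩ := hy
    have hv' := mem_saws.1 hv
    exact ⟨mem_saws.2 (isSAW_del hv' hk), mem_Ins_del hv' hk⟩
  · rintro ⟨w, k, f⟩ hx
    rw [Finset.mem_sigma] at hx
    obtain ⟨hw, hp⟩ := hx
    have hkn := (mem_Ins.1 hp).1
    simp only [del_ins w f hkn, ins_label w f hkn]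
  · rintro ⟨v, k⟩ hy
    rw [Finset.mem_sigma] at hy
    obtain ⟨hv, hk⟩ := hy
    have hv' := mem_saws.1 hv
    simp only [ins_del hv' hk]
  · rintro ⟨w, k, f⟩ hx
    rw [Finset.mem_sigma] at hx
    obtain ⟨hw, hp⟩ := hx
    have hkn := (mem_Ins.1 hp).1
    simp only [del_ins w f hkn, ins_label w f hkn]

/-! ### The number of moves changes little -/

theorem card_Del_ins_le {n : ℕ} (w : Fin (n + 1) → ℤ × ℤ) {k : ℕ} (f : ℤ × ℤ) (hk : k < n) :
    (Del (n + 2) (ins n w k f)).card ≤ (Del n w).card + 5 := by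
  classical
  have h1 : (Del (n + 2) (ins n w k f)).card ≤
      ((Del (n + 2) (ins n w k f)) \ Finset.Icc (k - 2) (k + 2)).card +
        (Finset.Icc (k - 2) (k + 2)).card :=
    Finset.card_le_card_sdiff_add_card
  have h2 : (Finset.Icc (k - 2) (k + 2)).card ≤ 5 := by
    rw [Nat.card_Icc]; omega
  have h3 : ((Del (n + 2) (ins n w k f)) \ Finset.Icc (k - 2) (k + 2)).card ≤ (Del n w).card := by
    apply Finset.card_le_card_of_injOn (fun i => if i ≤ k then i else i - 2)
    · intro i hi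
      rw [Finset.mem_coe, Finset.mem_sdiff, mem_Del, Finset.mem_Icc] at hi
      obtain ⟨⟨hi1, hi2⟩, hi3⟩ := hi
      rw [Finset.mem_coe, mem_Del]
      rcases lt_or_ge i (k - 2) with hlt | hge
      · rw [wN_ins _ _ _ (by omega), wN_ins _ _ _ (by omega), if_pos (by omega),
          if_pos (by omega)] at hi2
        simp only [if_pos (show i ≤ k by omega)]
        exact ⟨by omega, hi2⟩
      · rw [wN_ins _ _ _ (by omega), wN_ins _ _ _ (by omega), if_neg (by omega),
          if_neg (by omega), if_neg (by omega), if_neg (by omega), if_neg (by omega),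
          if_neg (by omega)] at hi2
        simp only [if_neg (show ¬ i ≤ k by omega)]
        refine ⟨by omega, ?_⟩
        have e : i - 2 + 3 = i + 3 - 2 := by omega
        rw [e]
        exact hi2
    · intro i hi j hj hij
      rw [Finset.mem_coe, Finset.mem_sdiff, Finset.mem_Icc] at hi hj
      simp only at hij
      split_ifs at hij <;> omega
  omega

theorem card_Del_le_ins {n : ℕ} (w : Fin (n + 1) → ℤ × ℤ) {k : ℕ} (f : ℤ × ℤ) :
    (Del n w).card ≤ (Del (n + 2) (ins n w k f)).card + 3 := by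
  classical
  have h1 : (Del n w).card ≤ ((Del n w) \ Finset.Icc (k - 2) k).card +
        (Finset.Icc (k - 2) k).card :=
    Finset.card_le_card_sdiff_add_card
  have h2 : (Finset.Icc (k - 2) k).card ≤ 3 := by
    rw [Nat.card_Icc]; omega
  have h3 : ((Del n w) \ Finset.Icc (k - 2) k).card ≤ (Del (n + 2) (ins n w k f)).card := by
    apply Finset.card_le_card_of_injOn (fun i => if i ≤ k then i else i + 2)
    · intro i hi
      rw [Finset.mem_coe, Finset.mem_sdiff, mem_Del, Finset.mem_Icc] at hi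
      obtain ⟨⟨hi1, hi2⟩, hi3⟩ := hi
      rw [Finset.mem_coe, mem_Del]
      rcases lt_or_ge i (k - 2) with hlt | hge
      · simp only [if_pos (show i ≤ k by omega)]
        rw [wN_ins _ _ _ (by omega), wN_ins _ _ _ (by omega), if_pos (by omega),
          if_pos (by omega)]
        exact ⟨by omega, hi2⟩
      · simp only [if_neg (show ¬ i ≤ k by omega)]
        rw [wN_ins _ _ _ (by omega), wN_ins _ _ _ (by omega), if_neg (by omega),
          if_neg (by omega), if_neg (by omega), if_neg (by omega), if_neg (by omega),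
          if_neg (by omega)]
        refine ⟨by omega, ?_⟩
        have e : i + 2 + 3 - 2 = i + 3 := by omega
        rw [e]
        exact hi2
    · intro i hi j hj hij
      simp only at hij
      split_ifs at hij <;> omega
  omega

lemma card_perp : ∀ d ∈ dirs, (dirs.filter fun g => g.1 * d.1 + g.2 * d.2 = 0).card ≤ 2 := by
  decide

theorem card_Ins_le_ins {n : ℕ} {w : Fin (n + 1) → ℤ × ℤ} (h : IsSAW n w) {k : ℕ} {f : ℤ × ℤ}
    (hkf : (k, f) ∈ Ins n w) :
    (Ins n w).card ≤ (Ins (n + 2) (ins n w k f)).card + 18 := by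
  classical
  have hk := (mem_Ins.1 hkf).1
  -- the bad insertions
  have hB0 : ((Ins n w).filter fun p => p.1 = k).card ≤ 2 := by
    refine le_trans ?_ (card_perp _ (adj_iff.1 (wN_adj h hk)))
    apply Finset.card_le_card_of_injOn Prod.snd
    · rintro ⟨i, g⟩ hi
      rw [Finset.mem_coe, Finset.mem_filter, mem_Ins] at hi
      obtain ⟨⟨_, h2, h3, _⟩, h4⟩ := hi
      simp only at h4
      subst h4
      rw [Finset.mem_coe, Finset.mem_filter]
      exact ⟨h2, h3⟩
    · rintro ⟨i, g⟩ hi ⟨j, g'⟩ hj hij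
      rw [Finset.mem_coe, Finset.mem_filter] at hi hj
      simp only at hij
      exact Prod.ext (hi.2.trans hj.2.symm) hij
  have hB1 : ∀ p : ℤ × ℤ, ((Ins n w).filter fun q => wN n w q.1 + q.2 = p).card ≤ 4 := by
    intro p
    have e4 : dirs.card = 4 := by decide
    rw [← e4]
    apply Finset.card_le_card_of_injOn Prod.snd
    · rintro ⟨i, g⟩ hi
      rw [Finset.mem_coe, Finset.mem_filter, mem_Ins] at hi
      exact hi.1.2.1
    · rintro ⟨i, g⟩ hi ⟨j, g'⟩ hj hij
      rw [Finset.mem_coe, Finset.mem_filter, mem_Ins] at hi hj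
      simp only at hij hi hj
      subst hij
      have := wN_inj h (by omega) (by omega) (add_right_cancel (hi.2.trans hj.2.symm))
      rw [this]
  have hB2 : ∀ p : ℤ × ℤ, ((Ins n w).filter fun q => wN n w (q.1 + 1) + q.2 = p).card ≤ 4 := by
    intro p
    have e4 : dirs.card = 4 := by decide
    rw [← e4]
    apply Finset.card_le_card_of_injOn Prod.snd
    · rintro ⟨i, g⟩ hi
      rw [Finset.mem_coe, Finset.mem_filter, mem_Ins] at hi
      exact hi.1.2.1
    · rintro ⟨i, g⟩ hi ⟨j, g'⟩ hj hij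
      rw [Finset.mem_coe, Finset.mem_filter, mem_Ins] at hi hj
      simp only at hij hi hj
      subst hij
      have := wN_inj h (by omega) (by omega) (add_right_cancel (hi.2.trans hj.2.symm))
      have : i = j := by omega
      rw [this]
  -- the good insertions
  set B : Finset (ℕ × (ℤ × ℤ)) := ((Ins n w).filter fun p => p.1 = k) ∪
    (((Ins n w).filter fun q => wN n w q.1 + q.2 = wN n w k + f) ∪
    (((Ins n w).filter fun q => wN n w q.1 + q.2 = wN n w (k + 1) + f) ∪
    (((Ins n w).filter fun q => wN n w (q.1 + 1) + q.2 = wN n w k + f) ∪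
    ((Ins n w).filter fun q => wN n w (q.1 + 1) + q.2 = wN n w (k + 1) + f)))) with hB
  have hBc : B.card ≤ 18 := by
    rw [hB]
    refine (Finset.card_union_le _ _).trans ?_
    have u2 := Finset.card_union_le ((Ins n w).filter fun q => wN n w q.1 + q.2 = wN n w k + f)
      (((Ins n w).filter fun q => wN n w q.1 + q.2 = wN n w (k + 1) + f) ∪
      (((Ins n w).filter fun q => wN n w (q.1 + 1) + q.2 = wN n w k + f) ∪
      ((Ins n w).filter fun q => wN n w (q.1 + 1) + q.2 = wN n w (k + 1) + f)))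
    have u3 := Finset.card_union_le
      ((Ins n w).filter fun q => wN n w q.1 + q.2 = wN n w (k + 1) + f)
      (((Ins n w).filter fun q => wN n w (q.1 + 1) + q.2 = wN n w k + f) ∪
      ((Ins n w).filter fun q => wN n w (q.1 + 1) + q.2 = wN n w (k + 1) + f))
    have u4 := Finset.card_union_le
      ((Ins n w).filter fun q => wN n w (q.1 + 1) + q.2 = wN n w k + f)
      ((Ins n w).filter fun q => wN n w (q.1 + 1) + q.2 = wN n w (k + 1) + f)
    have b1 := hB1 (wN n w k + f)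
    have b2 := hB1 (wN n w (k + 1) + f)
    have b3 := hB2 (wN n w k + f)
    have b4 := hB2 (wN n w (k + 1) + f)
    omega
  have hG : ((Ins n w) \ B).card ≤ (Ins (n + 2) (ins n w k f)).card := by
    apply Finset.card_le_card_of_injOn (fun p => (if p.1 < k then p.1 else p.1 + 2, p.2))
    · rintro ⟨i, g⟩ hi
      rw [Finset.mem_coe, Finset.mem_sdiff] at hi
      obtain ⟨hi, hiB⟩ := hi
      simp only [hB, Finset.mem_union, Finset.mem_filter, hi, true_and, not_or] at hiB
      obtain ⟨c0, c1, c2, c3, c4⟩ := hiB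
      rw [mem_Ins] at hi
      obtain ⟨i1, i2, i3, i4, i5⟩ := hi
      rw [Finset.mem_coe]
      have hv : ∀ j ≤ n + 2, ∀ p : ℤ × ℤ, (∀ j ≤ n, wN n w j ≠ p) → p ≠ wN n w k + f →
          p ≠ wN n w (k + 1) + f → wN (n + 2) (ins n w k f) j ≠ p := by
        intro j hj p p1 p2 p3
        rw [wN_ins _ _ _ hj]
        split_ifs
        · exact p1 _ (by omega)
        · exact fun hh => p2 hh.symm
        · exact fun hh => p3 hh.symm
        · exact p1 _ (by omega)
      by_cases hik : i < k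
      · simp only [if_pos hik]
        have e0 : wN (n + 2) (ins n w k f) i = wN n w i := by
          rw [wN_ins _ _ _ (by omega), if_pos (by omega)]
        have e1 : wN (n + 2) (ins n w k f) (i + 1) = wN n w (i + 1) := by
          rw [wN_ins _ _ _ (by omega), if_pos (by omega)]
        rw [mem_Ins, e0, e1]
        exact ⟨by omega, i2, i3, fun j hj => hv j hj _ i4 c1 c2, fun j hj => hv j hj _ i5 c3 c4⟩
      · simp only [if_neg hik]
        have e0 : wN (n + 2) (ins n w k f) (i + 2) = wN n w i := by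
          rw [wN_ins _ _ _ (by omega), if_neg (by omega), if_neg (by omega), if_neg (by omega)]
          rfl
        have e1 : wN (n + 2) (ins n w k f) (i + 2 + 1) = wN n w (i + 1) := by
          rw [wN_ins _ _ _ (by omega), if_neg (by omega), if_neg (by omega), if_neg (by omega)]
          rfl
        rw [mem_Ins, e0, e1]
        exact ⟨by omega, i2, i3, fun j hj => hv j hj _ i4 c1 c2, fun j hj => hv j hj _ i5 c3 c4⟩
    · rintro ⟨i, g⟩ hi ⟨j, g'⟩ hj hij
      simp only [Prod.mk.injEq] at hij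
      obtain ⟨h1, h2⟩ := hij
      have : i = j := by split_ifs at h1 <;> omega
      rw [this, h2]
  have := Finset.card_le_card_sdiff_add_card (s := Ins n w) (t := B)
  omega

/-! ### The scaled paths are close -/

lemma norm_pt_sub_le {n : ℕ} {w : Fin (n + 1) → ℤ × ℤ} (h : IsSAW n w) {i : ℕ} (d : ℕ)
    (hi : i + d ≤ n) : ‖pt (wN n w (i + d)) - pt (wN n w i)‖ ≤ d := by
  induction d with
  | zero => simp
  | succ d ih =>
    have h1 := ih (by omega)
    have h2 := wN_adj h (k := i + d) (by omega)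
    have h3 : ‖pt (wN n w (i + (d + 1))) - pt (wN n w (i + d))‖ ≤ 1 := by
      have e : pt (wN n w (i + (d + 1))) - pt (wN n w (i + d)) =
          pt (wN n w (i + d + 1) - wN n w (i + d)) := by
        ext j
        fin_cases j <;> simp [pt, add_assoc]
      rw [e]
      refine (norm_pt_le _).trans ?_
      unfold adj at h2
      have : ((|(wN n w (i + d + 1) - wN n w (i + d)).1| +
        |(wN n w (i + d + 1) - wN n w (i + d)).2| : ℤ) : ℝ) = 1 := by
        rw [Prod.fst_sub, Prod.snd_sub, h2]; simp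
      push_cast at this
      exact this.le
    calc ‖pt (wN n w (i + (d + 1))) - pt (wN n w i)‖
        = ‖(pt (wN n w (i + (d + 1))) - pt (wN n w (i + d))) +
          (pt (wN n w (i + d)) - pt (wN n w i))‖ := by rw [sub_add_sub_cancel]
      _ ≤ 1 + d := (norm_add_le _ _).trans (add_le_add h3 h1)
      _ = ((d + 1 : ℕ) : ℝ) := by push_cast; ring

lemma norm_pt_dir_le {f : ℤ × ℤ} (hf : f ∈ dirs) : ‖pt f‖ ≤ 1 := by
  refine (norm_pt_le _).trans ?_
  rw [mem_dirs] at hf
  have : ((|f.1| + |f.2| : ℤ) : ℝ) = 1 := by rw [hf]; simp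
  push_cast at this
  exact this.le

lemma pt_add (p q : ℤ × ℤ) : pt (p + q) = pt p + pt q := by
  ext j
  fin_cases j <;> simp [pt]

/-- the two walks at nearby integer times -/
lemma norm_ins_sub_le {n : ℕ} {w : Fin (n + 1) → ℤ × ℤ} (h : IsSAW n w) {k : ℕ} {f : ℤ × ℤ}
    (hk : k < n) (hf : f ∈ dirs) {i j : ℕ} (hj : j ≤ n) (h1 : j ≤ i + 1) (h2 : i ≤ j + 3)
    (hi : i ≤ n + 2) :
    ‖pt (wN (n + 2) (ins n w k f) i) - pt (wN n w j)‖ ≤ 3 := by
  have key : ∀ a b : ℕ, a ≤ n → b ≤ n → ∀ c : ℕ, a ≤ b + c → b ≤ a + c →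
      ‖pt (wN n w a) - pt (wN n w b)‖ ≤ c := by
    intro a b ha hb c hc1 hc2
    rcases le_total a b with hab | hab
    · obtain ⟨d, rfl⟩ := Nat.exists_eq_add_of_le hab
      rw [norm_sub_rev]
      refine (norm_pt_sub_le h d hb).trans ?_
      exact_mod_cast (by omega : d ≤ c)
    · obtain ⟨d, rfl⟩ := Nat.exists_eq_add_of_le hab
      refine (norm_pt_sub_le h d ha).trans ?_
      exact_mod_cast (by omega : d ≤ c)
  rw [wN_ins _ _ _ hi]
  have hf1 := norm_pt_dir_le hf
  split_ifs with c1 c2 c3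
  · exact_mod_cast key i j (by omega) hj 3 (by omega) (by omega)
  · rw [pt_add, add_sub_right_comm]
    have := key k j (by omega) hj 2 (by omega) (by omega)
    refine (norm_add_le _ _).trans ?_
    push_cast at this
    linarith
  · rw [pt_add, add_sub_right_comm]
    have := key (k + 1) j (by omega) hj 2 (by omega) (by omega)
    refine (norm_add_le _ _).trans ?_
    push_cast at this
    linarith
  · exact_mod_cast key (i - 2) j (by omega) hj 3 (by omega) (by omega)

/-- linear interpolation stays within distance `1` of the left lattice point -/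
lemma interp_close {n : ℕ} {w : Fin (n + 1) → ℤ × ℤ} (h : IsSAW n w) (hn : 1 ≤ n)
    (t : unitInterval) : ∃ j : ℕ, j < n ∧ (j : ℝ) ≤ n * (t : ℝ) ∧ (n : ℝ) * (t : ℝ) ≤ j + 1 ∧
      ‖s n • X n w t - pt (wN n w j)‖ ≤ 1 := by
  obtain ⟨j, hj, h1, h2⟩ := exists_index (by omega : 0 < n) t
  refine ⟨j, hj, h1, h2, ?_⟩
  rw [X_apply w t j hj h1 h2, smul_smul, mul_inv_cancel₀ (s_pos hn).ne', one_smul,
    add_sub_cancel_left, norm_smul, Real.norm_of_nonneg (by linarith)]
  have := norm_pt_sub_le h (i := j) 1 (by omega)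
  push_cast at this
  calc ((n : ℝ) * (t : ℝ) - j) * ‖pt (wN n w (j + 1)) - pt (wN n w j)‖ ≤ 1 * 1 :=
        mul_le_mul (by linarith) this (norm_nonneg _) zero_le_one
    _ = 1 := one_mul 1

/-- **Closeness**: inserting a bump moves the (unscaled) path by at most `5`. -/
theorem ins_close {n : ℕ} {w : Fin (n + 1) → ℤ × ℤ} (h : IsSAW n w) {k : ℕ} {f : ℤ × ℤ}
    (hkf : (k, f) ∈ Ins n w) (t : unitInterval) :
    ‖s (n + 2) • X (n + 2) (ins n w k f) t - s n • X n w t‖ ≤ 5 := by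
  have hk := (mem_Ins.1 hkf).1
  have hf := (mem_Ins.1 hkf).2.1
  obtain ⟨j, j1, j2, j3, j4⟩ := interp_close h (by omega) t
  obtain ⟨i, i1, i2, i3, i4⟩ := interp_close (isSAW_ins h hkf) (by omega) t
  have t0 := t.2.1
  have t1 := t.2.2
  push_cast at i2 i3
  have e1 : j ≤ i + 1 := by
    have : (j : ℝ) ≤ i + 1 := by nlinarith
    exact_mod_cast this
  have e2 : i ≤ j + 3 := by
    have : (i : ℝ) ≤ j + 3 := by nlinarith
    exact_mod_cast this
  have e3 := norm_ins_sub_le h hk hf (by omega : j ≤ n) e1 e2 (by omega)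
  calc ‖s (n + 2) • X (n + 2) (ins n w k f) t - s n • X n w t‖
      = ‖(s (n + 2) • X (n + 2) (ins n w k f) t - pt (wN (n + 2) (ins n w k f) i)) +
        (pt (wN (n + 2) (ins n w k f) i) - pt (wN n w j)) -
        (s n • X n w t - pt (wN n w j))‖ := by congr 1; abel
    _ ≤ 1 + 3 + 1 := (norm_sub_le _ _).trans (add_le_add ((norm_add_le _ _).trans
        (add_le_add i4 e3)) j4)
    _ = 5 := by norm_num

/-- in supremum norm -/
theorem ins_close_norm {n : ℕ} {w : Fin (n + 1) → ℤ × ℤ} (h : IsSAW n w) {k : ℕ} {f : ℤ × ℤ}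
    (hkf : (k, f) ∈ Ins n w) :
    ‖s (n + 2) • X (n + 2) (ins n w k f) - s n • X n w‖ ≤ 5 := by
  rw [ContinuousMap.norm_le _ (by norm_num)]
  intro t
  exact ins_close h hkf t

theorem ins_zero {n : ℕ} (w : Fin (n + 1) → ℤ × ℤ) (k : ℕ) (f : ℤ × ℤ) :
    ins n w k f 0 = w 0 := by
  simp only [ins, Fin.val_zero, Nat.zero_le, if_true]
  rw [w_eq_wN w 0]; rfl

theorem ins_last {n : ℕ} (w : Fin (n + 1) → ℤ × ℤ) {k : ℕ} (f : ℤ × ℤ) (hk : k < n) :
    ins n w k f (Fin.last (n + 2)) = w (Fin.last n) := by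
  simp only [ins, Fin.val_last]
  rw [if_neg (by omega), if_neg (by omega), if_neg (by omega), w_eq_wN w (Fin.last n)]
  rfl

theorem del_close_norm {n : ℕ} {v : Fin (n + 2 + 1) → ℤ × ℤ} (h : IsSAW (n + 2) v) {k : ℕ}
    (hk : k ∈ Del (n + 2) v) : ‖s (n + 2) • X (n + 2) v - s n • X n (del n v k)‖ ≤ 5 := by
  have := ins_close_norm (isSAW_del h hk) (mem_Ins_del h hk)
  rwa [ins_del h hk] at this

/-! ### Trivial bounds -/

theorem card_Del_le {n : ℕ} (w : Fin (n + 1) → ℤ × ℤ) : (Del n w).card ≤ n - 2 := by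
  refine (Finset.card_filter_le _ _).trans ?_
  rw [Finset.card_range]

theorem card_Ins_le {n : ℕ} (w : Fin (n + 1) → ℤ × ℤ) : (Ins n w).card ≤ 4 * n := by
  refine (Finset.card_filter_le _ _).trans ?_
  have h4 : dirs.card = 4 := by decide
  rw [Finset.card_product, Finset.card_range, h4]
  omega

end Pool.Agent.SawLim
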