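import Pool.Agent.SawLim.Criterion

/-!
Comparison of the laws of `n`-step and `(n+1)`-step self-avoiding walks.
-/

set_option autoImplicit false

open Pool.Agent.SawKes

namespace Pool.Agent.SawLim

/-! ### Removing the last step -/

/-- the walk without its last step -/
def ini (n : ℕ) (v : Fin (n + 1 + 1) → ℤ × ℤ) : Fin (n + 1) → ℤ × ℤ := fun j => v j.castSucc

lemma wN_ini {n : ℕ} (v : Fin (n + 1 + 1) → ℤ × ℤ) {j : ℕ} (hj : j ≤ n) :
    wN n (ini n v) j = wN (n + 1) v j := by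
  rw [wN_of_le _ hj, wN_of_le _ (by omega)]
  rfl

lemma isSAW_ini {n : ℕ} {v : Fin (n + 1 + 1) → ℤ × ℤ} (h : IsSAW (n + 1) v) :
    IsSAW n (ini n v) := by
  apply isSAW_of (fun j => wN (n + 1) v j)
  · intro j
    rw [w_eq_wN (ini n v) j, wN_ini v (by have := j.2; omega)]
  · exact wN_zero h
  · intro k hk
    exact wN_adj h (by omega)
  · intro i j hij hj he
    have := wN_inj h (by omega) (by omega) he
    omega

lemma ini_inj {n : ℕ} {v v' : Fin (n + 1 + 1) → ℤ × ℤ} (h : ini n v = ini n v')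
    (h' : wN (n + 1) v (n + 1) = wN (n + 1) v' (n + 1)) : v = v' := by
  funext j
  rw [w_eq_wN v, w_eq_wN v']
  rcases Nat.lt_or_ge (j : ℕ) (n + 1) with hj | hj
  · rw [← wN_ini v (by omega), ← wN_ini v' (by omega), h]
  · have : (j : ℕ) = n + 1 := by have := j.2; omega
    rw [this]; exact h'

/-- a walk of length `≥ 1` has at most `3` extensions by one step -/
lemma card_ext_le {n : ℕ} (hn : 1 ≤ n) (w : Fin (n + 1) → ℤ × ℤ) :
    ((saws (n + 1)).filter fun v => ini n v = w).card ≤ 3 := by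
  classical
  rcases ((saws (n + 1)).filter fun v => ini n v = w).eq_empty_or_nonempty with h0 | ⟨v0, hv0⟩
  · rw [h0]; simp
  have hd : (dirs.erase (wN n w (n - 1) - wN n w n)).card ≤ 3 := by
    have h4 : dirs.card = 4 := by decide
    have hmem : wN n w (n - 1) - wN n w n ∈ dirs := by
      rw [Finset.mem_filter, mem_saws] at hv0
      have h1 := wN_adj (isSAW_ini hv0.1) (k := n - 1) (by omega)
      rw [hv0.2, show n - 1 + 1 = n by omega, adj_comm, adj_iff] at h1
      exact h1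
    rw [Finset.card_erase_of_mem hmem, h4]
  refine le_trans ?_ hd
  apply Finset.card_le_card_of_injOn (fun v => wN (n + 1) v (n + 1) - wN (n + 1) v n)
  · intro v hv
    rw [Finset.mem_coe, Finset.mem_filter, mem_saws] at hv
    obtain ⟨hv1, hv2⟩ := hv
    rw [Finset.mem_coe, Finset.mem_erase]
    constructor
    · intro he
      have e1 : wN n w n = wN (n + 1) v n := by rw [← hv2]; exact wN_ini v le_rfl
      have e2 : wN n w (n - 1) = wN (n + 1) v (n - 1) := by rw [← hv2]; exact wN_ini v (by omega)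
      rw [e1, e2] at he
      have h3 := sub_left_inj.1 he
      have := wN_inj hv1 le_rfl (by omega) h3
      omega
    · have h1 := wN_adj hv1 (k := n) (by omega)
      rwa [adj_iff] at h1
  · intro v hv v' hv' he
    rw [Finset.mem_coe, Finset.mem_filter] at hv hv'
    apply ini_inj (hv.2.trans hv'.2.symm)
    have e1 : wN (n + 1) v n = wN n w n := by rw [← hv.2]; exact (wN_ini v le_rfl).symm
    have e2 : wN (n + 1) v' n = wN n w n := by rw [← hv'.2]; exact (wN_ini v' le_rfl).symm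
    simp only [e1, e2] at he
    exact sub_left_inj.1 he

lemma sum_ini_le {n : ℕ} (hn : 1 ≤ n) (f : (Fin (n + 1) → ℤ × ℤ) → ℝ)
    (hf : ∀ w ∈ saws n, 0 ≤ f w) :
    ∑ v ∈ saws (n + 1), f (ini n v) ≤ 3 * ∑ w ∈ saws n, f w := by
  classical
  rw [← Finset.sum_fiberwise_of_maps_to (s := saws (n + 1)) (t := saws n) (g := ini n)
    (fun v hv => mem_saws.2 (isSAW_ini (mem_saws.1 hv))), Finset.mul_sum]
  apply Finset.sum_le_sum
  intro w hw
  have h1 : ∑ v ∈ saws (n + 1) with ini n v = w, f (ini n v) =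
      (((saws (n + 1)).filter fun v => ini n v = w).card : ℝ) * f w := by
    rw [← nsmul_eq_mul, ← Finset.sum_const]
    apply Finset.sum_congr rfl
    intro v hv
    rw [(Finset.mem_filter.1 hv).2]
  rw [h1]
  apply mul_le_mul_of_nonneg_right _ (hf w hw)
  exact_mod_cast card_ext_le hn w

lemma cN_succ_le {n : ℕ} (hn : 1 ≤ n) : cN (n + 1) ≤ 3 * cN n := by
  have := sum_ini_le hn (fun _ => 1) (fun _ _ => zero_le_one)
  simp only [Finset.sum_const, nsmul_eq_mul, mul_one] at this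
  rwa [cN_eq, cN_eq]

/-- averages of nonnegative functions of the walk without its last step -/
lemma avg_ini_le {n : ℕ} (hn : 1 ≤ n) (f : (Fin (n + 1) → ℤ × ℤ) → ℝ)
    (hf : ∀ w ∈ saws n, 0 ≤ f w) :
    avg (n + 1) (fun v => f (ini n v)) ≤ 3 * (cN n / cN (n + 1)) * avg n f := by
  have h := sum_ini_le hn f hf
  have h1 := cN_pos n
  have h2 := cN_pos (n + 1)
  rw [avg_eq, avg_eq, ← cN_eq, ← cN_eq, div_le_iff₀ h2]
  have e : 3 * (cN n / cN (n + 1)) * ((∑ w ∈ saws n, f w) / cN n) * cN (n + 1) =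
      3 * ∑ w ∈ saws n, f w := by
    field_simp
  rw [e]
  exact h

/-! ### The scaled paths are close -/

theorem ini_close {n : ℕ} (hn : 1 ≤ n) {v : Fin (n + 1 + 1) → ℤ × ℤ} (h : IsSAW (n + 1) v) :
    ‖s (n + 1) • X (n + 1) v - s n • X n (ini n v)‖ ≤ 4 := by
  rw [ContinuousMap.norm_le _ (by norm_num)]
  intro t
  show ‖s (n + 1) • X (n + 1) v t - s n • X n (ini n v) t‖ ≤ 4
  have h' := isSAW_ini h
  obtain ⟨j, j1, j2, j3, j4⟩ := interp_close h' hn t
  obtain ⟨i, i1, i2, i3, i4⟩ := interp_close h (by omega) t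
  have t0 := t.2.1
  have t1 := t.2.2
  push_cast at i2 i3
  have e1 : j ≤ i + 2 := by
    have : (j : ℝ) ≤ i + 2 := by nlinarith
    exact_mod_cast this
  have e2 : i ≤ j + 2 := by
    have : (i : ℝ) ≤ j + 2 := by nlinarith
    exact_mod_cast this
  rw [wN_ini v (by omega)] at j4
  have key : ‖pt (wN (n + 1) v i) - pt (wN (n + 1) v j)‖ ≤ 2 := by
    rcases le_total i j with hij | hij
    · obtain ⟨d, rfl⟩ := Nat.exists_eq_add_of_le hij
      rw [norm_sub_rev]
      refine (norm_pt_sub_le h d (by omega)).trans ?_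
      exact_mod_cast (by omega : d ≤ 2)
    · obtain ⟨d, rfl⟩ := Nat.exists_eq_add_of_le hij
      refine (norm_pt_sub_le h d (by omega)).trans ?_
      exact_mod_cast (by omega : d ≤ 2)
  calc ‖s (n + 1) • X (n + 1) v t - s n • X n (ini n v) t‖
      = ‖(s (n + 1) • X (n + 1) v t - pt (wN (n + 1) v i)) +
        (pt (wN (n + 1) v i) - pt (wN (n + 1) v j)) -
        (s n • X n (ini n v) t - pt (wN (n + 1) v j))‖ := by congr 1; abel
    _ ≤ 1 + 2 + 1 := (norm_sub_le _ _).trans (add_le_add ((norm_add_le _ _).trans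
        (add_le_add i4 key)) j4)
    _ = 4 := by norm_num

/-- expectation of `F(b ω)`, `ω` the interpolated lattice path -/
noncomputable def EF (F : C(unitInterval, EuclideanSpace ℝ (Fin 2)) → ℝ) (b : ℝ) (n : ℕ) : ℝ :=
  avg n (fun w => F ((b * s n) • X n w))

lemma lip_abs {F : C(unitInterval, EuclideanSpace ℝ (Fin 2)) → ℝ} (hF : LipschitzWith 1 F)
    (x y : C(unitInterval, EuclideanSpace ℝ (Fin 2))) : |F x - F y| ≤ ‖x - y‖ := by
  have := hF.dist_le_mul x y
  rwa [Real.dist_eq, dist_eq_norm, NNReal.coe_one, one_mul] at this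

/-- one more step: upper bound -/
theorem EF_succ_le {F : C(unitInterval, EuclideanSpace ℝ (Fin 2)) → ℝ} (hF : LipschitzWith 1 F)
    (h0 : ∀ x, 0 ≤ F x) {b : ℝ} (hb : 0 ≤ b) {n : ℕ} (hn : 1 ≤ n) :
    EF F b (n + 1) ≤ 3 * (cN n / cN (n + 1)) * EF F b n + 4 * b := by
  have h1 := avg_ini_le hn (fun w => F ((b * s n) • X n w)) (fun _ _ => h0 _)
  have h2 : EF F b (n + 1) ≤ avg (n + 1) (fun v => 4 * b + 1 * F ((b * s n) • X n (ini n v))) := by
    apply avg_mono
    intro v hv
    have h3 := ini_close hn (mem_saws.1 hv)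
    have h4 := lip_abs hF ((b * s (n + 1)) • X (n + 1) v) ((b * s n) • X n (ini n v))
    have h5 : (b * s (n + 1)) • X (n + 1) v - (b * s n) • X n (ini n v) =
        b • (s (n + 1) • X (n + 1) v - s n • X n (ini n v)) := by
      rw [smul_sub, smul_smul, smul_smul]
    rw [h5, norm_smul, Real.norm_of_nonneg hb] at h4
    have h6 : b * ‖s (n + 1) • X (n + 1) v - s n • X n (ini n v)‖ ≤ b * 4 :=
      mul_le_mul_of_nonneg_left h3 hb
    have h7 := (abs_le.1 h4).2
    linarith
  rw [avg_add_const] at h2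
  unfold EF at h1 h2 ⊢
  linarith

/-- two more steps: comparison -/
theorem EF_two {n : ℕ} {m2 a e : ℝ} (hm : 1 ≤ m2) (ha : 0 < a) (hn : 1 ≤ n)
    (hna : 8 * m2 ≤ a * n) (hen : 1 / (n : ℝ) ≤ e) (he : KC m2 a * e ≤ 1 / 2)
    (hB : Balanced n m2 a e)
    {F : C(unitInterval, EuclideanSpace ℝ (Fin 2)) → ℝ} (hF : LipschitzWith 1 F)
    (hF1 : ∀ x, |F x| ≤ 1) {b : ℝ} (hb : 0 ≤ b) :
    |EF F b (n + 2) - EF F b n| ≤ 4 * KC m2 a * (5 * b + 2 * e) := by
  have hn1 : (1 : ℝ) ≤ n := by exact_mod_cast hn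
  have h8 := eight_le_KC hm ha
  have he0 : 0 ≤ e := le_trans (by positivity) hen
  have h := transfer_avg hm ha hn hna hen he hB 1
    (fun v => F ((b * s (n + 2)) • X (n + 2) v)) (fun w => F ((b * s n) • X n w))
    (fun _ => 5 * b) (fun _ _ => hF1 _) (fun _ _ => hF1 _) (fun _ _ => by positivity)
    (fun w hw p hp => by
      have h1 := ins_close_norm (mem_saws.1 hw) (show (p.1, p.2) ∈ Ins n w from hp)
      have h4 := lip_abs hF ((b * s (n + 2)) • X (n + 2) (ins n w p.1 p.2)) ((b * s n) • X n w)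
      have h5 : (b * s (n + 2)) • X (n + 2) (ins n w p.1 p.2) - (b * s n) • X n w =
          b • (s (n + 2) • X (n + 2) (ins n w p.1 p.2) - s n • X n w) := by
        rw [smul_sub, smul_smul, smul_smul]
      rw [h5, norm_smul, Real.norm_of_nonneg hb] at h4
      refine h4.trans ?_
      have h6 := mul_le_mul_of_nonneg_left h1 hb
      linarith)
  refine h.trans ?_
  apply mul_le_mul_of_nonneg_left _ (by linarith)
  have hc := card_saws_pos n
  have k1 : avg n (fun _ : Fin (n + 1) → ℤ × ℤ => 5 * b) = 5 * b := by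
    rw [avg_eq, Finset.sum_const, nsmul_eq_mul]
    field_simp
  have k2 : avg n (fun w : Fin (n + 1) → ℤ × ℤ => |F ((b * s n) • X n w)|) ≤ 1 := by
    have : avg n (fun w : Fin (n + 1) → ℤ × ℤ => |F ((b * s n) • X n w)|) ≤
        avg n (fun _ : Fin (n + 1) → ℤ × ℤ => (1 : ℝ)) := avg_mono (fun _ _ => hF1 _)
    refine this.trans (le_of_eq ?_)
    rw [avg_eq, Finset.sum_const, nsmul_eq_mul]
    field_simp
  have k3 : 1 / (n : ℝ) ^ 3 ≤ e := by
    refine le_trans ?_ hen
    apply one_div_le_one_div_of_le (by linarith)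
    calc (n : ℝ) = (n : ℝ) ^ 1 := (pow_one _).symm
      _ ≤ (n : ℝ) ^ 3 := pow_le_pow_right₀ hn1 (by norm_num)
  rw [k1]
  have k4 := mul_le_mul_of_nonneg_left k2 he0
  linarith

end Pool.Agent.SawLim
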