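import Pool.Agent.SawLim.Parity

/-!
Comparison of the laws of `n`-step and `(n+1)`-step self-avoiding walks: quantitative form and
limit form.
-/

set_option autoImplicit false

open Pool.Agent.SawKes MeasureTheory Filter Topology

namespace Pool.Agent.SawLim

/-! ### Measures compared through Lipschitz functions -/

theorem measure_le_of_lip {Ω : Type*} [PseudoMetricSpace Ω] [MeasurableSpace Ω] [BorelSpace Ω]
    (P Q : Measure Ω) [IsFiniteMeasure P] [IsFiniteMeasure Q] (c : ℝ) (hc : 0 ≤ c)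
    (h : ∀ F : Ω → ℝ, LipschitzWith 1 F → (∀ x, 0 ≤ F x) → (∀ x, F x ≤ 1) →
      ∫ x, F x ∂P ≤ c * ∫ x, F x ∂Q) (A : Set Ω) (hA : MeasurableSet A) :
    P A ≤ ENNReal.ofReal c * Q A := by
  have hclosed : ∀ K : Set Ω, IsClosed K → P K ≤ ENNReal.ofReal c * Q K := by
    intro K hK
    have hpos : ∀ n : ℕ, (0 : ℝ) < 1 / ((n : ℝ) + 1) := fun n => by positivity
    have hlim : Tendsto (fun n : ℕ => 1 / ((n : ℝ) + 1)) atTop (𝓝 0) :=
      tendsto_one_div_add_atTop_nhds_zero_nat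
    have tP := tendsto_integral_thickenedIndicator_of_isClosed P hK hpos hlim
    have tQ := tendsto_integral_thickenedIndicator_of_isClosed Q hK hpos hlim
    have hle : P.real K ≤ c * Q.real K := by
      apply le_of_tendsto_of_tendsto' tP (tQ.const_mul c)
      intro n
      have hd := hpos n
      set d : ℝ := 1 / ((n : ℝ) + 1) with hdef
      have hd1 : d ≤ 1 := by
        rw [hdef, div_le_one (by positivity)]
        have : (0 : ℝ) ≤ n := Nat.cast_nonneg n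
        linarith
      have hlip := lipschitzWith_thickenedIndicator hd K
      have h1 := h (fun x => d * (thickenedIndicator hd K x : ℝ))
        (by
          apply LipschitzWith.of_dist_le_mul
          intro x y
          have h2 := hlip.dist_le_mul x y
          rw [NNReal.dist_eq, NNReal.coe_inv, Real.coe_toNNReal _ hd.le] at h2
          rw [Real.dist_eq, ← mul_sub, abs_mul, abs_of_pos hd, NNReal.coe_one, one_mul]
          calc d * |(thickenedIndicator hd K x : ℝ) - (thickenedIndicator hd K y : ℝ)|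
              ≤ d * (d⁻¹ * dist x y) := mul_le_mul_of_nonneg_left h2 hd.le
            _ = dist x y := by field_simp)
        (fun x => by positivity)
        (fun x => by
          have : (thickenedIndicator hd K x : ℝ) ≤ 1 := by
            exact_mod_cast thickenedIndicator_le_one hd K x
          have h0 : (0 : ℝ) ≤ thickenedIndicator hd K x := NNReal.coe_nonneg _
          nlinarith)
      rw [integral_const_mul, integral_const_mul] at h1
      have h3 : d * (∫ x, (thickenedIndicator hd K x : ℝ) ∂P) ≤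
          d * (c * ∫ x, (thickenedIndicator hd K x : ℝ) ∂Q) := by linarith
      exact le_of_mul_le_mul_left h3 hd
    rw [← ofReal_measureReal (μ := P) (s := K), ← ofReal_measureReal (μ := Q) (s := K),
      ← ENNReal.ofReal_mul hc]
    exact ENNReal.ofReal_le_ofReal hle
  rw [hA.measure_eq_iSup_isClosed_of_ne_top (measure_ne_top P A)]
  refine iSup_le fun K => iSup_le fun hKA => iSup_le fun hK => ?_
  refine (hclosed K hK).trans ?_
  gcongr

/-! ### The quantitative comparison -/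

theorem parity_large (δ : ℝ) (hδ : 0 < δ) (hδ' : δ < 1 / 2) : ∃ C₁ C₀ : ℝ, ∃ N : ℕ, 0 ≤ C₁ ∧
    ∀ n : ℕ, N ≤ n → 1 ≤ n →
    ∀ F : C(unitInterval, EuclideanSpace ℝ (Fin 2)) → ℝ, LipschitzWith 1 F → (∀ x, 0 ≤ F x) →
      (∀ x, F x ≤ 1) → ∀ b : ℝ, 0 ≤ b →
      EF F b (n + 1) ≤ 9 / mu ^ 2 * EF F b n + C₁ * b + C₀ * (n : ℝ) ^ (δ - 1 / 2) ∧
      EF F b n ≤ 9 / mu ^ 2 * EF F b (n + 1) + C₁ * b + C₀ * (n : ℝ) ^ (δ - 1 / 2) := by
  obtain ⟨a, ha, _, hbal⟩ := balanced_large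
  obtain ⟨N₁, h₁⟩ := hbal δ hδ hδ'
  obtain ⟨C, hC, hR⟩ := merging_aux δ hδ hδ'
  have hm : 1 ≤ mu ^ 2 := one_le_pow₀ one_le_mu
  obtain ⟨K, hKdef⟩ : ∃ K, K = KC (mu ^ 2) a := ⟨_, rfl⟩
  have h8 : 8 ≤ K := by rw [hKdef]; exact eight_le_KC hm ha
  obtain ⟨N₂, h₂⟩ : ∃ N : ℕ, ∀ n : ℕ, N ≤ n → (n : ℝ) ^ (δ - 1 / 2) ≤ 1 / (2 * K + 2 * C + 1) := by
    have h : Filter.Tendsto (fun n : ℕ => (n : ℝ) ^ (-(1 / 2 - δ))) Filter.atTop (nhds 0) :=
      (tendsto_rpow_neg_atTop (by linarith : 0 < 1 / 2 - δ)).comp tendsto_natCast_atTop_atTop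
    have h3 := h.eventually (ge_mem_nhds (show (0 : ℝ) < 1 / (2 * K + 2 * C + 1) by positivity))
    obtain ⟨N, hN⟩ := Filter.eventually_atTop.1 h3
    refine ⟨N, fun n hn => ?_⟩
    have := hN n hn
    rwa [neg_sub] at this
  obtain ⟨N₃, h₃⟩ : ∃ N : ℕ, ∀ n : ℕ, N ≤ n → 8 * mu ^ 2 ≤ a * n := by
    obtain ⟨N, hN⟩ := exists_nat_ge (8 * mu ^ 2 / a)
    refine ⟨N, fun n hn => ?_⟩
    have : (N : ℝ) ≤ n := by exact_mod_cast hn
    have h3 : 8 * mu ^ 2 / a ≤ n := hN.trans this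
    rw [div_le_iff₀ ha] at h3
    linarith
  refine ⟨4 + 20 * K, 18 * C + 8 * K, max N₁ (max N₂ N₃), by linarith,
    fun n hn hn1 F hF hF0 hF1 b hb => ?_⟩
  have k1 := h₁ n ((le_max_left _ _).trans hn)
  have k2 := h₂ n (((le_max_left _ _).trans (le_max_right _ _)).trans hn)
  have k3 := h₃ n (((le_max_right _ _).trans (le_max_right _ _)).trans hn)
  have k4 := (hR n hn1).1
  have hnr : (1 : ℝ) ≤ n := by exact_mod_cast hn1
  have hn0 : (0 : ℝ) < n := by linarith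
  have hen : 1 / (n : ℝ) ≤ (n : ℝ) ^ (δ - 1 / 2) := by
    rw [one_div, ← Real.rpow_neg_one]
    exact Real.rpow_le_rpow_of_exponent_le hnr (by linarith)
  have hE0 : 0 < (n : ℝ) ^ (δ - 1 / 2) := Real.rpow_pos_of_pos hn0 _
  set e : ℝ := (n : ℝ) ^ (δ - 1 / 2) with he
  rw [le_div_iff₀ (by positivity)] at k2
  have hKe : K * e ≤ 1 / 2 := by nlinarith
  have hCe : C * e ≤ 1 / 2 := by nlinarith
  -- the ratio
  obtain ⟨ρ, hρ⟩ : ∃ ρ, ρ = cN (n + 2) / cN n := ⟨_, rfl⟩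
  rw [← hρ] at k4
  have hρ1 : 1 / 2 ≤ ρ := by
    have := (abs_le.1 k4).1
    linarith
  have c0 := cN_pos n
  have c1 := cN_pos (n + 1)
  have c2 := cN_pos (n + 2)
  have hmu0 : 0 < mu ^ 2 := by linarith
  have r1 : 9 / ρ ≤ 9 / mu ^ 2 + 18 * C * e := by
    have hρ0 : 0 < ρ := by linarith
    have e1 : 9 / ρ - 9 / mu ^ 2 = 9 * (mu ^ 2 - ρ) / (ρ * mu ^ 2) := by
      rw [div_sub_div _ _ hρ0.ne' hmu0.ne']
      congr 1; ring
    have e2 : 9 * (mu ^ 2 - ρ) / (ρ * mu ^ 2) ≤ 18 * (C * e) := by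
      rw [div_le_iff₀ (by positivity)]
      have e3 : mu ^ 2 - ρ ≤ C * e := by linarith [(abs_le.1 k4).1]
      have e4 : (1 : ℝ) / 2 ≤ ρ * mu ^ 2 := by nlinarith
      have e5 : 0 ≤ C * e := by positivity
      nlinarith
    linarith
  have q1 : 3 * (cN n / cN (n + 1)) ≤ 9 / ρ := by
    have := cN_succ_le (n := n + 1) (by omega)
    rw [hρ, ← mul_div_assoc, div_le_div_iff₀ c1 (by positivity)]
    have e1 : 3 * cN n * (cN (n + 2) / cN n) = 3 * cN (n + 2) := by field_simp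
    rw [e1]
    have e2 : cN (n + 2) ≤ 3 * cN (n + 1) := this
    linarith
  have q2 : 3 * (cN (n + 1) / cN (n + 2)) ≤ 9 / ρ := by
    have := cN_succ_le hn1
    have e1 : 9 / ρ = 9 * cN n / cN (n + 2) := by
      rw [hρ]; field_simp
    rw [e1, ← mul_div_assoc]
    apply div_le_div_of_nonneg_right _ c2.le
    linarith
  have EF0 : ∀ m, 0 ≤ EF F b m := fun m => avg_nonneg (fun _ _ => hF0 _)
  have EF1 : ∀ m, EF F b m ≤ 1 := by
    intro m
    have h1 : EF F b m ≤ avg m (fun _ => (1 : ℝ)) := avg_mono (fun _ _ => hF1 _)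
    refine h1.trans (le_of_eq ?_)
    rw [avg_eq, Finset.sum_const, nsmul_eq_mul]
    have := card_saws_pos m
    field_simp
  have hFabs : ∀ x, |F x| ≤ 1 := fun x => by rw [abs_of_nonneg (hF0 x)]; exact hF1 x
  have hCe0 : 0 ≤ 18 * C * e := by positivity
  constructor
  · have s1 := EF_succ_le hF hF0 hb hn1
    have s2 : 3 * (cN n / cN (n + 1)) * EF F b n ≤ (9 / mu ^ 2 + 18 * C * e) * EF F b n :=
      mul_le_mul_of_nonneg_right (q1.trans r1) (EF0 n)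
    have s3 : 18 * C * e * EF F b n ≤ 18 * C * e := by
      have := mul_le_mul_of_nonneg_left (EF1 n) hCe0
      linarith
    have s4 : 0 ≤ 20 * K * b := by positivity
    have s5 : 0 ≤ 8 * K * e := by positivity
    linarith
  · have s0 := EF_two hm ha hn1 k3 hen (by rw [← hKdef]; exact hKe) k1 hF hFabs hb
    rw [← hKdef] at s0
    have s1 := EF_succ_le hF hF0 hb (n := n + 1) (by omega)
    have s1' : EF F b (n + 2) ≤ 3 * (cN (n + 1) / cN (n + 2)) * EF F b (n + 1) + 4 * b := s1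
    have s2 : 3 * (cN (n + 1) / cN (n + 2)) * EF F b (n + 1) ≤
        (9 / mu ^ 2 + 18 * C * e) * EF F b (n + 1) :=
      mul_le_mul_of_nonneg_right (q2.trans r1) (EF0 _)
    have s3 : 18 * C * e * EF F b (n + 1) ≤ 18 * C * e := by
      have := mul_le_mul_of_nonneg_left (EF1 (n + 1)) hCe0
      linarith
    have s4 := (abs_le.1 s0).1
    linarith

theorem parity_quant (δ : ℝ) (hδ : 0 < δ) (hδ' : δ < 1 / 2) : ∃ C : ℝ, 0 ≤ C ∧
    ∀ n : ℕ, 1 ≤ n →
    ∀ F : C(unitInterval, EuclideanSpace ℝ (Fin 2)) → ℝ, LipschitzWith 1 F → (∀ x, 0 ≤ F x) →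
      (∀ x, F x ≤ 1) → ∀ b : ℝ, 0 ≤ b →
      EF F b (n + 1) ≤ 9 / mu ^ 2 * EF F b n + C * (b + (n : ℝ) ^ (δ - 1 / 2)) ∧
      EF F b n ≤ 9 / mu ^ 2 * EF F b (n + 1) + C * (b + (n : ℝ) ^ (δ - 1 / 2)) := by
  obtain ⟨C₁, C₀, N, hC₁, h⟩ := parity_large δ hδ hδ'
  have hmu0 : 0 < mu ^ 2 := pow_pos mu_pos 2
  let ι := {p : (C(unitInterval, EuclideanSpace ℝ (Fin 2)) → ℝ) × ℝ //
    LipschitzWith 1 p.1 ∧ (∀ x, 0 ≤ p.1 x) ∧ (∀ x, p.1 x ≤ 1) ∧ 0 ≤ p.2}
  have EF0 : ∀ (i : ι) m, 0 ≤ EF i.1.1 i.1.2 m := fun i m => avg_nonneg (fun _ _ => i.2.2.1 _)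
  have EF1 : ∀ (i : ι) m, EF i.1.1 i.1.2 m ≤ 1 := by
    intro i m
    have h1 : EF i.1.1 i.1.2 m ≤ avg m (fun _ => (1 : ℝ)) := avg_mono (fun _ _ => i.2.2.2.1 _)
    refine h1.trans (le_of_eq ?_)
    rw [avg_eq, Finset.sum_const, nsmul_eq_mul]
    have := card_saws_pos m
    field_simp
  obtain ⟨D1, p1, h1⟩ := extend_rpow (ι := ι)
    (fun i n => EF i.1.1 i.1.2 (n + 1) - 9 / mu ^ 2 * EF i.1.1 i.1.2 n - C₁ * i.1.2)
    (fun _ => 1) (δ - 1 / 2) C₀ N
    (fun i n hn hn1 => by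
      have := (h n hn hn1 i.1.1 i.2.1 i.2.2.1 i.2.2.2.1 i.1.2 i.2.2.2.2).1
      linarith)
    (fun i n hn => by
      have a1 := EF1 i (n + 1)
      have a2 : 0 ≤ 9 / mu ^ 2 * EF i.1.1 i.1.2 n := mul_nonneg (by positivity) (EF0 i n)
      have a3 : 0 ≤ C₁ * i.1.2 := mul_nonneg hC₁ i.2.2.2.2
      linarith)
  obtain ⟨D2, p2, h2⟩ := extend_rpow (ι := ι)
    (fun i n => EF i.1.1 i.1.2 n - 9 / mu ^ 2 * EF i.1.1 i.1.2 (n + 1) - C₁ * i.1.2)
    (fun _ => 1) (δ - 1 / 2) C₀ N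
    (fun i n hn hn1 => by
      have := (h n hn hn1 i.1.1 i.2.1 i.2.2.1 i.2.2.2.1 i.1.2 i.2.2.2.2).2
      linarith)
    (fun i n hn => by
      have a1 := EF1 i n
      have a2 : 0 ≤ 9 / mu ^ 2 * EF i.1.1 i.1.2 (n + 1) := mul_nonneg (by positivity) (EF0 i (n + 1))
      have a3 : 0 ≤ C₁ * i.1.2 := mul_nonneg hC₁ i.2.2.2.2
      linarith)
  refine ⟨C₁ + D1 + D2, by linarith, fun n hn F hF hF0 hF1 b hb => ?_⟩
  have hn0 : (0 : ℝ) < n := by exact_mod_cast hn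
  have hE : 0 < (n : ℝ) ^ (δ - 1 / 2) := Real.rpow_pos_of_pos hn0 _
  have g1 := h1 ⟨(F, b), hF, hF0, hF1, hb⟩ n hn
  have g2 := h2 ⟨(F, b), hF, hF0, hF1, hb⟩ n hn
  simp only at g1 g2
  have m1 := mul_nonneg hC₁ hE.le
  have m2 := mul_nonneg p1 hE.le
  have m3 := mul_nonneg p2 hE.le
  have m4 := mul_nonneg p1 hb
  have m5 := mul_nonneg p2 hb
  constructor <;> nlinarith

end Pool.Agent.SawLim
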