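import Pool.Agent.SawLim.Defs

/-!
The three measures of size of a self-avoiding walk on the square lattice.
-/

set_option autoImplicit false

namespace Pool.Agent.SawLim

/-- squared end-to-end distance `|w(n) - w(0)|²` -/
noncomputable def Re2 (n : ℕ) (w : Fin (n + 1) → ℤ × ℤ) : ℝ := ‖pt (w (Fin.last n)) - pt (w 0)‖ ^ 2

/-- squared radius of gyration `(1/(2(n+1)²)) Σ_{i,j} |w(i) - w(j)|²` -/
noncomputable def Rg2 (n : ℕ) (w : Fin (n + 1) → ℤ × ℤ) : ℝ :=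
  (∑ i, ∑ j, ‖pt (w i) - pt (w j)‖ ^ 2) / (2 * ((n : ℝ) + 1) ^ 2)

/-- squared monomer-endpoint distance `(1/(2(n+1))) Σ_i (|w(i) - w(0)|² + |w(i) - w(n)|²)` -/
noncomputable def Rm2 (n : ℕ) (w : Fin (n + 1) → ℤ × ℤ) : ℝ :=
  (∑ i, (‖pt (w i) - pt (w 0)‖ ^ 2 + ‖pt (w i) - pt (w (Fin.last n))‖ ^ 2)) / (2 * ((n : ℝ) + 1))

end Pool.Agent.SawLim
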