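import Pool.Agent.SawLim.Parity3
import Pool.Agent.SawLim.MuInf
import Pool.Agent.SawLim.SizeDefs

/-!
The three measures of size of planar self-avoiding walks under the moves.
-/

set_option autoImplicit false

open Pool.Agent.SawKes

namespace Pool.Agent.SawLim

/-- sum of squared distances of the sites from a point -/
noncomputable def QS (n : ℕ) (w : Fin (n + 1) → ℤ × ℤ) (p : ℤ × ℤ) : ℝ :=
  ∑ i, ‖pt (w i) - pt p‖ ^ 2

/-- sum of all squared mutual distances -/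
noncomputable def TS (n : ℕ) (w : Fin (n + 1) → ℤ × ℤ) : ℝ := ∑ j, QS n w (w j)

lemma pt_zero : pt 0 = 0 := by
  ext j; fin_cases j <;> simp [pt]

lemma pt_neg (p : ℤ × ℤ) : pt (-p) = -pt p := by
  ext j; fin_cases j <;> simp [pt]

lemma pt_sub (p q : ℤ × ℤ) : pt (p - q) = pt p - pt q := by
  ext j; fin_cases j <;> simp [pt]

/-- insertion adds two sites -/
lemma sum_ins {n : ℕ} (w : Fin (n + 1) → ℤ × ℤ) {k : ℕ} (f : ℤ × ℤ) (hk : k < n)
    (G : ℤ × ℤ → ℝ) :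
    ∑ j, G (ins n w k f j) = ∑ j, G (w j) + (G (wN n w k + f) + G (wN n w (k + 1) + f)) := by
  have e1 : ∑ j, G (ins n w k f j) = ∑ j ∈ Finset.range (n + 2 + 1), G (wN (n + 2) (ins n w k f) j) := by
    rw [Finset.sum_range]
    apply Finset.sum_congr rfl
    intro j _
    rw [w_eq_wN (ins n w k f) j]
  have e2 : ∑ j, G (w j) = ∑ j ∈ Finset.range (n + 1), G (wN n w j) := by
    rw [Finset.sum_range]
    apply Finset.sum_congr rfl
    intro j _
    rw [w_eq_wN w j]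
  rw [e1, e2, ← Finset.sum_range_add_sum_Ico _ (show k + 1 ≤ n + 2 + 1 by omega),
    ← Finset.sum_range_add_sum_Ico _ (show k + 1 ≤ n + 1 by omega)]
  have h1 : ∑ j ∈ Finset.range (k + 1), G (wN (n + 2) (ins n w k f) j) =
      ∑ j ∈ Finset.range (k + 1), G (wN n w j) := by
    apply Finset.sum_congr rfl
    intro j hj
    rw [Finset.mem_range] at hj
    rw [wN_ins _ _ _ (by omega), if_pos (by omega)]
  have h2 : ∑ j ∈ Finset.Ico (k + 1) (n + 2 + 1), G (wN (n + 2) (ins n w k f) j) =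
      (G (wN n w k + f) + G (wN n w (k + 1) + f)) +
      ∑ j ∈ Finset.Ico (k + 1) (n + 1), G (wN n w j) := by
    rw [Finset.sum_eq_sum_Ico_succ_bot (by omega), Finset.sum_eq_sum_Ico_succ_bot (by omega),
      ← add_assoc]
    have h3 : wN (n + 2) (ins n w k f) (k + 1) = wN n w k + f := by
      rw [wN_ins _ _ _ (by omega), if_neg (by omega), if_pos rfl]
    have h4 : wN (n + 2) (ins n w k f) (k + 1 + 1) = wN n w (k + 1) + f := by
      rw [wN_ins _ _ _ (by omega), if_neg (by omega), if_neg (by omega), if_pos rfl]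
    rw [h3, h4]
    congr 1
    have h5 := Finset.sum_Ico_add' (fun j => G (wN (n + 2) (ins n w k f) j)) (k + 1) (n + 1) 2
    rw [show k + 1 + 2 = k + 1 + 1 + 1 by ring, show n + 1 + 2 = n + 2 + 1 by ring] at h5
    rw [← h5]
    apply Finset.sum_congr rfl
    intro j hj
    rw [Finset.mem_Ico] at hj
    rw [wN_ins _ _ _ (by omega), if_neg (by omega), if_neg (by omega), if_neg (by omega)]
    rfl
  rw [h1, h2]
  ring

lemma sum_ini {n : ℕ} (v : Fin (n + 1 + 1) → ℤ × ℤ) (G : ℤ × ℤ → ℝ) :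
    ∑ j, G (v j) = ∑ j, G (ini n v j) + G (v (Fin.last (n + 1))) :=
  Fin.sum_univ_castSucc (fun j => G (v j))

/-! ### Deterministic bounds -/

/-- a bound for all mutual distances -/
def DB (n : ℕ) (w : Fin (n + 1) → ℤ × ℤ) (L : ℝ) : Prop := ∀ i j, ‖pt (w i) - pt (w j)‖ ≤ L

lemma QS_le {n : ℕ} {w : Fin (n + 1) → ℤ × ℤ} {L : ℝ} (h : DB n w L) {p : ℤ × ℤ}
    {i : Fin (n + 1)} (hp : ‖pt p - pt (w i)‖ ≤ 1) : QS n w p ≤ ((n : ℝ) + 1) * (L + 1) ^ 2 := by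
  unfold QS
  calc ∑ j, ‖pt (w j) - pt p‖ ^ 2 ≤ ∑ _j : Fin (n + 1), (L + 1) ^ 2 := by
        apply Finset.sum_le_sum
        intro j _
        apply pow_le_pow_left₀ (norm_nonneg _)
        calc ‖pt (w j) - pt p‖ = ‖(pt (w j) - pt (w i)) - (pt p - pt (w i))‖ := by congr 1; abel
          _ ≤ L + 1 := (norm_sub_le _ _).trans (add_le_add (h j i) hp)
    _ = ((n : ℝ) + 1) * (L + 1) ^ 2 := by
        rw [Finset.sum_const, Finset.card_univ, Fintype.card_fin, nsmul_eq_mul]; push_cast; ring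

lemma QS_nonneg {n : ℕ} (w : Fin (n + 1) → ℤ × ℤ) (p : ℤ × ℤ) : 0 ≤ QS n w p :=
  Finset.sum_nonneg fun _ _ => by positivity

lemma TS_nonneg {n : ℕ} (w : Fin (n + 1) → ℤ × ℤ) : 0 ≤ TS n w :=
  Finset.sum_nonneg fun _ _ => QS_nonneg _ _

lemma Rg2_eq {n : ℕ} (w : Fin (n + 1) → ℤ × ℤ) : Rg2 n w = TS n w / (2 * ((n : ℝ) + 1) ^ 2) := by
  unfold Rg2 TS QS
  rw [Finset.sum_comm]

/-- sites at nearby times -/
lemma norm_wN_sub_le {n : ℕ} {w : Fin (n + 1) → ℤ × ℤ} (h : IsSAW n w) {i j c : ℕ} (hi : i ≤ n)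
    (hj : j ≤ n) (h1 : i ≤ j + c) (h2 : j ≤ i + c) :
    ‖pt (wN n w i) - pt (wN n w j)‖ ≤ c := by
  rcases le_total i j with hij | hij
  · obtain ⟨d, rfl⟩ := Nat.exists_eq_add_of_le hij
    rw [norm_sub_rev]
    refine (norm_pt_sub_le h d hj).trans ?_
    exact_mod_cast (by omega : d ≤ c)
  · obtain ⟨d, rfl⟩ := Nat.exists_eq_add_of_le hij
    refine (norm_pt_sub_le h d hi).trans ?_
    exact_mod_cast (by omega : d ≤ c)

lemma DB_n {n : ℕ} {w : Fin (n + 1) → ℤ × ℤ} (h : IsSAW n w) : DB n w n := by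
  intro i j
  rw [w_eq_wN w i, w_eq_wN w j]
  have hi := i.2
  have hj := j.2
  exact norm_wN_sub_le h (by omega) (by omega) (by omega) (by omega)

lemma TS_range {n : ℕ} (w : Fin (n + 1) → ℤ × ℤ) :
    TS n w = ∑ q ∈ Finset.range (n + 1), QS n w (wN n w q) := by
  unfold TS
  rw [Finset.sum_range]
  apply Finset.sum_congr rfl
  intro j _
  rw [w_eq_wN w j]

lemma QS_add_ge {n : ℕ} (w : Fin (n + 1) → ℤ × ℤ) (p q : ℤ × ℤ) :
    ((n : ℝ) + 1) * (‖pt p - pt q‖ ^ 2 / 2) ≤ QS n w p + QS n w q := by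
  unfold QS
  rw [← Finset.sum_add_distrib]
  have : ((n : ℝ) + 1) * (‖pt p - pt q‖ ^ 2 / 2) =
      ∑ _j : Fin (n + 1), (‖pt p - pt q‖ ^ 2 / 2) := by
    rw [Finset.sum_const, Finset.card_univ, Fintype.card_fin, nsmul_eq_mul]; push_cast; ring
  rw [this]
  apply Finset.sum_le_sum
  intro j _
  have h1 : ‖pt p - pt q‖ ≤ ‖pt (w j) - pt p‖ + ‖pt (w j) - pt q‖ := by
    calc ‖pt p - pt q‖ = ‖(pt (w j) - pt q) - (pt (w j) - pt p)‖ := by congr 1; abel
      _ ≤ ‖pt (w j) - pt q‖ + ‖pt (w j) - pt p‖ := norm_sub_le _ _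
      _ = _ := add_comm _ _
  have h2 := norm_nonneg (pt p - pt q)
  have h3 := norm_nonneg (pt (w j) - pt p)
  have h4 := norm_nonneg (pt (w j) - pt q)
  nlinarith [sq_nonneg (‖pt (w j) - pt p‖ - ‖pt (w j) - pt q‖)]

/-- connectivity: a large diameter forces a large radius of gyration -/
lemma TS_diam {n : ℕ} {w : Fin (n + 1) → ℤ × ℤ} (h : IsSAW n w) {i j : ℕ} (hij : i < j)
    (hj : j ≤ n) : 3 / 64 * ((n : ℝ) + 1) * ‖pt (wN n w i) - pt (wN n w j)‖ ^ 3 ≤ TS n w := by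
  obtain ⟨L, hL⟩ : ∃ L, L = ‖pt (wN n w i) - pt (wN n w j)‖ := ⟨_, rfl⟩
  have hL0 : 0 ≤ L := by rw [hL]; exact norm_nonneg _
  have hLj : L ≤ ((j - i : ℕ) : ℝ) := by
    rw [hL]; exact norm_wN_sub_le h (by omega) hj (by omega) (by omega)
  rw [← hL]
  obtain ⟨d, hd⟩ : ∃ d : ℕ, d = ⌊L / 8⌋₊ := ⟨_, rfl⟩
  have hd1 : (d : ℝ) ≤ L / 8 := by rw [hd]; exact Nat.floor_le (by positivity)
  have hd2 : L / 8 < d + 1 := by rw [hd]; exact Nat.lt_floor_add_one _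
  have hd3 : 8 * d ≤ j - i := by
    have : ((8 * d : ℕ) : ℝ) ≤ ((j - i : ℕ) : ℝ) := by push_cast; linarith
    exact_mod_cast this
  have hsub : ∑ t ∈ Finset.range (d + 1), (QS n w (wN n w (i + t)) + QS n w (wN n w (j - d + t))) ≤
      TS n w := by
    rw [TS_range, Finset.sum_add_distrib]
    have e1 : ∑ t ∈ Finset.range (d + 1), QS n w (wN n w (i + t)) =
        ∑ q ∈ Finset.Ico i (i + (d + 1)), QS n w (wN n w q) := by
      rw [Finset.sum_Ico_eq_sum_range]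
      congr 1
      congr 1
      omega
    have e2 : ∑ t ∈ Finset.range (d + 1), QS n w (wN n w (j - d + t)) =
        ∑ q ∈ Finset.Ico (j - d) (j - d + (d + 1)), QS n w (wN n w q) := by
      rw [Finset.sum_Ico_eq_sum_range]
      congr 1
      congr 1
      omega
    rw [e1, e2, ← Finset.sum_union]
    · apply Finset.sum_le_sum_of_subset_of_nonneg
      · intro q hq
        rw [Finset.mem_union, Finset.mem_Ico, Finset.mem_Ico] at hq
        rw [Finset.mem_range]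
        omega
      · intro q _ _
        exact QS_nonneg _ _
    · rw [Finset.disjoint_left]
      intro q hq hq'
      rw [Finset.mem_Ico] at hq hq'
      omega
  have hterm : ∀ t ∈ Finset.range (d + 1), ((n : ℝ) + 1) * (3 / 8 * L ^ 2) ≤
      QS n w (wN n w (i + t)) + QS n w (wN n w (j - d + t)) := by
    intro t ht
    rw [Finset.mem_range] at ht
    refine le_trans ?_ (QS_add_ge w _ _)
    apply mul_le_mul_of_nonneg_left _ (by positivity)
    have h1 : L - d ≤ ‖pt (wN n w (i + t)) - pt (wN n w (j - d + t))‖ := by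
      have a1 := norm_wN_sub_le h (i := i) (j := i + t) (c := t) (by omega) (by omega) (by omega)
        (by omega)
      have a2 := norm_wN_sub_le h (i := j - d + t) (j := j) (c := d - t) (by omega) (by omega)
        (by omega) (by omega)
      have a3 : L ≤ ‖pt (wN n w i) - pt (wN n w (i + t))‖ +
          ‖pt (wN n w (i + t)) - pt (wN n w (j - d + t))‖ +
          ‖pt (wN n w (j - d + t)) - pt (wN n w j)‖ := by
        rw [hL]
        calc ‖pt (wN n w i) - pt (wN n w j)‖ = ‖(pt (wN n w i) - pt (wN n w (i + t))) +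
              (pt (wN n w (i + t)) - pt (wN n w (j - d + t))) +
              (pt (wN n w (j - d + t)) - pt (wN n w j))‖ := by congr 1; abel
          _ ≤ _ := norm_add₃_le
      have a4 : ((d - t : ℕ) : ℝ) = d - t := by
        rw [Nat.cast_sub (by omega)]
      rw [a4] at a2
      linarith
    have h2 : 0 ≤ L - d := by linarith
    have h3 : (L - d) ^ 2 ≤ ‖pt (wN n w (i + t)) - pt (wN n w (j - d + t))‖ ^ 2 :=
      pow_le_pow_left₀ h2 h1 2
    have h4 : 7 / 8 * L ≤ L - d := by linarith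
    have h5 : (7 / 8 * L) ^ 2 ≤ (L - d) ^ 2 := pow_le_pow_left₀ (by positivity) h4 2
    nlinarith [sq_nonneg L]
  have hsum := Finset.sum_le_sum hterm
  rw [Finset.sum_const, Finset.card_range, nsmul_eq_mul] at hsum
  have hfin : 3 / 64 * ((n : ℝ) + 1) * L ^ 3 ≤ ((d + 1 : ℕ) : ℝ) * (((n : ℝ) + 1) * (3 / 8 * L ^ 2)) := by
    have e : 3 / 64 * ((n : ℝ) + 1) * L ^ 3 = L / 8 * (((n : ℝ) + 1) * (3 / 8 * L ^ 2)) := by ring
    rw [e]
    apply mul_le_mul_of_nonneg_right _ (by positivity)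
    push_cast
    linarith
  linarith

/-- few sites near a given one -/
lemma card_near_le {n : ℕ} {w : Fin (n + 1) → ℤ × ℤ} (h : IsSAW n w) (p : ℤ × ℤ) (r : ℕ) :
    (Finset.univ.filter fun i => ‖pt (w i) - pt p‖ ≤ r).card ≤ (2 * r + 1) ^ 2 := by
  classical
  have hcard : ((Finset.Icc (-(r : ℤ)) r) ×ˢ (Finset.Icc (-(r : ℤ)) r)).card = (2 * r + 1) ^ 2 := by
    rw [Finset.card_product, Int.card_Icc, pow_two]
    congr 1 <;> omega
  rw [← hcard]
  apply Finset.card_le_card_of_injOn (fun i => w i - p)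
  · intro i hi
    rw [Finset.mem_coe, Finset.mem_filter] at hi
    have h1 := hi.2
    rw [← pt_sub] at h1
    have h2 : ((w i - p).1 : ℝ) ^ 2 + ((w i - p).2 : ℝ) ^ 2 ≤ (r : ℝ) ^ 2 := by
      rw [← norm_pt_sq]
      exact pow_le_pow_left₀ (norm_nonneg _) h1 2
    have h3 : (w i - p).1 ^ 2 + (w i - p).2 ^ 2 ≤ (r : ℤ) ^ 2 := by exact_mod_cast h2
    have hr : (0 : ℤ) ≤ r := Int.natCast_nonneg r
    have a1 := abs_le_of_sq_le_sq (show (w i - p).1 ^ 2 ≤ (r : ℤ) ^ 2 by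
      nlinarith [sq_nonneg (w i - p).2]) hr
    have a2 := abs_le_of_sq_le_sq (show (w i - p).2 ^ 2 ≤ (r : ℤ) ^ 2 by
      nlinarith [sq_nonneg (w i - p).1]) hr
    rw [Finset.mem_coe, Finset.mem_product, Finset.mem_Icc, Finset.mem_Icc]
    exact ⟨abs_le.1 a1, abs_le.1 a2⟩
  · intro i _ j _ hij
    exact h.2.2 (sub_left_inj.1 hij)

lemma QS_ge {n : ℕ} {w : Fin (n + 1) → ℤ × ℤ} (h : IsSAW n w) (p : ℤ × ℤ) (r : ℕ) :
    (((n : ℝ) + 1) - (2 * r + 1) ^ 2) * (r : ℝ) ^ 2 ≤ QS n w p := by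
  classical
  unfold QS
  have h1 : ∑ i ∈ Finset.univ.filter (fun i => ¬ ‖pt (w i) - pt p‖ ≤ r), (r : ℝ) ^ 2 ≤
      ∑ i, ‖pt (w i) - pt p‖ ^ 2 := by
    refine le_trans (Finset.sum_le_sum (g := fun i => ‖pt (w i) - pt p‖ ^ 2) fun i hi => ?_) ?_
    · have := (Finset.mem_filter.1 hi).2
      push Not at this
      exact pow_le_pow_left₀ (Nat.cast_nonneg _) this.le 2
    · apply Finset.sum_le_sum_of_subset_of_nonneg (Finset.filter_subset _ _)
      intro i _ _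
      positivity
  rw [Finset.sum_const, nsmul_eq_mul] at h1
  refine le_trans ?_ h1
  apply mul_le_mul_of_nonneg_right _ (by positivity)
  have h2 := card_near_le h p r
  have h3 := Finset.card_filter_add_card_filter_not (s := (Finset.univ : Finset (Fin (n + 1))))
    (fun i => ‖pt (w i) - pt p‖ ≤ r)
  rw [Finset.card_univ, Fintype.card_fin] at h3
  have h4 : n + 1 ≤ (2 * r + 1) ^ 2 +
      (Finset.univ.filter (fun i => ¬ ‖pt (w i) - pt p‖ ≤ r)).card := by omega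
  have h5 : ((n + 1 : ℕ) : ℝ) ≤ (((2 * r + 1) ^ 2 +
      (Finset.univ.filter (fun i => ¬ ‖pt (w i) - pt p‖ ≤ r)).card : ℕ) : ℝ) := by
    exact_mod_cast h4
  push_cast at h5
  linarith

lemma QS_ge_triv {n : ℕ} {w : Fin (n + 1) → ℤ × ℤ} (h : IsSAW n w) (q : Fin (n + 1)) :
    (n : ℝ) ≤ QS n w (w q) := by
  classical
  unfold QS
  have h1 : ∑ i ∈ Finset.univ.erase q, (1 : ℝ) ≤ ∑ i, ‖pt (w i) - pt (w q)‖ ^ 2 := by
    refine le_trans (Finset.sum_le_sum (g := fun i => ‖pt (w i) - pt (w q)‖ ^ 2) fun i hi => ?_) ?_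
    · have hne : w i - w q ≠ 0 := by
        intro hc
        exact (Finset.mem_erase.1 hi).1 (h.2.2 (sub_eq_zero.1 hc))
      rw [← pt_sub]
      exact one_le_norm_pt hne
    · apply Finset.sum_le_sum_of_subset_of_nonneg (Finset.erase_subset _ _)
      intro i _ _
      positivity
  rw [Finset.sum_const, Finset.card_erase_of_mem (Finset.mem_univ _), Finset.card_univ,
    Fintype.card_fin, nsmul_eq_mul, mul_one] at h1
  simpa using h1

/-- the radius of gyration of a planar walk is at least of order `√n` -/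
lemma TS_ge {n : ℕ} (hn : 1 ≤ n) {w : Fin (n + 1) → ℤ × ℤ} (h : IsSAW n w) :
    ((n : ℝ) + 1) ^ 3 / 160 ≤ TS n w := by
  have hn1 : (1 : ℝ) ≤ n := by exact_mod_cast hn
  rcases Nat.lt_or_ge n 15 with hlt | hge
  · have h1 : ((n : ℝ) + 1) * n ≤ TS n w := by
      unfold TS
      have : ((n : ℝ) + 1) * n = ∑ _j : Fin (n + 1), (n : ℝ) := by
        rw [Finset.sum_const, Finset.card_univ, Fintype.card_fin, nsmul_eq_mul]; push_cast; ring
      rw [this]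
      exact Finset.sum_le_sum fun j _ => QS_ge_triv h j
    refine le_trans ?_ h1
    have hn15 : (n : ℝ) ≤ 14 := by exact_mod_cast (by omega : n ≤ 14)
    have h2 : ((n : ℝ) + 1) ^ 2 ≤ 160 * n := by nlinarith
    have h3 : ((n : ℝ) + 1) ^ 3 = ((n : ℝ) + 1) * ((n : ℝ) + 1) ^ 2 := by ring
    rw [h3, mul_div_assoc]
    apply mul_le_mul_of_nonneg_left _ (by positivity)
    linarith
  · -- `r = ⌊√N⌋ / 4`
    obtain ⟨m, hm⟩ : ∃ m, m = Nat.sqrt (n + 1) := ⟨_, rfl⟩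
    have hm1 : m * m ≤ n + 1 := by rw [hm]; exact Nat.sqrt_le _
    have hm2 : n + 1 < (m + 1) * (m + 1) := by rw [hm]; exact Nat.lt_succ_sqrt _
    have hm3 : 4 ≤ m := by
      by_contra hc
      have : m + 1 ≤ 4 := by omega
      have := Nat.mul_le_mul this this
      omega
    obtain ⟨r, hr⟩ : ∃ r, r = m / 4 := ⟨_, rfl⟩
    have hr1 : 1 ≤ r := by omega
    have hr2 : 4 * r ≤ m := by omega
    have hr3 : m + 1 ≤ 4 * (r + 1) := by omega
    have hN : (16 : ℝ) ≤ (n : ℝ) + 1 := by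
      have : (15 : ℝ) ≤ n := by exact_mod_cast hge
      linarith
    have hmr : (m : ℝ) ^ 2 ≤ (n : ℝ) + 1 := by
      have : ((m * m : ℕ) : ℝ) ≤ ((n + 1 : ℕ) : ℝ) := by exact_mod_cast hm1
      push_cast at this; nlinarith
    have hr2' : 4 * (r : ℝ) ≤ m := by exact_mod_cast hr2
    have hm3' : (4 : ℝ) ≤ m := by exact_mod_cast hm3
    have hr1' : (1 : ℝ) ≤ r := by exact_mod_cast hr1
    have hup : (n : ℝ) + 1 ≤ 64 * (r : ℝ) ^ 2 := by
      have h1 : n + 1 ≤ (4 * (r + 1)) * (4 * (r + 1)) :=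
        (le_of_lt hm2).trans (Nat.mul_le_mul hr3 hr3)
      have h2 : ((n + 1 : ℕ) : ℝ) ≤ (((4 * (r + 1)) * (4 * (r + 1)) : ℕ) : ℝ) := by exact_mod_cast h1
      push_cast at h2
      nlinarith
    have hlow : (2 * (r : ℝ) + 1) ^ 2 ≤ 9 / 16 * ((n : ℝ) + 1) := by
      nlinarith
    have hQ : ∀ j, 7 / 1024 * ((n : ℝ) + 1) ^ 2 ≤ QS n w (w j) := by
      intro j
      refine le_trans ?_ (QS_ge h (w j) r)
      have h1 : 7 / 16 * ((n : ℝ) + 1) ≤ ((n : ℝ) + 1) - (2 * r + 1) ^ 2 := by linarith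
      calc 7 / 1024 * ((n : ℝ) + 1) ^ 2 = (7 / 16 * ((n : ℝ) + 1)) * (((n : ℝ) + 1) / 64) := by ring
        _ ≤ (((n : ℝ) + 1) - (2 * r + 1) ^ 2) * (r : ℝ) ^ 2 := by
            apply mul_le_mul h1 (by linarith) (by positivity)
            linarith [show (0 : ℝ) ≤ 7 / 16 * ((n : ℝ) + 1) by positivity]
    have hsum : ((n : ℝ) + 1) * (7 / 1024 * ((n : ℝ) + 1) ^ 2) ≤ TS n w := by
      unfold TS
      have : ((n : ℝ) + 1) * (7 / 1024 * ((n : ℝ) + 1) ^ 2) =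
          ∑ _j : Fin (n + 1), (7 / 1024 * ((n : ℝ) + 1) ^ 2) := by
        rw [Finset.sum_const, Finset.card_univ, Fintype.card_fin, nsmul_eq_mul]; push_cast; ring
      rw [this]
      exact Finset.sum_le_sum fun j _ => hQ j
    refine le_trans ?_ hsum
    have : (0 : ℝ) < ((n : ℝ) + 1) ^ 3 := by positivity
    nlinarith

/-- the diameter is small compared with the radius of gyration in the mean -/
lemma exists_diam {n : ℕ} (hn : 1 ≤ n) {w : Fin (n + 1) → ℤ × ℤ} (h : IsSAW n w) :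
    ∃ L : ℝ, 1 ≤ L ∧ DB n w L ∧
      ((n : ℝ) + 1) * (L + 1) ^ 2 ≤ 1200 * TS n w / Real.sqrt ((n : ℝ) + 1) := by
  classical
  obtain ⟨⟨i0, j0⟩, _, hmax⟩ := Finset.exists_max_image
    (Finset.univ : Finset (Fin (n + 1) × Fin (n + 1)))
    (fun x => ‖pt (w x.1) - pt (w x.2)‖) ⟨(0, 0), Finset.mem_univ _⟩
  obtain ⟨L, hL⟩ : ∃ L, L = ‖pt (w i0) - pt (w j0)‖ := ⟨_, rfl⟩
  have hDB : DB n w L := by
    intro i j
    rw [hL]; exact hmax (i, j) (Finset.mem_univ _)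
  have hN1 : (1 : ℝ) ≤ (n : ℝ) + 1 := by
    have : (0 : ℝ) ≤ n := Nat.cast_nonneg _
    linarith
  have hN0 : (0 : ℝ) < (n : ℝ) + 1 := by linarith
  -- `L ≥ 1`
  have hL1 : 1 ≤ L := by
    have h1 := hDB ⟨1, by omega⟩ ⟨0, by omega⟩
    have hne : w ⟨1, by omega⟩ - w ⟨0, by omega⟩ ≠ 0 := by
      intro hc
      have := h.2.2 (sub_eq_zero.1 hc)
      simp at this
    have h2 := one_le_norm_pt hne
    rw [pt_sub] at h2
    have h3 : 1 ≤ ‖pt (w ⟨1, by omega⟩) - pt (w ⟨0, by omega⟩)‖ := by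
      nlinarith [norm_nonneg (pt (w ⟨1, by omega⟩) - pt (w ⟨0, by omega⟩))]
    exact h3.trans h1
  -- connectivity
  have hconn : 3 / 64 * ((n : ℝ) + 1) * L ^ 3 ≤ TS n w := by
    have hne : (i0 : ℕ) ≠ j0 := by
      intro hc
      have : i0 = j0 := Fin.ext hc
      rw [this, sub_self, norm_zero] at hL
      linarith
    rcases lt_or_gt_of_ne hne with hlt | hlt
    · have := TS_diam h hlt (by have := j0.2; omega)
      rw [← w_eq_wN w i0, ← w_eq_wN w j0, ← hL] at this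
      exact this
    · have := TS_diam h hlt (by have := i0.2; omega)
      rw [← w_eq_wN w i0, ← w_eq_wN w j0, norm_sub_rev, ← hL] at this
      exact this
  -- lower bound for `L`
  have hTup : TS n w ≤ ((n : ℝ) + 1) ^ 2 * L ^ 2 := by
    unfold TS QS
    calc ∑ j, ∑ i, ‖pt (w i) - pt (w j)‖ ^ 2 ≤ ∑ _j : Fin (n + 1), ∑ _i : Fin (n + 1), L ^ 2 := by
          apply Finset.sum_le_sum
          intro j _
          apply Finset.sum_le_sum
          intro i _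
          exact pow_le_pow_left₀ (norm_nonneg _) (hDB i j) 2
      _ = ((n : ℝ) + 1) ^ 2 * L ^ 2 := by
          simp only [Finset.sum_const, Finset.card_univ, Fintype.card_fin, nsmul_eq_mul]
          push_cast; ring
  have hTlow := TS_ge hn h
  have hL2 : ((n : ℝ) + 1) / 160 ≤ L ^ 2 := by
    have h1 : ((n : ℝ) + 1) ^ 2 * (((n : ℝ) + 1) / 160) ≤ ((n : ℝ) + 1) ^ 2 * L ^ 2 := by
      calc ((n : ℝ) + 1) ^ 2 * (((n : ℝ) + 1) / 160) = ((n : ℝ) + 1) ^ 3 / 160 := by ring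
        _ ≤ _ := hTlow.trans hTup
    exact le_of_mul_le_mul_left h1 (by positivity)
  obtain ⟨σ, hσ⟩ : ∃ σ, σ = Real.sqrt ((n : ℝ) + 1) := ⟨_, rfl⟩
  have hσ0 : 0 < σ := by rw [hσ]; exact Real.sqrt_pos.2 hN0
  have hσ2 : σ ^ 2 = (n : ℝ) + 1 := by rw [hσ]; exact Real.sq_sqrt hN0.le
  have hLσ : σ / 13 ≤ L := by
    apply le_of_sq_le_sq _ (by linarith)
    rw [div_pow, hσ2]
    linarith
  refine ⟨L, hL1, hDB, ?_⟩
  rw [← hσ, le_div_iff₀ hσ0]
  have h1 : (L + 1) ^ 2 ≤ 4 * L ^ 2 := by nlinarith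
  have h2 : σ ≤ 13 * L := by linarith
  calc ((n : ℝ) + 1) * (L + 1) ^ 2 * σ ≤ ((n : ℝ) + 1) * (4 * L ^ 2) * (13 * L) := by
        apply mul_le_mul _ h2 hσ0.le (by positivity)
        exact mul_le_mul_of_nonneg_left h1 hN0.le
    _ = 52 * 64 / 3 * (3 / 64 * ((n : ℝ) + 1) * L ^ 3) := by ring
    _ ≤ 52 * 64 / 3 * TS n w := mul_le_mul_of_nonneg_left hconn (by norm_num)
    _ ≤ 1200 * TS n w := by
        have := TS_nonneg w
        linarith

/-! ### Effect of an insertion -/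

lemma QS_ins {n : ℕ} (w : Fin (n + 1) → ℤ × ℤ) {k : ℕ} (f : ℤ × ℤ) (hk : k < n) (p : ℤ × ℤ) :
    QS (n + 2) (ins n w k f) p = QS n w p +
      (‖pt (wN n w k + f) - pt p‖ ^ 2 + ‖pt (wN n w (k + 1) + f) - pt p‖ ^ 2) :=
  sum_ins w f hk (fun q => ‖pt q - pt p‖ ^ 2)

lemma TS_ins {n : ℕ} (w : Fin (n + 1) → ℤ × ℤ) {k : ℕ} (f : ℤ × ℤ) (hk : k < n) :
    TS (n + 2) (ins n w k f) = TS n w + 2 * QS n w (wN n w k + f) +
      2 * QS n w (wN n w (k + 1) + f) +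
      2 * ‖pt (wN n w k + f) - pt (wN n w (k + 1) + f)‖ ^ 2 := by
  unfold TS
  have h1 := sum_ins w f hk (fun q => QS (n + 2) (ins n w k f) q)
  rw [h1]
  simp only [QS_ins w f hk]
  rw [Finset.sum_add_distrib, Finset.sum_add_distrib]
  have e1 : ∑ j, ‖pt (wN n w k + f) - pt (w j)‖ ^ 2 = QS n w (wN n w k + f) := by
    unfold QS
    apply Finset.sum_congr rfl
    intro j _
    rw [norm_sub_rev]
  have e2 : ∑ j, ‖pt (wN n w (k + 1) + f) - pt (w j)‖ ^ 2 = QS n w (wN n w (k + 1) + f) := by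
    unfold QS
    apply Finset.sum_congr rfl
    intro j _
    rw [norm_sub_rev]
  rw [e1, e2, sub_self, sub_self, norm_zero,
    norm_sub_rev (pt (wN n w (k + 1) + f)) (pt (wN n w k + f))]
  ring

lemma ins_near {n : ℕ} {w : Fin (n + 1) → ℤ × ℤ} {k : ℕ} {f : ℤ × ℤ}
    (hkf : (k, f) ∈ Ins n w) :
    (∃ i, ‖pt (wN n w k + f) - pt (w i)‖ ≤ 1) ∧ ∃ i, ‖pt (wN n w (k + 1) + f) - pt (w i)‖ ≤ 1 := by
  obtain ⟨hk, hf, _⟩ := mem_Ins.1 hkf
  have hf1 := norm_pt_dir_le hf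
  constructor
  · refine ⟨⟨k, by omega⟩, ?_⟩
    rw [← wN_of_le w (by omega), pt_add, add_sub_cancel_left]
    exact hf1
  · refine ⟨⟨k + 1, by omega⟩, ?_⟩
    rw [← wN_of_le w (by omega), pt_add, add_sub_cancel_left]
    exact hf1

lemma norm_step_add {n : ℕ} {w : Fin (n + 1) → ℤ × ℤ} (h : IsSAW n w) {k : ℕ} (hk : k < n)
    (f : ℤ × ℤ) : ‖pt (wN n w k + f) - pt (wN n w (k + 1) + f)‖ ≤ 1 := by
  rw [pt_add, pt_add, add_sub_add_right_eq_sub]
  have := norm_wN_sub_le h (i := k) (j := k + 1) (c := 1) (by omega) (by omega) (by omega) (by omega)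
  exact_mod_cast this

/-- insertion changes the squared radius of gyration by a factor `1 + O(n^{-1/2})` -/
theorem Rg2_ins {n : ℕ} (hn : 1 ≤ n) {w : Fin (n + 1) → ℤ × ℤ} (h : IsSAW n w)
    {p : ℕ × (ℤ × ℤ)} (hp : p ∈ Ins n w) :
    |Rg2 (n + 2) (ins n w p.1 p.2) - Rg2 n w| ≤
      20000 / Real.sqrt ((n : ℝ) + 1) * Rg2 n w := by
  obtain ⟨k, f⟩ := p
  simp only
  have hk := (mem_Ins.1 hp).1
  obtain ⟨L, hL1, hDB, hL⟩ := exists_diam hn h
  obtain ⟨⟨i1, hi1⟩, ⟨i2, hi2⟩⟩ := ins_near hp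
  have q1 := QS_le hDB hi1
  have q2 := QS_le hDB hi2
  have q3 := norm_step_add h hk f
  have q3' : ‖pt (wN n w k + f) - pt (wN n w (k + 1) + f)‖ ^ 2 ≤ 1 :=
    pow_le_one₀ (norm_nonneg _) q3
  have hT := TS_ins w f hk
  have hT0 := TS_nonneg w
  have hN1 : (1 : ℝ) ≤ (n : ℝ) + 1 := by
    have : (0 : ℝ) ≤ n := Nat.cast_nonneg _
    linarith
  have hN0 : (0 : ℝ) < (n : ℝ) + 1 := by linarith
  obtain ⟨σ, hσ⟩ : ∃ σ, σ = Real.sqrt ((n : ℝ) + 1) := ⟨_, rfl⟩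
  have hσ0 : 0 < σ := by rw [hσ]; exact Real.sqrt_pos.2 hN0
  have hσ2 : σ ^ 2 = (n : ℝ) + 1 := by rw [hσ]; exact Real.sq_sqrt hN0.le
  have hσ1 : 1 ≤ σ := by
    rw [hσ]; exact Real.one_le_sqrt.2 hN1
  rw [← hσ] at hL ⊢
  set T := TS n w with hTdef
  set T' := TS (n + 2) (ins n w k f) with hTdef'
  have hlow : T ≤ T' := by
    rw [hT]
    have := QS_nonneg w (wN n w k + f)
    have := QS_nonneg w (wN n w (k + 1) + f)
    have := sq_nonneg ‖pt (wN n w k + f) - pt (wN n w (k + 1) + f)‖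
    linarith
  have hup : T' ≤ T + 7200 * T / σ := by
    rw [hT]
    have h1 : (1 : ℝ) ≤ ((n : ℝ) + 1) * (L + 1) ^ 2 := by nlinarith
    have h2 : 6 * (((n : ℝ) + 1) * (L + 1) ^ 2) ≤ 7200 * T / σ := by
      calc 6 * (((n : ℝ) + 1) * (L + 1) ^ 2) ≤ 6 * (1200 * T / σ) := by linarith
        _ = 7200 * T / σ := by ring
    linarith
  rw [Rg2_eq, Rg2_eq, ← hTdef, ← hTdef']
  push_cast
  have hden : (0 : ℝ) < 2 * ((n : ℝ) + 1) ^ 2 := by positivity
  have hden' : (0 : ℝ) < 2 * ((n : ℝ) + 2 + 1) ^ 2 := by positivity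
  rw [abs_le]
  constructor
  · -- lower bound
    have h1 : T / (2 * ((n : ℝ) + 2 + 1) ^ 2) ≤ T' / (2 * ((n : ℝ) + 2 + 1) ^ 2) :=
      div_le_div_of_nonneg_right hlow hden'.le
    have h2 : T / (2 * ((n : ℝ) + 1) ^ 2) - 20000 / σ * (T / (2 * ((n : ℝ) + 1) ^ 2)) ≤
        T / (2 * ((n : ℝ) + 2 + 1) ^ 2) := by
      have e1 : T / (2 * ((n : ℝ) + 1) ^ 2) - 20000 / σ * (T / (2 * ((n : ℝ) + 1) ^ 2)) =
          T * ((1 - 20000 / σ) / (2 * ((n : ℝ) + 1) ^ 2)) := by ring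
      have e2 : T / (2 * ((n : ℝ) + 2 + 1) ^ 2) = T * (1 / (2 * ((n : ℝ) + 2 + 1) ^ 2)) := by ring
      rw [e1, e2]
      apply mul_le_mul_of_nonneg_left _ hT0
      rw [div_le_div_iff₀ hden hden']
      have e3 : 4 / ((n : ℝ) + 1) ≤ 20000 / σ := by
        rw [div_le_div_iff₀ hN0 hσ0, ← hσ2]
        nlinarith
      have e4 : (1 - 4 / ((n : ℝ) + 1)) * ((n : ℝ) + 2 + 1) ^ 2 ≤ ((n : ℝ) + 1) ^ 2 := by
        have e5 : (1 - 4 / ((n : ℝ) + 1)) * ((n : ℝ) + 2 + 1) ^ 2 =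
            (((n : ℝ) + 1) - 4) * ((n : ℝ) + 2 + 1) ^ 2 / ((n : ℝ) + 1) := by
          field_simp
        rw [e5, div_le_iff₀ hN0]
        nlinarith
      have e6 : (1 - 20000 / σ) * ((n : ℝ) + 2 + 1) ^ 2 ≤ (1 - 4 / ((n : ℝ) + 1)) *
          ((n : ℝ) + 2 + 1) ^ 2 := mul_le_mul_of_nonneg_right (by linarith) (by positivity)
      linarith
    linarith
  · -- upper bound
    have h1 : T' / (2 * ((n : ℝ) + 2 + 1) ^ 2) ≤ (T + 7200 * T / σ) / (2 * ((n : ℝ) + 1) ^ 2) := by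
      apply div_le_div₀ (by positivity) hup hden
      nlinarith
    have h2 : (T + 7200 * T / σ) / (2 * ((n : ℝ) + 1) ^ 2) =
        T / (2 * ((n : ℝ) + 1) ^ 2) + 7200 / σ * (T / (2 * ((n : ℝ) + 1) ^ 2)) := by
      field_simp
    have h3 : 7200 / σ * (T / (2 * ((n : ℝ) + 1) ^ 2)) ≤
        20000 / σ * (T / (2 * ((n : ℝ) + 1) ^ 2)) := by
      apply mul_le_mul_of_nonneg_right _ (by positivity)
      apply div_le_div_of_nonneg_right _ hσ0.le
      norm_num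
    linarith

/-- the two sums in the monomer-endpoint distance -/
lemma Rm2_eq {n : ℕ} (w : Fin (n + 1) → ℤ × ℤ) :
    Rm2 n w = (QS n w (w 0) + QS n w (w (Fin.last n))) / (2 * ((n : ℝ) + 1)) := by
  unfold Rm2 QS
  rw [Finset.sum_add_distrib]

lemma TS_le_QS {n : ℕ} (w : Fin (n + 1) → ℤ × ℤ) (q : ℤ × ℤ) :
    TS n w ≤ 4 * ((n : ℝ) + 1) * QS n w q := by
  unfold TS
  have h1 : ∀ j, QS n w (w j) ≤ 2 * QS n w q + 2 * ((n : ℝ) + 1) * ‖pt (w j) - pt q‖ ^ 2 := by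
    intro j
    unfold QS
    have e : 2 * ∑ i, ‖pt (w i) - pt q‖ ^ 2 + 2 * ((n : ℝ) + 1) * ‖pt (w j) - pt q‖ ^ 2 =
        ∑ i, (2 * ‖pt (w i) - pt q‖ ^ 2 + 2 * ‖pt (w j) - pt q‖ ^ 2) := by
      rw [Finset.sum_add_distrib, ← Finset.mul_sum, Finset.sum_const, Finset.card_univ,
        Fintype.card_fin, nsmul_eq_mul]
      push_cast; ring
    rw [e]
    apply Finset.sum_le_sum
    intro i _
    have h2 : ‖pt (w i) - pt (w j)‖ ≤ ‖pt (w i) - pt q‖ + ‖pt (w j) - pt q‖ := by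
      calc ‖pt (w i) - pt (w j)‖ = ‖(pt (w i) - pt q) - (pt (w j) - pt q)‖ := by congr 1; abel
        _ ≤ _ := norm_sub_le _ _
    have h3 := norm_nonneg (pt (w i) - pt (w j))
    have h4 := norm_nonneg (pt (w i) - pt q)
    have h5 := norm_nonneg (pt (w j) - pt q)
    nlinarith [sq_nonneg (‖pt (w i) - pt q‖ - ‖pt (w j) - pt q‖)]
  refine (Finset.sum_le_sum fun j _ => h1 j).trans (le_of_eq ?_)
  have e2 : ∑ j, 2 * ((n : ℝ) + 1) * ‖pt (w j) - pt q‖ ^ 2 = 2 * ((n : ℝ) + 1) * QS n w q := by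
    unfold QS
    rw [Finset.mul_sum]
  rw [Finset.sum_add_distrib, e2, Finset.sum_const, Finset.card_univ,
    Fintype.card_fin, nsmul_eq_mul]
  push_cast; ring

theorem Rm2_ins {n : ℕ} (hn : 1 ≤ n) {w : Fin (n + 1) → ℤ × ℤ} (h : IsSAW n w)
    {p : ℕ × (ℤ × ℤ)} (hp : p ∈ Ins n w) :
    |Rm2 (n + 2) (ins n w p.1 p.2) - Rm2 n w| ≤
      20000 / Real.sqrt ((n : ℝ) + 1) * Rm2 n w := by
  obtain ⟨k, f⟩ := p
  simp only
  have hk := (mem_Ins.1 hp).1
  obtain ⟨L, hL1, hDB, hL⟩ := exists_diam hn h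
  obtain ⟨⟨i1, hi1⟩, ⟨i2, hi2⟩⟩ := ins_near hp
  have hN1 : (1 : ℝ) ≤ (n : ℝ) + 1 := by
    have : (0 : ℝ) ≤ n := Nat.cast_nonneg _
    linarith
  have hN0 : (0 : ℝ) < (n : ℝ) + 1 := by linarith
  obtain ⟨σ, hσ⟩ : ∃ σ, σ = Real.sqrt ((n : ℝ) + 1) := ⟨_, rfl⟩
  have hσ0 : 0 < σ := by rw [hσ]; exact Real.sqrt_pos.2 hN0
  have hσ2 : σ ^ 2 = (n : ℝ) + 1 := by rw [hσ]; exact Real.sq_sqrt hN0.le
  have hσ1 : 1 ≤ σ := by
    rw [hσ]; exact Real.one_le_sqrt.2 hN1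
  have hTQ := TS_le_QS w (w 0)
  rw [← hσ] at hL ⊢
  rw [Rm2_eq, Rm2_eq, ins_zero, ins_last w f hk, QS_ins w f hk, QS_ins w f hk]
  set A := QS n w (w 0) with hA
  set B := QS n w (w (Fin.last n)) with hB
  have hA0 : 0 ≤ A := QS_nonneg _ _
  have hB0 : 0 ≤ B := QS_nonneg _ _
  have hd : ∀ (q : ℤ × ℤ) (i j : Fin (n + 1)), ‖pt q - pt (w i)‖ ≤ 1 →
      ‖pt q - pt (w j)‖ ^ 2 ≤ (L + 1) ^ 2 := by
    intro q i j hq
    apply pow_le_pow_left₀ (norm_nonneg _)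
    calc ‖pt q - pt (w j)‖ = ‖(pt q - pt (w i)) + (pt (w i) - pt (w j))‖ := by congr 1; abel
      _ ≤ 1 + L := (norm_add_le _ _).trans (add_le_add hq (hDB i j))
      _ = L + 1 := add_comm _ _
  have d1 := hd _ i1 0 hi1
  have d2 := hd _ i2 0 hi2
  have d3 := hd _ i1 (Fin.last n) hi1
  have d4 := hd _ i2 (Fin.last n) hi2
  set x1 := ‖pt (wN n w k + f) - pt (w 0)‖ ^ 2
  set x2 := ‖pt (wN n w (k + 1) + f) - pt (w 0)‖ ^ 2
  set x3 := ‖pt (wN n w k + f) - pt (w (Fin.last n))‖ ^ 2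
  set x4 := ‖pt (wN n w (k + 1) + f) - pt (w (Fin.last n))‖ ^ 2
  have y1 : 0 ≤ x1 := by positivity
  have y2 : 0 ≤ x2 := by positivity
  have y3 : 0 ≤ x3 := by positivity
  have y4 : 0 ≤ x4 := by positivity
  -- `(L+1)² ≤ 4800 A / σ`
  have hLA : (L + 1) ^ 2 ≤ 4800 * A / σ := by
    have h1 : ((n : ℝ) + 1) * (L + 1) ^ 2 ≤ ((n : ℝ) + 1) * (4800 * A / σ) := by
      refine hL.trans ?_
      have : 1200 * TS n w / σ ≤ 1200 * (4 * ((n : ℝ) + 1) * A) / σ :=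
        div_le_div_of_nonneg_right (by linarith) hσ0.le
      refine this.trans (le_of_eq ?_)
      ring
    exact le_of_mul_le_mul_left h1 hN0
  push_cast
  have hden : (0 : ℝ) < 2 * ((n : ℝ) + 1) := by positivity
  have hden' : (0 : ℝ) < 2 * ((n : ℝ) + 2 + 1) := by positivity
  rw [abs_le]
  constructor
  · have h1 : (A + B) / (2 * ((n : ℝ) + 2 + 1)) ≤
        (A + (x1 + x2) + (B + (x3 + x4))) / (2 * ((n : ℝ) + 2 + 1)) :=
      div_le_div_of_nonneg_right (by linarith) hden'.le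
    have h2 : (A + B) / (2 * ((n : ℝ) + 1)) - 20000 / σ * ((A + B) / (2 * ((n : ℝ) + 1))) ≤
        (A + B) / (2 * ((n : ℝ) + 2 + 1)) := by
      have e1 : (A + B) / (2 * ((n : ℝ) + 1)) - 20000 / σ * ((A + B) / (2 * ((n : ℝ) + 1))) =
          (A + B) * ((1 - 20000 / σ) / (2 * ((n : ℝ) + 1))) := by ring
      have e2 : (A + B) / (2 * ((n : ℝ) + 2 + 1)) = (A + B) * (1 / (2 * ((n : ℝ) + 2 + 1))) := by
        ring
      rw [e1, e2]
      apply mul_le_mul_of_nonneg_left _ (by linarith)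
      rw [div_le_div_iff₀ hden hden']
      have e3 : 2 / ((n : ℝ) + 1) ≤ 20000 / σ := by
        rw [div_le_div_iff₀ hN0 hσ0, ← hσ2]
        nlinarith
      have e4 : (1 - 2 / ((n : ℝ) + 1)) * ((n : ℝ) + 2 + 1) ≤ (n : ℝ) + 1 := by
        have e5 : (1 - 2 / ((n : ℝ) + 1)) * ((n : ℝ) + 2 + 1) =
            (((n : ℝ) + 1) - 2) * ((n : ℝ) + 2 + 1) / ((n : ℝ) + 1) := by
          field_simp
        rw [e5, div_le_iff₀ hN0]
        nlinarith
      have e6 : (1 - 20000 / σ) * ((n : ℝ) + 2 + 1) ≤ (1 - 2 / ((n : ℝ) + 1)) *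
          ((n : ℝ) + 2 + 1) := mul_le_mul_of_nonneg_right (by linarith) (by positivity)
      linarith
    linarith
  · have h1 : (A + (x1 + x2) + (B + (x3 + x4))) / (2 * ((n : ℝ) + 2 + 1)) ≤
        (A + B + 4 * (4800 * A / σ)) / (2 * ((n : ℝ) + 1)) := by
      apply div_le_div₀ (by positivity) _ hden (by linarith)
      linarith
    have h2 : (A + B + 4 * (4800 * A / σ)) / (2 * ((n : ℝ) + 1)) =
        (A + B) / (2 * ((n : ℝ) + 1)) + 19200 / σ * (A / (2 * ((n : ℝ) + 1))) := by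
      field_simp
      ring
    have h3 : 19200 / σ * (A / (2 * ((n : ℝ) + 1))) ≤
        20000 / σ * ((A + B) / (2 * ((n : ℝ) + 1))) := by
      apply mul_le_mul
      · apply div_le_div_of_nonneg_right _ hσ0.le
        norm_num
      · apply div_le_div_of_nonneg_right _ hden.le
        linarith
      · positivity
      · positivity
    linarith

theorem Re2_ins {n : ℕ} {w : Fin (n + 1) → ℤ × ℤ} {p : ℕ × (ℤ × ℤ)} (hp : p ∈ Ins n w) :
    Re2 (n + 2) (ins n w p.1 p.2) = Re2 n w := by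
  have hk : p.1 < n := (mem_Ins.1 (show (p.1, p.2) ∈ Ins n w from hp)).1
  unfold Re2
  rw [ins_zero, ins_last w p.2 hk]

end Pool.Agent.SawLim
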