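import Pool.Agent.SawLim.Size

/-!
Regularity in `n` of the mean sizes of planar self-avoiding walks.
-/

set_option autoImplicit false

open Pool.Agent.SawKes

namespace Pool.Agent.SawLim

/-! ### Removing the last step -/

lemma QS_ini {n : ℕ} (v : Fin (n + 1 + 1) → ℤ × ℤ) (p : ℤ × ℤ) :
    QS (n + 1) v p = QS n (ini n v) p + ‖pt (v (Fin.last (n + 1))) - pt p‖ ^ 2 :=
  sum_ini v (fun q => ‖pt q - pt p‖ ^ 2)

lemma TS_ini {n : ℕ} (v : Fin (n + 1 + 1) → ℤ × ℤ) :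
    TS (n + 1) v = TS n (ini n v) + 2 * QS n (ini n v) (v (Fin.last (n + 1))) := by
  unfold TS
  rw [sum_ini v (fun q => QS (n + 1) v q)]
  simp only [QS_ini v]
  rw [Finset.sum_add_distrib, sub_self, norm_zero]
  have e1 : ∑ j, ‖pt (v (Fin.last (n + 1))) - pt (ini n v j)‖ ^ 2 =
      QS n (ini n v) (v (Fin.last (n + 1))) := by
    unfold QS
    apply Finset.sum_congr rfl
    intro j _
    rw [norm_sub_rev]
  rw [e1]
  ring

lemma last_near {n : ℕ} {v : Fin (n + 1 + 1) → ℤ × ℤ} (h : IsSAW (n + 1) v) :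
    ‖pt (v (Fin.last (n + 1))) - pt (ini n v (Fin.last n))‖ ≤ 1 := by
  have e1 : v (Fin.last (n + 1)) = wN (n + 1) v (n + 1) := w_eq_wN v (Fin.last (n + 1))
  have e2 : ini n v (Fin.last n) = wN (n + 1) v n := by
    rw [w_eq_wN (ini n v), ← wN_ini v le_rfl]; rfl
  rw [e1, e2]
  have := norm_wN_sub_le h (i := n + 1) (j := n) (c := 1) le_rfl (by omega) (by omega) (by omega)
  exact_mod_cast this

theorem Rg2_ini {n : ℕ} (hn : 1 ≤ n) {v : Fin (n + 1 + 1) → ℤ × ℤ} (h : IsSAW (n + 1) v) :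
    Rg2 (n + 1) v ≤ (1 + 20000 / Real.sqrt ((n : ℝ) + 1)) * Rg2 n (ini n v) := by
  have h' := isSAW_ini h
  obtain ⟨L, hL1, hDB, hL⟩ := exists_diam hn h'
  have q1 := QS_le hDB (last_near h)
  have hN1 : (1 : ℝ) ≤ (n : ℝ) + 1 := by
    have : (0 : ℝ) ≤ n := Nat.cast_nonneg _
    linarith
  have hN0 : (0 : ℝ) < (n : ℝ) + 1 := by linarith
  obtain ⟨σ, hσ⟩ : ∃ σ, σ = Real.sqrt ((n : ℝ) + 1) := ⟨_, rfl⟩
  have hσ0 : 0 < σ := by rw [hσ]; exact Real.sqrt_pos.2 hN0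
  have hT0 := TS_nonneg (ini n v)
  rw [← hσ] at hL ⊢
  rw [Rg2_eq, Rg2_eq, TS_ini v]
  push_cast
  have hden : (0 : ℝ) < 2 * ((n : ℝ) + 1) ^ 2 := by positivity
  have h1 : (TS n (ini n v) + 2 * QS n (ini n v) (v (Fin.last (n + 1)))) /
      (2 * ((n : ℝ) + 1 + 1) ^ 2) ≤
      (TS n (ini n v) + 2 * (1200 * TS n (ini n v) / σ)) / (2 * ((n : ℝ) + 1) ^ 2) := by
    apply div_le_div₀ (by positivity) (by linarith) hden
    nlinarith
  refine h1.trans ?_
  have e : (1 + 20000 / σ) * (TS n (ini n v) / (2 * ((n : ℝ) + 1) ^ 2)) =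
      (TS n (ini n v) + 20000 * TS n (ini n v) / σ) / (2 * ((n : ℝ) + 1) ^ 2) := by
    field_simp
  rw [e]
  apply div_le_div_of_nonneg_right _ hden.le
  have : 2 * (1200 * TS n (ini n v) / σ) ≤ 20000 * TS n (ini n v) / σ := by
    rw [← mul_div_assoc]
    apply div_le_div_of_nonneg_right _ hσ0.le
    linarith
  linarith

theorem Rm2_ini {n : ℕ} (hn : 1 ≤ n) {v : Fin (n + 1 + 1) → ℤ × ℤ} (h : IsSAW (n + 1) v) :
    Rm2 (n + 1) v ≤ (1 + 20000 / Real.sqrt ((n : ℝ) + 1)) * Rm2 n (ini n v) := by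
  have h' := isSAW_ini h
  obtain ⟨L, hL1, hDB, hL⟩ := exists_diam hn h'
  have hnear := last_near h
  have hN1 : (1 : ℝ) ≤ (n : ℝ) + 1 := by
    have : (0 : ℝ) ≤ n := Nat.cast_nonneg _
    linarith
  have hN0 : (0 : ℝ) < (n : ℝ) + 1 := by linarith
  obtain ⟨σ, hσ⟩ : ∃ σ, σ = Real.sqrt ((n : ℝ) + 1) := ⟨_, rfl⟩
  have hσ0 : 0 < σ := by rw [hσ]; exact Real.sqrt_pos.2 hN0
  have hσ2 : σ ^ 2 = (n : ℝ) + 1 := by rw [hσ]; exact Real.sq_sqrt hN0.le
  have hσ1 : 1 ≤ σ := by rw [hσ]; exact Real.one_le_sqrt.2 hN1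
  have hTQ := TS_le_QS (ini n v) (ini n v 0)
  have hTlow := TS_ge hn h'
  rw [← hσ] at hL ⊢
  have hv0 : v 0 = ini n v 0 := rfl
  rw [Rm2_eq, Rm2_eq, QS_ini v, QS_ini v, sub_self, norm_zero, hv0]
  set w := ini n v with hw
  set z := v (Fin.last (n + 1)) with hz
  set A := QS n w (w 0) with hA
  set B := QS n w (w (Fin.last n)) with hB
  have hA0 : 0 ≤ A := QS_nonneg _ _
  have hB0 : 0 ≤ B := QS_nonneg _ _
  have hLA : (L + 1) ^ 2 ≤ 4800 * A / σ := by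
    have h1 : ((n : ℝ) + 1) * (L + 1) ^ 2 ≤ ((n : ℝ) + 1) * (4800 * A / σ) := by
      refine hL.trans ?_
      have : 1200 * TS n w / σ ≤ 1200 * (4 * ((n : ℝ) + 1) * A) / σ :=
        div_le_div_of_nonneg_right (by linarith) hσ0.le
      refine this.trans (le_of_eq ?_)
      ring
    exact le_of_mul_le_mul_left h1 hN0
  have hz0 : ‖pt z - pt (w 0)‖ ^ 2 ≤ (L + 1) ^ 2 := by
    apply pow_le_pow_left₀ (norm_nonneg _)
    calc ‖pt z - pt (w 0)‖ = ‖(pt z - pt (w (Fin.last n))) + (pt (w (Fin.last n)) - pt (w 0))‖ := by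
          congr 1; abel
      _ ≤ 1 + L := (norm_add_le _ _).trans (add_le_add hnear (hDB _ _))
      _ = L + 1 := add_comm _ _
  -- `N² ≤ 640 A`
  have hNA : ((n : ℝ) + 1) ^ 2 ≤ 640 * A := by
    have h1 : ((n : ℝ) + 1) * ((n : ℝ) + 1) ^ 2 ≤ ((n : ℝ) + 1) * (640 * A) := by
      have : ((n : ℝ) + 1) ^ 3 / 160 ≤ 4 * ((n : ℝ) + 1) * A := hTlow.trans hTQ
      nlinarith
    exact le_of_mul_le_mul_left h1 hN0
  -- the endpoint sum
  have hQz : QS n w z ≤ (1 + 1 / σ) * B + 1280 * A / σ := by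
    have h1 : QS n w z ≤ (1 + 1 / σ) * B + (1 + σ) * ((n : ℝ) + 1) := by
      have e : (1 + 1 / σ) * B + (1 + σ) * ((n : ℝ) + 1) =
          ∑ i, ((1 + 1 / σ) * ‖pt (w i) - pt (w (Fin.last n))‖ ^ 2 + (1 + σ)) := by
        rw [Finset.sum_add_distrib, ← Finset.mul_sum, Finset.sum_const, Finset.card_univ,
          Fintype.card_fin, nsmul_eq_mul, hB]
        unfold QS
        push_cast; ring
      rw [e]
      unfold QS
      apply Finset.sum_le_sum
      intro i _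
      set x := ‖pt (w i) - pt (w (Fin.last n))‖ with hx
      have hx0 : 0 ≤ x := norm_nonneg _
      have h2 : ‖pt (w i) - pt z‖ ≤ x + 1 := by
        calc ‖pt (w i) - pt z‖ = ‖(pt (w i) - pt (w (Fin.last n))) -
              (pt z - pt (w (Fin.last n)))‖ := by congr 1; abel
          _ ≤ x + 1 := (norm_sub_le _ _).trans (add_le_add le_rfl hnear)
      have h3 : ‖pt (w i) - pt z‖ ^ 2 ≤ (x + 1) ^ 2 := pow_le_pow_left₀ (norm_nonneg _) h2 2
      have h4 : (x + 1) ^ 2 ≤ (1 + 1 / σ) * x ^ 2 + (1 + σ) := by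
        have h5 : 0 ≤ (x - σ) ^ 2 / σ := by positivity
        have h6 : (x - σ) ^ 2 / σ = 1 / σ * x ^ 2 - 2 * x + σ := by
          field_simp
          ring
        nlinarith
      linarith
    have h2 : (1 + σ) * ((n : ℝ) + 1) ≤ 1280 * A / σ := by
      rw [le_div_iff₀ hσ0]
      have h3 : (1 + σ) * ((n : ℝ) + 1) * σ ≤ 2 * ((n : ℝ) + 1) ^ 2 := by
        have : (1 + σ) * σ ≤ 2 * ((n : ℝ) + 1) := by
          rw [← hσ2]; nlinarith
        nlinarith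
      linarith
    linarith
  push_cast
  have hden : (0 : ℝ) < 2 * ((n : ℝ) + 1) := by positivity
  have h1 : (A + ‖pt z - pt (w 0)‖ ^ 2 + (QS n w z + 0 ^ 2)) / (2 * ((n : ℝ) + 1 + 1)) ≤
      (A + 4800 * A / σ + ((1 + 1 / σ) * B + 1280 * A / σ)) / (2 * ((n : ℝ) + 1)) := by
    apply div_le_div₀ (by positivity) _ hden (by linarith)
    have : QS n w z + 0 ^ 2 = QS n w z := by ring
    rw [this]
    linarith
  refine h1.trans ?_
  rw [← mul_div_assoc]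
  apply div_le_div_of_nonneg_right _ hden.le
  have e1 : A + 4800 * A / σ + ((1 + 1 / σ) * B + 1280 * A / σ) =
      (A + B) + (6080 * A + B) / σ := by ring
  have e2 : (1 + 20000 / σ) * (A + B) = (A + B) + 20000 * (A + B) / σ := by ring
  rw [e1, e2]
  have : (6080 * A + B) / σ ≤ 20000 * (A + B) / σ :=
    div_le_div_of_nonneg_right (by linarith) hσ0.le
  linarith

/-! ### A class of sizes -/

/-- the properties of the squared sizes used below -/
structure Size (D : (n : ℕ) → (Fin (n + 1) → ℤ × ℤ) → ℝ) : Prop where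
  nonneg : ∀ n w, 0 ≤ D n w
  le_sq : ∀ n, 1 ≤ n → ∀ w, IsSAW n w → D n w ≤ (n : ℝ) ^ 2
  ins : ∀ n, 1 ≤ n → ∀ w, IsSAW n w → ∀ p ∈ Ins n w,
    |D (n + 2) (ins n w p.1 p.2) - D n w| ≤ 20000 / Real.sqrt ((n : ℝ) + 1) * D n w
  low : ∀ n, 1 ≤ n → 1 / 640 ≤ avg n (D n)
  one : ∀ δ : ℝ, 0 < δ → δ < 1 / 2 → ∃ A : ℝ, 0 ≤ A ∧ ∀ n : ℕ, 1 ≤ n →
    avg (n + 1) (D (n + 1)) ≤ (1 + A * (n : ℝ) ^ (δ - 1 / 2)) * (3 * (cN n / cN (n + 1))) *
      avg n (D n)

lemma one_le_kappa {n : ℕ} (hn : 1 ≤ n) : 1 ≤ 3 * (cN n / cN (n + 1)) := by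
  have := cN_succ_le hn
  have h2 := cN_pos (n + 1)
  rw [← mul_div_assoc, le_div_iff₀ h2]
  linarith

lemma one_of_pointwise {D : (n : ℕ) → (Fin (n + 1) → ℤ × ℤ) → ℝ} (h0 : ∀ n w, 0 ≤ D n w)
    (h : ∀ n, 1 ≤ n → ∀ v, IsSAW (n + 1) v →
      D (n + 1) v ≤ (1 + 20000 / Real.sqrt ((n : ℝ) + 1)) * D n (ini n v)) (δ : ℝ) (hδ : 0 < δ) :
    ∃ A : ℝ, 0 ≤ A ∧ ∀ n : ℕ, 1 ≤ n →
    avg (n + 1) (D (n + 1)) ≤ (1 + A * (n : ℝ) ^ (δ - 1 / 2)) * (3 * (cN n / cN (n + 1))) *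
      avg n (D n) := by
  refine ⟨20000, by norm_num, fun n hn => ?_⟩
  have hn1 : (1 : ℝ) ≤ n := by exact_mod_cast hn
  have hn0 : (0 : ℝ) < n := by linarith
  have h1 : avg (n + 1) (D (n + 1)) ≤
      avg (n + 1) (fun v => 0 + (1 + 20000 / Real.sqrt ((n : ℝ) + 1)) * D n (ini n v)) := by
    apply avg_mono
    intro v hv
    rw [zero_add]
    exact h n hn v (mem_saws.1 hv)
  rw [avg_add_const, zero_add] at h1
  have h2 := avg_ini_le hn (D n) (fun w _ => h0 n w)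
  have hσ : 1 / Real.sqrt ((n : ℝ) + 1) ≤ (n : ℝ) ^ (δ - 1 / 2) := by
    have e : (n : ℝ) ^ (-(1 / 2) : ℝ) = 1 / Real.sqrt n := by
      rw [Real.rpow_neg hn0.le, ← Real.sqrt_eq_rpow, one_div]
    calc 1 / Real.sqrt ((n : ℝ) + 1) ≤ 1 / Real.sqrt n :=
          one_div_le_one_div_of_le (Real.sqrt_pos.2 hn0) (Real.sqrt_le_sqrt (by linarith))
      _ = (n : ℝ) ^ (-(1 / 2) : ℝ) := e.symm
      _ ≤ _ := Real.rpow_le_rpow_of_exponent_le hn1 (by linarith)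
  have hs0 : 0 < Real.sqrt ((n : ℝ) + 1) := Real.sqrt_pos.2 (by linarith)
  have h3 : 0 ≤ avg n (D n) := avg_nonneg (fun w _ => h0 n w)
  have hκ := one_le_kappa hn
  calc avg (n + 1) (D (n + 1)) ≤ (1 + 20000 / Real.sqrt ((n : ℝ) + 1)) *
        (3 * (cN n / cN (n + 1)) * avg n (D n)) :=
        h1.trans (mul_le_mul_of_nonneg_left h2 (by positivity))
    _ ≤ (1 + 20000 * (n : ℝ) ^ (δ - 1 / 2)) * (3 * (cN n / cN (n + 1)) * avg n (D n)) := by
        apply mul_le_mul_of_nonneg_right _ (by positivity)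
        have : 20000 / Real.sqrt ((n : ℝ) + 1) = 20000 * (1 / Real.sqrt ((n : ℝ) + 1)) := by ring
        rw [this]
        linarith
    _ = _ := by ring

lemma low_of_pointwise {n : ℕ} {f : (Fin (n + 1) → ℤ × ℤ) → ℝ} {c : ℝ}
    (h : ∀ w, IsSAW n w → c ≤ f w) : c ≤ avg n f := by
  have h1 : avg n (fun _ => c + 0 * 0) ≤ avg n f := by
    apply avg_mono
    intro w hw
    have := h w (mem_saws.1 hw)
    linarith
  rw [avg_add_const] at h1
  linarith

lemma Rg2_low {n : ℕ} (hn : 1 ≤ n) {w : Fin (n + 1) → ℤ × ℤ} (h : IsSAW n w) :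
    1 / 640 ≤ Rg2 n w := by
  have h1 := TS_ge hn h
  have hN1 : (1 : ℝ) ≤ (n : ℝ) + 1 := by
    have : (0 : ℝ) ≤ n := Nat.cast_nonneg _
    linarith
  rw [Rg2_eq, le_div_iff₀ (by positivity)]
  nlinarith [sq_nonneg ((n : ℝ) + 1)]

theorem size_Rg2 : Size Rg2 where
  nonneg n w := by
    rw [Rg2_eq]
    have := TS_nonneg w
    positivity
  le_sq n hn w h := by
    have h1 := DB_n h
    rw [Rg2_eq, div_le_iff₀ (by positivity)]
    have h2 : TS n w ≤ ((n : ℝ) + 1) ^ 2 * (n : ℝ) ^ 2 := by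
      unfold TS QS
      calc ∑ j, ∑ i, ‖pt (w i) - pt (w j)‖ ^ 2 ≤
            ∑ _j : Fin (n + 1), ∑ _i : Fin (n + 1), (n : ℝ) ^ 2 := by
            apply Finset.sum_le_sum
            intro j _
            apply Finset.sum_le_sum
            intro i _
            exact pow_le_pow_left₀ (norm_nonneg _) (h1 i j) 2
        _ = ((n : ℝ) + 1) ^ 2 * (n : ℝ) ^ 2 := by
            simp only [Finset.sum_const, Finset.card_univ, Fintype.card_fin, nsmul_eq_mul]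
            push_cast; ring
    have h3 : 0 ≤ ((n : ℝ) + 1) ^ 2 * (n : ℝ) ^ 2 := by positivity
    linarith
  ins n hn w h p hp := Rg2_ins hn h hp
  low n hn := low_of_pointwise (fun w h => Rg2_low hn h)
  one δ hδ _ := one_of_pointwise (fun n w => by
    rw [Rg2_eq]
    have := TS_nonneg w
    positivity) (fun n hn v h => Rg2_ini hn h) δ hδ

lemma Rm2_nonneg (n : ℕ) (w : Fin (n + 1) → ℤ × ℤ) : 0 ≤ Rm2 n w := by
  rw [Rm2_eq]
  have := QS_nonneg w (w 0)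
  have := QS_nonneg w (w (Fin.last n))
  positivity

theorem size_Rm2 : Size Rm2 where
  nonneg := Rm2_nonneg
  le_sq n hn w h := by
    have h1 := DB_n h
    rw [Rm2_eq, div_le_iff₀ (by positivity)]
    have h2 : ∀ j, QS n w (w j) ≤ ((n : ℝ) + 1) * (n : ℝ) ^ 2 := by
      intro j
      unfold QS
      calc ∑ i, ‖pt (w i) - pt (w j)‖ ^ 2 ≤ ∑ _i : Fin (n + 1), (n : ℝ) ^ 2 := by
            apply Finset.sum_le_sum
            intro i _
            exact pow_le_pow_left₀ (norm_nonneg _) (h1 i j) 2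
        _ = ((n : ℝ) + 1) * (n : ℝ) ^ 2 := by
            simp only [Finset.sum_const, Finset.card_univ, Fintype.card_fin, nsmul_eq_mul]
            push_cast; ring
    have := h2 0
    have := h2 (Fin.last n)
    linarith
  ins n hn w h p hp := Rm2_ins hn h hp
  low n hn := low_of_pointwise (fun w h => by
    have h1 := TS_ge hn h
    have h2 := TS_le_QS w (w 0)
    have h3 := QS_nonneg w (w (Fin.last n))
    have hn1 : (1 : ℝ) ≤ n := by exact_mod_cast hn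
    have hN0 : (0 : ℝ) < (n : ℝ) + 1 := by linarith
    rw [Rm2_eq, le_div_iff₀ (by positivity)]
    have h4 : ((n : ℝ) + 1) ^ 2 ≤ 640 * QS n w (w 0) := by
      have h5 : ((n : ℝ) + 1) * ((n : ℝ) + 1) ^ 2 ≤ ((n : ℝ) + 1) * (640 * QS n w (w 0)) := by
        have := h1.trans h2
        nlinarith
      exact le_of_mul_le_mul_left h5 hN0
    nlinarith [sq_nonneg ((n : ℝ) + 1)])
  one δ hδ _ := one_of_pointwise Rm2_nonneg (fun n hn v h => Rm2_ini hn h) δ hδ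

lemma Re2_saw {n : ℕ} {w : Fin (n + 1) → ℤ × ℤ} (h : IsSAW n w) :
    Re2 n w = ‖pt (w (Fin.last n))‖ ^ 2 := by
  unfold Re2
  rw [h.1, pt_zero, sub_zero]

lemma avg_Re2 {n : ℕ} (hn : 1 ≤ n) : avg n (Re2 n) = s n ^ 2 := by
  rw [s_sq hn, avg_eq, avg_eq]
  congr 1
  apply Finset.sum_congr rfl
  intro w hw
  exact Re2_saw (mem_saws.1 hw)

theorem size_Re2 : Size Re2 where
  nonneg n w := by unfold Re2; positivity
  le_sq n _ w h := by
    unfold Re2
    exact pow_le_pow_left₀ (norm_nonneg _) (DB_n h _ _) 2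
  ins n _ w _ p hp := by
    rw [Re2_ins hp, sub_self, abs_zero]
    have : 0 ≤ Re2 n w := by unfold Re2; positivity
    positivity
  low n hn := by
    rw [avg_Re2 hn]
    have := one_le_s hn
    have : (1 : ℝ) ≤ s n ^ 2 := one_le_pow₀ this
    linarith
  one δ hδ hδ' := by
    obtain ⟨c, hc, hs⟩ := s_lower δ hδ
    refine ⟨1 + 2 / c ^ 2, by positivity, fun n hn => ?_⟩
    rw [avg_Re2 (by omega), avg_Re2 hn]
    have hn1 : (1 : ℝ) ≤ n := by exact_mod_cast hn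
    have hn0 : (0 : ℝ) < n := by linarith
    have hE0 : 0 < (n : ℝ) ^ (δ - 1 / 2) := Real.rpow_pos_of_pos hn0 _
    have hE1 : (n : ℝ) ^ (δ - 1 / 2) ≤ 1 := Real.rpow_le_one_of_one_le_of_nonpos hn1 (by linarith)
    have h1 := s_succ_sq hn hE0
    set e : ℝ := (n : ℝ) ^ (δ - 1 / 2) with he
    have hκ := one_le_kappa hn
    set κ := 3 * (cN n / cN (n + 1)) with hκdef
    have hs2 : c ^ 2 * (n : ℝ) ^ (1 - δ) ≤ s n ^ 2 := by
      have h2 := hs n hn
      have h3 : (c * (n : ℝ) ^ ((1 - δ) / 2)) ^ 2 ≤ s n ^ 2 :=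
        pow_le_pow_left₀ (by positivity) h2 2
      have h4 : ((n : ℝ) ^ ((1 - δ) / 2)) ^ 2 = (n : ℝ) ^ (1 - δ) := by
        rw [← Real.rpow_natCast, ← Real.rpow_mul hn0.le]
        congr 1; push_cast; ring
      rw [mul_pow, h4] at h3
      exact h3
    have h5 : 1 + 1 / e ≤ 2 / c ^ 2 * e * s n ^ 2 := by
      have h6 : 1 + 1 / e ≤ 2 / e := by
        have : 1 ≤ 1 / e := by
          rw [le_div_iff₀ hE0]; linarith
        have h7 : 2 / e = 1 / e + 1 / e := by ring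
        linarith
      refine h6.trans ?_
      have h8 : 2 / e ≤ 2 / c ^ 2 * e * (c ^ 2 * (n : ℝ) ^ (1 - δ)) := by
        have e1 : 2 / c ^ 2 * e * (c ^ 2 * (n : ℝ) ^ (1 - δ)) = 2 * (e * (n : ℝ) ^ (1 - δ)) := by
          field_simp
        rw [e1, div_le_iff₀ hE0]
        have e2 : e * (n : ℝ) ^ (1 - δ) * e = (n : ℝ) ^ δ := by
          rw [he, ← Real.rpow_add hn0, ← Real.rpow_add hn0]
          congr 1; ring
        have e3 : 2 * (e * (n : ℝ) ^ (1 - δ)) * e = 2 * (n : ℝ) ^ δ := by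
          rw [← e2]; ring
        rw [e3]
        have : 1 ≤ (n : ℝ) ^ δ := Real.one_le_rpow hn1 hδ.le
        linarith
      exact h8.trans (mul_le_mul_of_nonneg_left hs2 (by positivity))
    have h9 : 2 / c ^ 2 * e * s n ^ 2 ≤ 2 / c ^ 2 * e * κ * s n ^ 2 := by
      have : 0 ≤ 2 / c ^ 2 * e * s n ^ 2 := by positivity
      nlinarith
    calc s (n + 1) ^ 2 ≤ (1 + e) * κ * s n ^ 2 + (1 + 1 / e) := h1
      _ ≤ (1 + e) * κ * s n ^ 2 + 2 / c ^ 2 * e * κ * s n ^ 2 := by linarith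
      _ = (1 + (1 + 2 / c ^ 2) * e) * κ * s n ^ 2 := by ring

/-! ### The ratio theorems -/

theorem size_two {D : (n : ℕ) → (Fin (n + 1) → ℤ × ℤ) → ℝ} (hD : Size D) (δ : ℝ) (hδ : 0 < δ)
    (hδ' : δ < 1 / 2) : ∃ C : ℝ, ∃ N : ℕ, 0 ≤ C ∧ ∀ n : ℕ, N ≤ n → 1 ≤ n →
    |avg (n + 2) (D (n + 2)) / avg n (D n) - 1| ≤ C * (n : ℝ) ^ (δ - 1 / 2) := by
  obtain ⟨a, ha, _, hbal⟩ := balanced_large
  obtain ⟨N₁, h₁⟩ := hbal δ hδ hδ'
  have hm : 1 ≤ mu ^ 2 := one_le_pow₀ one_le_mu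
  obtain ⟨K, hKdef⟩ : ∃ K, K = KC (mu ^ 2) a := ⟨_, rfl⟩
  have h8 : 8 ≤ K := by rw [hKdef]; exact eight_le_KC hm ha
  obtain ⟨N₂, h₂⟩ : ∃ N : ℕ, ∀ n : ℕ, N ≤ n → (n : ℝ) ^ (δ - 1 / 2) ≤ 1 / (2 * K) := by
    have h : Filter.Tendsto (fun n : ℕ => (n : ℝ) ^ (-(1 / 2 - δ))) Filter.atTop (nhds 0) :=
      (tendsto_rpow_neg_atTop (by linarith : 0 < 1 / 2 - δ)).comp tendsto_natCast_atTop_atTop
    have h3 := h.eventually (ge_mem_nhds (show (0 : ℝ) < 1 / (2 * K) by positivity))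
    obtain ⟨N, hN⟩ := Filter.eventually_atTop.1 h3
    refine ⟨N, fun n hn => ?_⟩
    have := hN n hn
    rwa [neg_sub] at this
  obtain ⟨N₃, h₃⟩ : ∃ N : ℕ, ∀ n : ℕ, N ≤ n → 8 * mu ^ 2 ≤ a * n := by
    obtain ⟨N, hN⟩ := exists_nat_ge (8 * mu ^ 2 / a)
    refine ⟨N, fun n hn => ?_⟩
    have : (N : ℝ) ≤ n := by exact_mod_cast hn
    have h3 : 8 * mu ^ 2 / a ≤ n := hN.trans this
    rw [div_le_iff₀ ha] at h3
    linarith
  refine ⟨4 * K * 40000, max N₁ (max N₂ N₃), by positivity, fun n hn hn1 => ?_⟩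
  have k1 := h₁ n ((le_max_left _ _).trans hn)
  have k2 := h₂ n (((le_max_left _ _).trans (le_max_right _ _)).trans hn)
  have k3 := h₃ n (((le_max_right _ _).trans (le_max_right _ _)).trans hn)
  have hnr : (1 : ℝ) ≤ n := by exact_mod_cast hn1
  have hn0 : (0 : ℝ) < n := by linarith
  have hen : 1 / (n : ℝ) ≤ (n : ℝ) ^ (δ - 1 / 2) := by
    rw [one_div, ← Real.rpow_neg_one]
    exact Real.rpow_le_rpow_of_exponent_le hnr (by linarith)
  have hE0 : 0 < (n : ℝ) ^ (δ - 1 / 2) := Real.rpow_pos_of_pos hn0 _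
  have hσ : 1 / Real.sqrt ((n : ℝ) + 1) ≤ (n : ℝ) ^ (δ - 1 / 2) := by
    have e : (n : ℝ) ^ (-(1 / 2) : ℝ) = 1 / Real.sqrt n := by
      rw [Real.rpow_neg hn0.le, ← Real.sqrt_eq_rpow, one_div]
    calc 1 / Real.sqrt ((n : ℝ) + 1) ≤ 1 / Real.sqrt n :=
          one_div_le_one_div_of_le (Real.sqrt_pos.2 hn0) (Real.sqrt_le_sqrt (by linarith))
      _ = (n : ℝ) ^ (-(1 / 2) : ℝ) := e.symm
      _ ≤ _ := Real.rpow_le_rpow_of_exponent_le hnr (by linarith)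
  have hKe : K * (n : ℝ) ^ (δ - 1 / 2) ≤ 1 / 2 := by
    rw [le_div_iff₀ (by positivity)] at k2
    linarith
  set e : ℝ := (n : ℝ) ^ (δ - 1 / 2) with he
  have h := transfer_avg hm ha hn1 k3 hen (by rw [← hKdef]; exact hKe) k1 (((n : ℝ) + 2) ^ 2)
    (D (n + 2)) (D n) (fun w => 0 + 20000 / Real.sqrt ((n : ℝ) + 1) * D n w)
    (fun v hv => by
      rw [abs_of_nonneg (hD.nonneg _ _)]
      have := hD.le_sq (n + 2) (by omega) v (mem_saws.1 hv)
      push_cast at this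
      exact this)
    (fun w hw => by
      rw [abs_of_nonneg (hD.nonneg _ _)]
      have := hD.le_sq n hn1 w (mem_saws.1 hw)
      refine this.trans (pow_le_pow_left₀ hn0.le (by linarith) 2))
    (fun w _ => by
      have := hD.nonneg n w
      positivity)
    (fun w hw p hp => by
      rw [zero_add]
      exact hD.ins n hn1 w (mem_saws.1 hw) p hp)
  rw [← hKdef, avg_add_const, zero_add] at h
  have habs : avg n (fun w => |D n w|) = avg n (D n) := by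
    congr 1
    funext w
    exact abs_of_nonneg (hD.nonneg n w)
  rw [habs] at h
  have hlow := hD.low n hn1
  set A := avg n (D n) with hA
  have hA0 : 0 < A := by linarith
  have hM : ((n : ℝ) + 2) ^ 2 / (n : ℝ) ^ 3 ≤ 5760 * e * A := by
    have h1 : ((n : ℝ) + 2) ^ 2 / (n : ℝ) ^ 3 ≤ 9 * (1 / n) := by
      rw [mul_one_div, div_le_div_iff₀ (by positivity) hn0]
      have : ((n : ℝ) + 2) ^ 2 ≤ 9 * (n : ℝ) ^ 2 := by nlinarith
      calc ((n : ℝ) + 2) ^ 2 * n ≤ 9 * (n : ℝ) ^ 2 * n := mul_le_mul_of_nonneg_right this hn0.le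
        _ = 9 * (n : ℝ) ^ 3 := by ring
    have h2 : 9 * e ≤ 5760 * e * A := by nlinarith
    linarith
  have hη : 20000 / Real.sqrt ((n : ℝ) + 1) * A ≤ 20000 * e * A := by
    apply mul_le_mul_of_nonneg_right _ hA0.le
    have : 20000 / Real.sqrt ((n : ℝ) + 1) = 20000 * (1 / Real.sqrt ((n : ℝ) + 1)) := by ring
    rw [this]
    linarith
  have e1 : avg (n + 2) (D (n + 2)) / A - 1 = (avg (n + 2) (D (n + 2)) - A) / A := by
    field_simp
  rw [e1, abs_div, abs_of_pos hA0, div_le_iff₀ hA0]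
  refine h.trans ?_
  have h5 : 20000 / Real.sqrt ((n : ℝ) + 1) * A + e * A + ((n : ℝ) + 2) ^ 2 / (n : ℝ) ^ 3 ≤
      40000 * e * A := by
    have : 0 ≤ e * A := by positivity
    linarith
  calc 4 * K * (20000 / Real.sqrt ((n : ℝ) + 1) * A + e * A + ((n : ℝ) + 2) ^ 2 / (n : ℝ) ^ 3)
      ≤ 4 * K * (40000 * e * A) := mul_le_mul_of_nonneg_left h5 (by positivity)
    _ = 4 * K * 40000 * e * A := by ring

set_option maxHeartbeats 1000000 in
/-- **Regularity of the mean sizes.** -/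
theorem size_ratio {D : (n : ℕ) → (Fin (n + 1) → ℤ × ℤ) → ℝ} (hD : Size D) (δ : ℝ) (hδ : 0 < δ)
    (hδ' : δ < 1 / 2) : ∃ C : ℝ, 0 ≤ C ∧ ∀ n : ℕ, 1 ≤ n →
    |avg (n + 2) (D (n + 2)) / avg n (D n) - 1| ≤ C * (n : ℝ) ^ (δ - 1 / 2) ∧
    mu ^ 2 / 9 - C * (n : ℝ) ^ (δ - 1 / 2) ≤ avg (n + 1) (D (n + 1)) / avg n (D n) ∧
    avg (n + 1) (D (n + 1)) / avg n (D n) ≤ 9 / mu ^ 2 + C * (n : ℝ) ^ (δ - 1 / 2) := by
  obtain ⟨C₂, N₂, hC₂, h₂⟩ := size_two hD δ hδ hδ'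
  obtain ⟨A, hA, h₁⟩ := hD.one δ hδ hδ'
  obtain ⟨C₃, hC₃, h₃⟩ := merging_aux δ hδ hδ'
  have hmu := mu_pos
  have hm : 1 ≤ mu ^ 2 := one_le_pow₀ one_le_mu
  obtain ⟨N₄, h₄⟩ : ∃ N : ℕ, ∀ n : ℕ, N ≤ n → (n : ℝ) ^ (δ - 1 / 2) ≤ 1 / (2 * (C₃ + A + 1)) := by
    have h : Filter.Tendsto (fun n : ℕ => (n : ℝ) ^ (-(1 / 2 - δ))) Filter.atTop (nhds 0) :=
      (tendsto_rpow_neg_atTop (by linarith : 0 < 1 / 2 - δ)).comp tendsto_natCast_atTop_atTop
    have h3 := h.eventually (ge_mem_nhds (show (0 : ℝ) < 1 / (2 * (C₃ + A + 1)) by positivity))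
    obtain ⟨N, hN⟩ := Filter.eventually_atTop.1 h3
    refine ⟨N, fun n hn => ?_⟩
    have := hN n hn
    rwa [neg_sub] at this
  have hDpos : ∀ n, 1 ≤ n → 0 < avg n (D n) := fun n hn => by
    have := hD.low n hn
    linarith
  -- large `n`
  have hlarge : ∀ n : ℕ, max N₂ N₄ ≤ n → 1 ≤ n →
      mu ^ 2 / 9 - (C₂ + A + C₃) * (mu ^ 2 + 1) * (n : ℝ) ^ (δ - 1 / 2) ≤
        avg (n + 1) (D (n + 1)) / avg n (D n) ∧
      avg (n + 1) (D (n + 1)) / avg n (D n) ≤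
        9 / mu ^ 2 + (27 * C₃ + 18 * A) * (n : ℝ) ^ (δ - 1 / 2) := by
    intro n hn hn1
    have k2 := h₂ n ((le_max_left _ _).trans hn) hn1
    have k4 := h₄ n ((le_max_right _ _).trans hn)
    have k1 := h₁ n hn1
    have k1' := h₁ (n + 1) (by omega)
    have k3 := (h₃ n hn1).1
    have hnr : (1 : ℝ) ≤ n := by exact_mod_cast hn1
    have hn0 : (0 : ℝ) < n := by linarith
    have hE0 : 0 < (n : ℝ) ^ (δ - 1 / 2) := Real.rpow_pos_of_pos hn0 _
    have hE1 : ((n + 1 : ℕ) : ℝ) ^ (δ - 1 / 2) ≤ (n : ℝ) ^ (δ - 1 / 2) := by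
      apply Real.rpow_le_rpow_of_nonpos hn0 _ (by linarith)
      push_cast; linarith
    set e : ℝ := (n : ℝ) ^ (δ - 1 / 2) with he
    rw [le_div_iff₀ (by positivity)] at k4
    have hAe : A * e ≤ 1 / 2 := by nlinarith
    have hCe : C₃ * e ≤ 1 / 2 := by nlinarith
    obtain ⟨ρ, hρ⟩ : ∃ ρ, ρ = cN (n + 2) / cN n := ⟨_, rfl⟩
    rw [← hρ] at k3
    have q1 := q1_le hn1
    have q2 := q2_le hn1
    rw [← hρ] at q1 q2
    have hρ1 : 1 / 2 ≤ ρ := by
      have := (abs_le.1 k3).1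
      linarith
    have hρ0 : 0 < ρ := by linarith
    have d0 := hDpos n hn1
    have d1 := hDpos (n + 1) (by omega)
    have d2 := hDpos (n + 2) (by omega)
    have hmu2 : 0 < mu ^ 2 := by positivity
    constructor
    · -- lower bound
      have s1 : avg (n + 2) (D (n + 2)) ≤ (1 + A * e) * (9 / ρ) * avg (n + 1) (D (n + 1)) := by
        have a1 : (1 + A * ((n + 1 : ℕ) : ℝ) ^ (δ - 1 / 2)) *
            (3 * (cN (n + 1) / cN (n + 1 + 1))) ≤ (1 + A * e) * (9 / ρ) := by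
          apply mul_le_mul _ q2
          · have := cN_pos (n + 1)
            have := cN_pos (n + 1 + 1)
            positivity
          · positivity
          · have := mul_le_mul_of_nonneg_left hE1 hA
            linarith
        have a2 : avg (n + 1 + 1) (D (n + 1 + 1)) ≤ (1 + A * e) * (9 / ρ) *
            avg (n + 1) (D (n + 1)) := k1'.trans (mul_le_mul_of_nonneg_right a1 d1.le)
        exact a2
      have s2 : (1 - C₂ * e) * avg n (D n) ≤ avg (n + 2) (D (n + 2)) := by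
        have := (abs_le.1 k2).1
        have h5 : 1 - C₂ * e ≤ avg (n + 2) (D (n + 2)) / avg n (D n) := by linarith
        rwa [le_div_iff₀ d0] at h5
      have s3 : (1 - C₂ * e) * ρ ≤ (1 + A * e) * 9 * (avg (n + 1) (D (n + 1)) / avg n (D n)) := by
        have h6 := s2.trans s1
        have h7 : (1 - C₂ * e) * avg n (D n) * ρ ≤
            (1 + A * e) * (9 / ρ) * avg (n + 1) (D (n + 1)) * ρ :=
          mul_le_mul_of_nonneg_right h6 hρ0.le
        have e1 : (1 + A * e) * (9 / ρ) * avg (n + 1) (D (n + 1)) * ρ =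
            (1 + A * e) * 9 * avg (n + 1) (D (n + 1)) := by field_simp
        rw [e1] at h7
        have e2 : (1 + A * e) * 9 * (avg (n + 1) (D (n + 1)) / avg n (D n)) =
            (1 + A * e) * 9 * avg (n + 1) (D (n + 1)) / avg n (D n) := by ring
        rw [e2, le_div_iff₀ d0]
        linarith
      set R := avg (n + 1) (D (n + 1)) / avg n (D n) with hR
      have hR0 : 0 < R := div_pos d1 d0
      -- `ρ ≥ μ² - C₃ e`
      have s4 : mu ^ 2 - C₃ * e ≤ ρ := by linarith [(abs_le.1 k3).1]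
      by_contra hc
      push Not at hc
      -- contradiction by multiplication
      have t1 : 0 ≤ C₂ * e := by positivity
      have t2 : 0 ≤ A * e := by positivity
      have t3 : 0 ≤ C₃ * e := by positivity
      have hRup : 9 * R < mu ^ 2 - 9 * ((C₂ + A + C₃) * (mu ^ 2 + 1) * e) := by linarith
      have hRmu : 9 * R < mu ^ 2 := by
        have : 0 ≤ (C₂ + A + C₃) * (mu ^ 2 + 1) * e := by positivity
        linarith
      have u1 : (1 + A * e) * 9 * R ≤ 9 * R + A * e * mu ^ 2 := by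
        have : A * e * (9 * R) ≤ A * e * mu ^ 2 := mul_le_mul_of_nonneg_left hRmu.le t2
        have e9 : (1 + A * e) * 9 * R = 9 * R + A * e * (9 * R) := by ring
        rw [e9]; linarith
      have u2 : mu ^ 2 - C₃ * e - C₂ * e * (mu ^ 2 + C₃ * e) ≤ (1 - C₂ * e) * ρ := by
        have hρup : ρ ≤ mu ^ 2 + C₃ * e := by linarith [(abs_le.1 k3).2]
        have : C₂ * e * ρ ≤ C₂ * e * (mu ^ 2 + C₃ * e) := mul_le_mul_of_nonneg_left hρup t1
        have e9 : (1 - C₂ * e) * ρ = ρ - C₂ * e * ρ := by ring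
        rw [e9]; linarith
      have u3 : C₂ * e * (mu ^ 2 + C₃ * e) ≤ C₂ * e * (mu ^ 2 + 1) :=
        mul_le_mul_of_nonneg_left (by linarith) t1
      have u4 : (C₂ + A + C₃) * (mu ^ 2 + 1) * e = C₂ * e * (mu ^ 2 + 1) + A * e * (mu ^ 2 + 1) +
          C₃ * e * (mu ^ 2 + 1) := by ring
      have u5 : 0 ≤ C₂ * e * (mu ^ 2 + 1) := by positivity
      have u6 : 0 ≤ C₃ * e * mu ^ 2 := by positivity
      have u7 : 0 ≤ A * e * mu ^ 2 := by positivity
      have u8 : C₃ * e * (mu ^ 2 + 1) = C₃ * e * mu ^ 2 + C₃ * e := by ring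
      have u9 : A * e * (mu ^ 2 + 1) = A * e * mu ^ 2 + A * e := by ring
      have u10 : (1 - C₂ * e) * ρ ≤ 9 * R + A * e * mu ^ 2 := s3.trans u1
      linarith
    · -- upper bound
      have r1 : 9 / ρ ≤ 9 / mu ^ 2 + 18 * (C₃ * e) := by
        have e1 : 9 / ρ - 9 / mu ^ 2 = 9 * (mu ^ 2 - ρ) / (ρ * mu ^ 2) := by
          rw [div_sub_div _ _ hρ0.ne' hmu2.ne']
          congr 1; ring
        have e2 : 9 * (mu ^ 2 - ρ) / (ρ * mu ^ 2) ≤ 18 * (C₃ * e) := by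
          rw [div_le_iff₀ (by positivity)]
          have e3 : mu ^ 2 - ρ ≤ C₃ * e := by linarith [(abs_le.1 k3).1]
          have e4 : (1 : ℝ) / 2 ≤ ρ * mu ^ 2 := by nlinarith
          have e5 : 0 ≤ C₃ * e := by positivity
          nlinarith
        linarith
      rw [div_le_iff₀ d0]
      refine k1.trans (mul_le_mul_of_nonneg_right ?_ d0.le)
      have hκ1 := one_le_kappa hn1
      have r2 : (1 + A * e) * (3 * (cN n / cN (n + 1))) ≤ (1 + A * e) * (9 / mu ^ 2 + 18 * (C₃ * e)) :=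
        mul_le_mul_of_nonneg_left (q1.trans r1) (by positivity)
      refine r2.trans ?_
      have r3 : 9 / mu ^ 2 ≤ 9 := by
        rw [div_le_iff₀ hmu2]; linarith
      have r4 : 0 ≤ C₃ * e := by positivity
      have r5 : 0 ≤ A * e := by positivity
      have r6 : A * e * (9 / mu ^ 2 + 18 * (C₃ * e)) ≤ A * e * 18 :=
        mul_le_mul_of_nonneg_left (by linarith) r5
      have r7 : (1 + A * e) * (9 / mu ^ 2 + 18 * (C₃ * e)) =
          9 / mu ^ 2 + 18 * (C₃ * e) + A * e * (9 / mu ^ 2 + 18 * (C₃ * e)) := by ring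
      rw [r7]
      linarith
  -- all `n`
  obtain ⟨E1, p1, g1⟩ := extend_rpow (ι := Unit)
    (fun _ n => |avg (n + 2) (D (n + 2)) / avg n (D n) - 1|)
    (fun n => |avg (n + 2) (D (n + 2)) / avg n (D n) - 1|) (δ - 1 / 2) C₂ N₂
    (fun _ n hn hn1 => h₂ n hn hn1) (fun _ n _ => le_rfl)
  obtain ⟨E2, p2, g2⟩ := extend_rpow (ι := Unit)
    (fun _ n => mu ^ 2 / 9 - avg (n + 1) (D (n + 1)) / avg n (D n))
    (fun n => mu ^ 2 / 9 - avg (n + 1) (D (n + 1)) / avg n (D n)) (δ - 1 / 2)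
    ((C₂ + A + C₃) * (mu ^ 2 + 1)) (max N₂ N₄)
    (fun _ n hn hn1 => by
      have := (hlarge n hn hn1).1
      linarith) (fun _ n _ => le_rfl)
  obtain ⟨E3, p3, g3⟩ := extend_rpow (ι := Unit)
    (fun _ n => avg (n + 1) (D (n + 1)) / avg n (D n) - 9 / mu ^ 2)
    (fun n => avg (n + 1) (D (n + 1)) / avg n (D n) - 9 / mu ^ 2) (δ - 1 / 2)
    (27 * C₃ + 18 * A) (max N₂ N₄)
    (fun _ n hn hn1 => by
      have := (hlarge n hn hn1).2
      linarith) (fun _ n _ => le_rfl)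
  refine ⟨E1 + E2 + E3, by linarith, fun n hn => ?_⟩
  have hn0 : (0 : ℝ) < n := by exact_mod_cast hn
  have hE : 0 < (n : ℝ) ^ (δ - 1 / 2) := Real.rpow_pos_of_pos hn0 _
  have m1 := mul_nonneg p1 hE.le
  have m2 := mul_nonneg p2 hE.le
  have m3 := mul_nonneg p3 hE.le
  have a1 := g1 () n hn
  have a2 := g2 () n hn
  have a3 := g3 () n hn
  refine ⟨?_, ?_, ?_⟩ <;> nlinarith

end Pool.Agent.SawLim
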