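import Pool.Agent.SawLim.Interp

/-!
Maximal inequality for the planar self-avoiding walk, from the core inequality.
-/

set_option autoImplicit false

open SawNu

namespace Pool.Agent.SawLim

open scoped Classical in
/-- number of walks with property `P` -/
noncomputable def cnt (n : ℕ) (P : (Fin (n + 1) → ℤ × ℤ) → Prop) : ℕ :=
  ((saws n).filter P).card

lemma cnt_mono {n : ℕ} {P Q : (Fin (n + 1) → ℤ × ℤ) → Prop}
    (h : ∀ w, IsSAW n w → P w → Q w) : cnt n P ≤ cnt n Q := by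
  classical
  apply Finset.card_le_card
  intro w hw
  rw [Finset.mem_filter] at hw ⊢
  exact ⟨hw.1, h w (mem_saws.1 hw.1) hw.2⟩

lemma cnt_or_le {n : ℕ} (P Q : (Fin (n + 1) → ℤ × ℤ) → Prop) :
    cnt n (fun w => P w ∨ Q w) ≤ cnt n P + cnt n Q := by
  classical
  unfold cnt
  refine le_trans (Finset.card_le_card ?_) (Finset.card_union_le _ _)
  intro w hw
  simp only [Finset.mem_filter, Finset.mem_union] at hw ⊢
  tauto

lemma cnt_swp (n : ℕ) (P : (Fin (n + 1) → ℤ × ℤ) → Prop) :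
    cnt n (fun w => P (fun k => swp (w k))) = cnt n P := card_filter_swp n P

lemma cnt_vrf (n : ℕ) (P : (Fin (n + 1) → ℤ × ℤ) → Prop) :
    cnt n (fun w => P (fun k => vrf (w k))) = cnt n P := card_filter_vrf n P

lemma cnt_le_card (n : ℕ) (P : (Fin (n + 1) → ℤ × ℤ) → Prop) : cnt n P ≤ (saws n).card := by
  classical
  exact Finset.card_filter_le _ _

theorem cnt_eq_words (n : ℕ) (P : (Fin (n + 1) → ℤ × ℤ) → Prop)
    (Q : List Pt → Prop) [DecidablePred Q]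
    (h : ∀ l ∈ WS sqL n, (P (path n l) ↔ Q l)) :
    cnt n P = ((WS sqL n).filter Q).card := by
  classical
  unfold cnt
  exact card_saws_filter n P Q h

lemma core_sq (δ : ℝ) (hδ : 0 < δ) : ∃ n₀ : ℕ, ∀ n : ℕ, n₀ ≤ n → ∀ r x : ℕ, 2 * r < x →
    (cnt n (fun w => |(w (Fin.last n)).2| ≤ r ∧ ∃ k, (x : ℤ) ≤ (w k).2) : ℝ) ≤
      3 * (n : ℝ) ^ δ * (cnt n (fun w => 2 * (x : ℤ) - 3 * r ≤ (w (Fin.last n)).2) : ℝ) := by
  classical
  obtain ⟨n₀, h⟩ := core sqL δ hδ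
  refine ⟨n₀, fun n hn r x hrx => ?_⟩
  have hlast : ∀ l ∈ WS sqL n, (path n l (Fin.last n)).2 = ht l := by
    intro l hl
    have h1 := (mem_WS.1 hl).1
    show (ps l n).2 = ht l
    rw [← h1, ps_length]
  have e1 : cnt n (fun w => |(w (Fin.last n)).2| ≤ r ∧ ∃ k, (x : ℤ) ≤ (w k).2) =
      ((WS sqL n).filter (fun l => |ht l| ≤ r ∧ (x : ℤ) ≤ mx l)).card := by
    apply cnt_eq_words
    intro l hl
    rw [hlast l hl]
    have h1 := (mem_WS.1 hl).1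
    constructor
    · rintro ⟨h2, k, hk⟩
      refine ⟨h2, hk.trans ?_⟩
      exact le_mx l (by have := k.2; omega)
    · rintro ⟨h2, h3⟩
      refine ⟨h2, ⟨tip l, by have := tip_le l; omega⟩, ?_⟩
      exact h3
  have e2 : cnt n (fun w => 2 * (x : ℤ) - 3 * r ≤ (w (Fin.last n)).2) =
      ((WS sqL n).filter (fun l => 2 * (x : ℤ) - 3 * r ≤ ht l)).card := by
    apply cnt_eq_words
    intro l hl
    rw [hlast l hl]
  rw [e1, e2]
  exact h n hn r x hrx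

/-- one direction -/
lemma up_bound (δ : ℝ) (hδ : 0 < δ) : ∃ n₀ : ℕ, 1 ≤ n₀ ∧ ∀ n : ℕ, n₀ ≤ n → ∀ x : ℕ, 1 ≤ x →
    (cnt n (fun w => ∃ k, (x : ℤ) ≤ (w k).2) : ℝ) ≤
      4 * (n : ℝ) ^ δ * (cnt n (fun w => (x : ℤ) ≤ 2 * |(w (Fin.last n)).2|) : ℝ) := by
  obtain ⟨n₀, h⟩ := core_sq δ hδ
  refine ⟨max n₀ 1, le_max_right _ _, fun n hn x hx => ?_⟩
  have hn0 : n₀ ≤ n := (le_max_left _ _).trans hn
  have hn1 : 1 ≤ n := (le_max_right _ _).trans hn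
  have hpow : (1 : ℝ) ≤ (n : ℝ) ^ δ := Real.one_le_rpow (by exact_mod_cast hn1) hδ.le
  obtain ⟨r, hr1, hr2⟩ : ∃ r : ℕ, 2 * r < x ∧ x ≤ 2 * r + 2 := ⟨(x - 1) / 2, by omega, by omega⟩
  have hc := h n hn0 r x hr1
  have h1 : cnt n (fun w => ∃ k, (x : ℤ) ≤ (w k).2) ≤
      cnt n (fun w => |(w (Fin.last n)).2| ≤ r ∧ ∃ k, (x : ℤ) ≤ (w k).2) +
      cnt n (fun w => (x : ℤ) ≤ 2 * |(w (Fin.last n)).2|) := by
    refine le_trans (cnt_mono ?_) (cnt_or_le _ _)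
    intro w _ hw
    by_cases hc : |(w (Fin.last n)).2| ≤ r
    · exact Or.inl ⟨hc, hw⟩
    · right; omega
  have h2 : cnt n (fun w => 2 * (x : ℤ) - 3 * r ≤ (w (Fin.last n)).2) ≤
      cnt n (fun w => (x : ℤ) ≤ 2 * |(w (Fin.last n)).2|) := by
    apply cnt_mono
    intro w _ hw
    have := le_abs_self (w (Fin.last n)).2
    omega
  have h1' : (cnt n (fun w => ∃ k, (x : ℤ) ≤ (w k).2) : ℝ) ≤
      (cnt n (fun w => |(w (Fin.last n)).2| ≤ r ∧ ∃ k, (x : ℤ) ≤ (w k).2) : ℝ) +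
      (cnt n (fun w => (x : ℤ) ≤ 2 * |(w (Fin.last n)).2|) : ℝ) := by exact_mod_cast h1
  have h2' : (cnt n (fun w => 2 * (x : ℤ) - 3 * r ≤ (w (Fin.last n)).2) : ℝ) ≤
      (cnt n (fun w => (x : ℤ) ≤ 2 * |(w (Fin.last n)).2|) : ℝ) := by exact_mod_cast h2
  have h3 : (0 : ℝ) ≤ (cnt n (fun w => (x : ℤ) ≤ 2 * |(w (Fin.last n)).2|) : ℝ) :=
    Nat.cast_nonneg _
  have h4 : 3 * (n : ℝ) ^ δ * (cnt n (fun w => 2 * (x : ℤ) - 3 * r ≤ (w (Fin.last n)).2) : ℝ) ≤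
      3 * (n : ℝ) ^ δ * (cnt n (fun w => (x : ℤ) ≤ 2 * |(w (Fin.last n)).2|) : ℝ) :=
    mul_le_mul_of_nonneg_left h2' (by linarith)
  nlinarith

/-- all four directions -/
lemma four_bound (n x : ℕ) :
    cnt n (fun w => ∃ k, (x : ℤ) ≤ |(w k).1| ∨ (x : ℤ) ≤ |(w k).2|) ≤
      4 * cnt n (fun w => ∃ k, (x : ℤ) ≤ (w k).2) := by
  have hy : cnt n (fun w => ∃ k, (x : ℤ) ≤ |(w k).2|) ≤
      2 * cnt n (fun w => ∃ k, (x : ℤ) ≤ (w k).2) := by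
    have e := cnt_vrf n (fun w => ∃ k, (x : ℤ) ≤ (w k).2)
    have h := cnt_or_le (n := n) (fun w => ∃ k, (x : ℤ) ≤ (w k).2)
      (fun w => ∃ k, (x : ℤ) ≤ (vrf (w k)).2)
    have h' : cnt n (fun w => ∃ k, (x : ℤ) ≤ |(w k).2|) ≤
        cnt n (fun w => (∃ k, (x : ℤ) ≤ (w k).2) ∨ ∃ k, (x : ℤ) ≤ (vrf (w k)).2) := by
      apply cnt_mono
      rintro w _ ⟨k, hk⟩
      rcases le_abs.1 hk with h | h
      · exact Or.inl ⟨k, h⟩
      · exact Or.inr ⟨k, h⟩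
    simp only at e
    omega
  have hx : cnt n (fun w => ∃ k, (x : ℤ) ≤ |(w k).1|) =
      cnt n (fun w => ∃ k, (x : ℤ) ≤ |(w k).2|) := by
    rw [← cnt_swp n (fun w => ∃ k, (x : ℤ) ≤ |(w k).2|)]
    rfl
  have h := cnt_or_le (n := n) (fun w => ∃ k, (x : ℤ) ≤ |(w k).1|)
    (fun w => ∃ k, (x : ℤ) ≤ |(w k).2|)
  have h' : cnt n (fun w => ∃ k, (x : ℤ) ≤ |(w k).1| ∨ (x : ℤ) ≤ |(w k).2|) ≤
      cnt n (fun w => (∃ k, (x : ℤ) ≤ |(w k).1|) ∨ ∃ k, (x : ℤ) ≤ |(w k).2|) := by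
    apply cnt_mono
    rintro w _ ⟨k, hk | hk⟩
    · exact Or.inl ⟨k, hk⟩
    · exact Or.inr ⟨k, hk⟩
  omega

lemma norm_pt_sq (p : ℤ × ℤ) : ‖pt p‖ ^ 2 = (p.1 : ℝ) ^ 2 + (p.2 : ℝ) ^ 2 := by
  rw [EuclideanSpace.norm_sq_eq]
  simp [pt]

lemma norm_pt_le (p : ℤ × ℤ) : ‖pt p‖ ≤ |(p.1 : ℝ)| + |(p.2 : ℝ)| := by
  apply (sq_le_sq₀ (norm_nonneg _) (by positivity)).1
  rw [norm_pt_sq]
  have h1 := sq_abs (p.1 : ℝ)
  have h2 := sq_abs (p.2 : ℝ)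
  have h3 : 0 ≤ |(p.1 : ℝ)| * |(p.2 : ℝ)| := by positivity
  nlinarith

lemma abs_le_norm_pt (p : ℤ × ℤ) : |(p.2 : ℝ)| ≤ ‖pt p‖ := by
  apply (sq_le_sq₀ (abs_nonneg _) (norm_nonneg _)).1
  rw [norm_pt_sq, sq_abs]
  nlinarith [sq_nonneg (p.1 : ℝ)]

lemma l1_le {n : ℕ} {w : Fin (n + 1) → ℤ × ℤ} (h : IsSAW n w) (k : ℕ) (hk : k ≤ n) :
    |(wN n w k).1| + |(wN n w k).2| ≤ k := by
  obtain ⟨h1, h2, h3⟩ := h
  induction k with
  | zero =>
    rw [wN_of_le w (Nat.zero_le _)]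
    have : w ⟨0, by omega⟩ = 0 := h1
    rw [this]; simp
  | succ k ih =>
    have hs := h2 ⟨k, by omega⟩
    rw [wN_succ w ⟨k, by omega⟩, wN_castSucc w ⟨k, by omega⟩] at hs
    simp only at hs
    have := ih (by omega)
    have a1 := abs_sub_abs_le_abs_sub (wN n w (k + 1)).1 (wN n w k).1
    have a2 := abs_sub_abs_le_abs_sub (wN n w (k + 1)).2 (wN n w k).2
    push_cast
    linarith

lemma norm_pt_le_n {n : ℕ} {w : Fin (n + 1) → ℤ × ℤ} (h : IsSAW n w) (k : Fin (n + 1)) :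
    ‖pt (w k)‖ ≤ n := by
  have h1 := l1_le h k (by have := k.2; omega)
  rw [wN_of_le w (by have := k.2; omega)] at h1
  have h2 := norm_pt_le (w k)
  have h3 : (|(w k).1| : ℤ) + |(w k).2| ≤ (k : ℕ) := h1
  have h4 : |((w k).1 : ℝ)| + |((w k).2 : ℝ)| ≤ (k : ℕ) := by exact_mod_cast h3
  have h5 : ((k : ℕ) : ℝ) ≤ n := by
    have := k.2
    exact_mod_cast (by omega : (k : ℕ) ≤ n)
  linarith

/-- **Maximal inequality** in terms of Euclidean norms. -/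
theorem max_bound (δ : ℝ) (hδ : 0 < δ) : ∃ K : ℝ, 1 ≤ K ∧ ∀ n : ℕ, 1 ≤ n → ∀ lam : ℝ,
    (cnt n (fun w => ∃ k, lam ≤ ‖pt (w k)‖) : ℝ) ≤
      K * (n : ℝ) ^ δ * (cnt n (fun w => lam ≤ 3 * ‖pt (w (Fin.last n))‖) : ℝ) := by
  obtain ⟨n₀, hn₀, h⟩ := up_bound δ hδ
  obtain ⟨C, hC⟩ : ∃ C : ℝ, ∀ n, n < n₀ → ((saws n).card : ℝ) ≤ C := by
    obtain ⟨m, _, hm⟩ := Finset.exists_max_image (Finset.range n₀) (fun n => ((saws n).card : ℝ))
      ⟨0, Finset.mem_range.2 hn₀⟩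
    exact ⟨_, fun n hn => hm n (Finset.mem_range.2 hn)⟩
  refine ⟨max C 16, le_trans (by norm_num) (le_max_right _ _), fun n hn lam => ?_⟩
  have hpow : (1 : ℝ) ≤ (n : ℝ) ^ δ := Real.one_le_rpow (by exact_mod_cast hn) hδ.le
  have hcn : (0 : ℝ) ≤ (cnt n (fun w => lam ≤ 3 * ‖pt (w (Fin.last n))‖) : ℝ) :=
    Nat.cast_nonneg _
  by_cases hlam : lam ≤ 0
  · have h1 : cnt n (fun w => ∃ k, lam ≤ ‖pt (w k)‖) ≤
        cnt n (fun w => lam ≤ 3 * ‖pt (w (Fin.last n))‖) := by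
      apply cnt_mono
      intro w _ _
      have := norm_nonneg (pt (w (Fin.last n)))
      linarith
    have h1' : (cnt n (fun w => ∃ k, lam ≤ ‖pt (w k)‖) : ℝ) ≤
        (cnt n (fun w => lam ≤ 3 * ‖pt (w (Fin.last n))‖) : ℝ) := by exact_mod_cast h1
    have h2 : (1 : ℝ) ≤ max C 16 := le_trans (by norm_num) (le_max_right _ _)
    nlinarith [mul_nonneg (by linarith : (0 : ℝ) ≤ max C 16 - 1) hcn,
      mul_nonneg (mul_nonneg (by linarith : (0 : ℝ) ≤ max C 16)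
        (by linarith : (0 : ℝ) ≤ (n : ℝ) ^ δ - 1)) hcn]
  push Not at hlam
  by_cases hsmall : n < n₀
  · -- small n
    by_cases hemp : cnt n (fun w => ∃ k, lam ≤ ‖pt (w k)‖) = 0
    · rw [hemp]
      have : 0 ≤ max C 16 * (n : ℝ) ^ δ := by positivity
      simpa using mul_nonneg this hcn
    · have hpos : 1 ≤ cnt n (fun w => lam ≤ 3 * ‖pt (w (Fin.last n))‖) := by
        classical
        have : 0 < cnt n (fun w => ∃ k, lam ≤ ‖pt (w k)‖) := Nat.pos_of_ne_zero hemp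
        obtain ⟨w, hw⟩ := Finset.card_pos.1 this
        simp only [Finset.mem_filter] at hw
        obtain ⟨hw1, k, hk⟩ := hw
        have hln : lam ≤ n := hk.trans (norm_pt_le_n (mem_saws.1 hw1) k)
        apply Finset.card_pos.2
        refine ⟨_, Finset.mem_filter.2 ⟨mem_saws.2 (straight_isSAW n), ?_⟩⟩
        have hb : (n : ℝ) ≤ ‖pt ((((Fin.last n : Fin (n + 1)) : ℕ) : ℤ), (0 : ℤ))‖ := by
          apply (sq_le_sq₀ (Nat.cast_nonneg _) (norm_nonneg _)).1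
          rw [norm_pt_sq]
          simp
        have := norm_nonneg (pt ((((Fin.last n : Fin (n + 1)) : ℕ) : ℤ), (0 : ℤ)))
        linarith
      have h1 : (cnt n (fun w => ∃ k, lam ≤ ‖pt (w k)‖) : ℝ) ≤ C :=
        le_trans (by exact_mod_cast cnt_le_card n _) (hC n hsmall)
      have h2 : (1 : ℝ) ≤ (cnt n (fun w => lam ≤ 3 * ‖pt (w (Fin.last n))‖) : ℝ) := by
        exact_mod_cast hpos
      have h3 : C ≤ max C 16 := le_max_left _ _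
      have h4 : (0 : ℝ) ≤ max C 16 := le_trans (by norm_num) (le_max_right _ _)
      calc (cnt n (fun w => ∃ k, lam ≤ ‖pt (w k)‖) : ℝ) ≤ max C 16 * 1 * 1 := by linarith
        _ ≤ max C 16 * (n : ℝ) ^ δ * (cnt n (fun w => lam ≤ 3 * ‖pt (w (Fin.last n))‖) : ℝ) := by
            apply mul_le_mul _ h2 (by norm_num) (by positivity)
            exact mul_le_mul_of_nonneg_left hpow h4
  · push Not at hsmall
    obtain ⟨x, hx⟩ : ∃ x : ℕ, x = ⌈lam * (2 / 3)⌉₊ := ⟨_, rfl⟩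
    have hx1 : 1 ≤ x := by
      rw [hx]
      exact Nat.one_le_ceil_iff.2 (by positivity)
    have hxge : lam * (2 / 3) ≤ x := by rw [hx]; exact Nat.le_ceil _
    have hxlt : (x : ℝ) < lam * (2 / 3) + 1 := by
      rw [hx]; exact Nat.ceil_lt_add_one (by positivity)
    have h1 : cnt n (fun w => ∃ k, lam ≤ ‖pt (w k)‖) ≤
        cnt n (fun w => ∃ k, (x : ℤ) ≤ |(w k).1| ∨ (x : ℤ) ≤ |(w k).2|) := by
      apply cnt_mono
      rintro w _ ⟨k, hk⟩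
      refine ⟨k, ?_⟩
      by_contra hcon
      push Not at hcon
      obtain ⟨c1, c2⟩ := hcon
      have d1 : ((|(w k).1| : ℤ) : ℝ) ≤ x - 1 := by
        have : |(w k).1| ≤ (x : ℤ) - 1 := by omega
        exact_mod_cast this
      have d2 : ((|(w k).2| : ℤ) : ℝ) ≤ x - 1 := by
        have : |(w k).2| ≤ (x : ℤ) - 1 := by omega
        exact_mod_cast this
      have e := norm_pt_sq (w k)
      have d1' : ((w k).1 : ℝ) ^ 2 ≤ (x - 1) ^ 2 := by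
        rw [← sq_abs]
        push_cast at d1
        exact pow_le_pow_left₀ (abs_nonneg _) d1 2
      have d2' : ((w k).2 : ℝ) ^ 2 ≤ (x - 1) ^ 2 := by
        rw [← sq_abs]
        push_cast at d2
        exact pow_le_pow_left₀ (abs_nonneg _) d2 2
      have hx0 : (0 : ℝ) ≤ x - 1 := by
        have : (1 : ℝ) ≤ x := by exact_mod_cast hx1
        linarith
      have h5 : ((x : ℝ) - 1) ^ 2 < (lam * (2 / 3)) ^ 2 := by
        apply pow_lt_pow_left₀ (by linarith) hx0 (by norm_num)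
      have h6 : lam ^ 2 ≤ ‖pt (w k)‖ ^ 2 := pow_le_pow_left₀ hlam.le hk 2
      nlinarith
    have h2 := four_bound n x
    have h3 := h n hsmall x hx1
    have h4 : cnt n (fun w => (x : ℤ) ≤ 2 * |(w (Fin.last n)).2|) ≤
        cnt n (fun w => lam ≤ 3 * ‖pt (w (Fin.last n))‖) := by
      apply cnt_mono
      intro w _ hw
      have e1 : (x : ℝ) ≤ 2 * |((w (Fin.last n)).2 : ℝ)| := by exact_mod_cast hw
      have e2 := abs_le_norm_pt (w (Fin.last n))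
      linarith
    have h1' : (cnt n (fun w => ∃ k, lam ≤ ‖pt (w k)‖) : ℝ) ≤
        4 * (cnt n (fun w => ∃ k, (x : ℤ) ≤ (w k).2) : ℝ) := by exact_mod_cast h1.trans h2
    have h4' : (cnt n (fun w => (x : ℤ) ≤ 2 * |(w (Fin.last n)).2|) : ℝ) ≤
        (cnt n (fun w => lam ≤ 3 * ‖pt (w (Fin.last n))‖) : ℝ) := by exact_mod_cast h4
    have h5 : 4 * (n : ℝ) ^ δ * (cnt n (fun w => (x : ℤ) ≤ 2 * |(w (Fin.last n)).2|) : ℝ) ≤
        4 * (n : ℝ) ^ δ * (cnt n (fun w => lam ≤ 3 * ‖pt (w (Fin.last n))‖) : ℝ) :=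
      mul_le_mul_of_nonneg_left h4' (by linarith)
    have h6 : 16 * ((n : ℝ) ^ δ * (cnt n (fun w => lam ≤ 3 * ‖pt (w (Fin.last n))‖) : ℝ)) ≤
        max C 16 * ((n : ℝ) ^ δ * (cnt n (fun w => lam ≤ 3 * ‖pt (w (Fin.last n))‖) : ℝ)) :=
      mul_le_mul_of_nonneg_right (le_max_right _ _) (mul_nonneg (by linarith) hcn)
    calc (cnt n (fun w => ∃ k, lam ≤ ‖pt (w k)‖) : ℝ)
        ≤ 4 * (4 * (n : ℝ) ^ δ * (cnt n (fun w => lam ≤ 3 * ‖pt (w (Fin.last n))‖) : ℝ)) := by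
          linarith
      _ = 16 * ((n : ℝ) ^ δ * (cnt n (fun w => lam ≤ 3 * ‖pt (w (Fin.last n))‖) : ℝ)) := by ring
      _ ≤ _ := by rw [mul_assoc]; exact h6

end Pool.Agent.SawLim
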