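import Pool.Agent.SawLim.Sup
import Pool.Agent.SawLim.Layer

/-!
The maximal inequality for `X_n`.
-/

set_option autoImplicit false

namespace Pool.Agent.SawLim

lemma one_le_norm_pt {p : ℤ × ℤ} (h : p ≠ 0) : 1 ≤ ‖pt p‖ ^ 2 := by
  rw [norm_pt_sq]
  have : (1 : ℤ) ≤ p.1 ^ 2 + p.2 ^ 2 := by
    by_contra hc
    push Not at hc
    have h1 := sq_nonneg p.1
    have h2 := sq_nonneg p.2
    have h3 : p.1 ^ 2 = 0 := by omega
    have h4 : p.2 ^ 2 = 0 := by omega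
    apply h
    exact Prod.ext (pow_eq_zero_iff (by norm_num) |>.1 h3) (pow_eq_zero_iff (by norm_num) |>.1 h4)
  exact_mod_cast this

lemma last_ne_zero {n : ℕ} (hn : 1 ≤ n) {w : Fin (n + 1) → ℤ × ℤ} (h : IsSAW n w) :
    w (Fin.last n) ≠ 0 := by
  intro hc
  have := h.2.2 (hc.trans h.1.symm)
  have h2 := congrArg Fin.val this
  simp at h2
  omega

lemma avg_norm_sq_ge {n : ℕ} (hn : 1 ≤ n) : 1 ≤ avg n (fun w => ‖pt (w (Fin.last n))‖ ^ 2) := by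
  rw [avg_eq, le_div_iff₀ (card_saws_pos n), one_mul]
  calc ((saws n).card : ℝ) = ∑ w ∈ saws n, (1 : ℝ) := by simp
    _ ≤ _ := Finset.sum_le_sum (fun w hw => one_le_norm_pt (last_ne_zero hn (mem_saws.1 hw)))

lemma s_sq {n : ℕ} (hn : 1 ≤ n) : s n ^ 2 = avg n (fun w => ‖pt (w (Fin.last n))‖ ^ 2) := by
  rw [s, Real.sq_sqrt]
  linarith [avg_norm_sq_ge hn]

lemma one_le_s {n : ℕ} (hn : 1 ≤ n) : 1 ≤ s n := by
  rw [s]
  exact Real.one_le_sqrt.2 (avg_norm_sq_ge hn)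

lemma s_pos {n : ℕ} (hn : 1 ≤ n) : 0 < s n := lt_of_lt_of_le one_pos (one_le_s hn)

lemma norm_X_one {n : ℕ} (hn : 1 ≤ n) (w : Fin (n + 1) → ℤ × ℤ) :
    ‖X n w 1‖ = (s n)⁻¹ * ‖pt (w (Fin.last n))‖ := by
  rw [X_one (by omega), norm_smul, norm_inv, Real.norm_of_nonneg (s_nonneg n)]

lemma avg_X_one_sq {n : ℕ} (hn : 1 ≤ n) : avg n (fun w => ‖X n w 1‖ ^ 2) = 1 := by
  have h1 := s_sq hn
  have h2 := s_pos hn
  rw [avg_eq] at h1 ⊢
  have : ∑ w ∈ saws n, ‖X n w 1‖ ^ 2 =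
      ((s n) ^ 2)⁻¹ * ∑ w ∈ saws n, ‖pt (w (Fin.last n))‖ ^ 2 := by
    rw [Finset.mul_sum]
    apply Finset.sum_congr rfl
    intro w _
    rw [norm_X_one hn, mul_pow, inv_pow]
  rw [this, mul_div_assoc, ← h1]
  field_simp

theorem max_X (δ : ℝ) (hδ : 0 < δ) : ∃ K : ℝ, 1 ≤ K ∧ ∀ n : ℕ, 1 ≤ n →
    ∀ Φ : ℝ → ℝ, Monotone Φ → (∀ x, 0 ≤ Φ x) →
      avg n (fun w => Φ ‖X n w‖) ≤ K * (n : ℝ) ^ δ * avg n (fun w => Φ (3 * ‖X n w 1‖)) := by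
  classical
  obtain ⟨K, hK, h⟩ := max_bound δ hδ
  refine ⟨K, hK, fun n hn Φ hΦ h0 => ?_⟩
  have hs := s_pos hn
  have hKn : 0 ≤ K * (n : ℝ) ^ δ := by positivity
  rw [avg_eq, avg_eq, mul_div_assoc']
  apply div_le_div_of_nonneg_right _ (Nat.cast_nonneg _)
  apply sum_le_of_tail (saws n) (fun w => ‖X n w‖) (fun w => 3 * ‖X n w 1‖) _ _ hKn Φ hΦ h0
  intro lam
  have h1 := h n hn (lam * s n)
  have e1 : ((saws n).filter (fun w => lam ≤ ‖X n w‖)).card ≤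
      cnt n (fun w => ∃ k, lam * s n ≤ ‖pt (w k)‖) := by
    apply Finset.card_le_card
    intro w hw
    simp only [Finset.mem_filter] at hw ⊢
    refine ⟨hw.1, ?_⟩
    obtain ⟨k, hk⟩ := exists_norm_X (by omega : 0 < n) w
    refine ⟨k, ?_⟩
    have := hw.2.trans hk
    rw [inv_mul_eq_div, le_div_iff₀ hs] at this
    exact this
  have e2 : cnt n (fun w => lam * s n ≤ 3 * ‖pt (w (Fin.last n))‖) ≤
      ((saws n).filter (fun w => lam ≤ 3 * ‖X n w 1‖)).card := by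
    apply Finset.card_le_card
    intro w hw
    simp only [Finset.mem_filter] at hw ⊢
    refine ⟨hw.1, ?_⟩
    rw [norm_X_one hn]
    have h3 := hw.2
    rw [← le_div_iff₀ hs] at h3
    calc lam ≤ 3 * ‖pt (w (Fin.last n))‖ / s n := h3
      _ = 3 * ((s n)⁻¹ * ‖pt (w (Fin.last n))‖) := by ring
  have e1' : (((saws n).filter (fun w => lam ≤ ‖X n w‖)).card : ℝ) ≤
      (cnt n (fun w => ∃ k, lam * s n ≤ ‖pt (w k)‖) : ℝ) := by exact_mod_cast e1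
  have e2' : (cnt n (fun w => lam * s n ≤ 3 * ‖pt (w (Fin.last n))‖) : ℝ) ≤
      (((saws n).filter (fun w => lam ≤ 3 * ‖X n w 1‖)).card : ℝ) := by exact_mod_cast e2
  exact e1'.trans (h1.trans (mul_le_mul_of_nonneg_left e2' hKn))

theorem max_X_sq (δ : ℝ) (hδ : 0 < δ) : ∃ K : ℝ, 1 ≤ K ∧ ∀ n : ℕ, 1 ≤ n →
    (∀ Φ : ℝ → ℝ, Monotone Φ → (∀ x, 0 ≤ Φ x) →
      avg n (fun w => Φ ‖X n w‖) ≤ K * (n : ℝ) ^ δ * avg n (fun w => Φ (3 * ‖X n w 1‖))) ∧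
    avg n (fun w => ‖X n w‖ ^ 2) ≤ K * (n : ℝ) ^ δ := by
  obtain ⟨K, hK, h⟩ := max_X δ hδ
  refine ⟨9 * K, by linarith, fun n hn => ⟨?_, ?_⟩⟩
  · intro Φ hΦ h0
    refine (h n hn Φ hΦ h0).trans ?_
    have hav : 0 ≤ avg n (fun w => Φ (3 * ‖X n w 1‖)) := by
      rw [avg_eq]
      exact div_nonneg (Finset.sum_nonneg (fun _ _ => h0 _)) (Nat.cast_nonneg _)
    have : 0 ≤ K * (n : ℝ) ^ δ * avg n (fun w => Φ (3 * ‖X n w 1‖)) := by positivity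
    nlinarith
  · have h1 := h n hn (fun x => (max x 0) ^ 2)
      (fun x y hxy => pow_le_pow_left₀ (le_max_right _ _) (max_le_max_right 0 hxy) 2)
      (fun x => by positivity)
    have e1 : (fun w : Fin (n + 1) → ℤ × ℤ => (max ‖X n w‖ 0) ^ 2) = fun w => ‖X n w‖ ^ 2 := by
      funext w; rw [max_eq_left (norm_nonneg _)]
    have e2 : avg n (fun w : Fin (n + 1) → ℤ × ℤ => (max (3 * ‖X n w 1‖) 0) ^ 2) = 9 := by
      have : (fun w : Fin (n + 1) → ℤ × ℤ => (max (3 * ‖X n w 1‖) 0) ^ 2) =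
          fun w => 9 * ‖X n w 1‖ ^ 2 := by
        funext w; rw [max_eq_left (by positivity)]; ring
      rw [this]
      have h2 := avg_X_one_sq hn
      rw [avg_eq] at h2 ⊢
      rw [← Finset.mul_sum, mul_div_assoc, h2, mul_one]
    rw [e1, e2] at h1
    linarith

end Pool.Agent.SawLim
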