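import Pool.Agent.SawLim.Moves

/-!
The abstract transfer lemma: comparison of sums over `(n+2)`-step and `n`-step walks through the
insertion / deletion moves.
-/

set_option autoImplicit false

namespace Pool.Agent.SawLim

/-- the number of deletions changes by a bounded amount, real form -/
lemma card_Del_ins_abs {n : ℕ} {w : Fin (n + 1) → ℤ × ℤ} {p : ℕ × (ℤ × ℤ)}
    (hp : p ∈ Ins n w) :
    ((Del (n + 2) (ins n w p.1 p.2)).card : ℝ) ≤ (Del n w).card + 5 ∧
    ((Del n w).card : ℝ) ≤ (Del (n + 2) (ins n w p.1 p.2)).card + 3 := by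
  have hk : p.1 < n := (mem_Ins.1 (show (p.1, p.2) ∈ Ins n w from hp)).1
  refine ⟨?_, ?_⟩
  · exact_mod_cast card_Del_ins_le w p.2 hk
  · exact_mod_cast card_Del_le_ins w p.2

lemma one_le_card_Del_ins {n : ℕ} {w : Fin (n + 1) → ℤ × ℤ} (h : IsSAW n w) {p : ℕ × (ℤ × ℤ)}
    (hp : p ∈ Ins n w) : (1 : ℝ) ≤ (Del (n + 2) (ins n w p.1 p.2)).card := by
  have h1 : p.1 ∈ Del (n + 2) (ins n w p.1 p.2) := mem_Del_ins h p.2 (mem_Ins.1 hp).1 
  exact_mod_cast Finset.card_pos.2 ⟨_, h1⟩

/-- splitting a sum over `(n+2)`-step walks -/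
lemma sum_split (n : ℕ) (f : (Fin (n + 2 + 1) → ℤ × ℤ) → ℝ) :
    ∑ v ∈ saws (n + 2), f v =
      (∑ w ∈ saws n, ∑ p ∈ Ins n w, f (ins n w p.1 p.2) / (Del (n + 2) (ins n w p.1 p.2)).card) +
      ∑ v ∈ (saws (n + 2)).filter (fun v => (Del (n + 2) v).card = 0), f v := by
  have h1 := sum_moves n (fun _ _ _ v => f v / ((Del (n + 2) v).card : ℝ))
  rw [h1, Finset.sum_filter, ← Finset.sum_add_distrib]
  apply Finset.sum_congr rfl
  intro v _
  rw [Finset.sum_const, nsmul_eq_mul]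
  split_ifs with h0
  · rw [h0]; simp
  · have : ((Del (n + 2) v).card : ℝ) ≠ 0 := by exact_mod_cast h0
    field_simp
    simp

/-- the local estimate at a good walk -/
lemma local_est {ι : Type*} (s : Finset ι) (u D : ι → ℝ) (m2 e J g η x : ℝ) (hm : 1 ≤ m2)
    (ha : 0 < x) (he : e ≤ 1 / 4) (hx8 : 8 * m2 ≤ x) (hxI : x ≤ s.card)
    (hJI : |(s.card : ℝ) - m2 * J| ≤ e * s.card) (hD1 : ∀ p ∈ s, D p ≤ J + 5)
    (hD2 : ∀ p ∈ s, J ≤ D p + 3) (hη : 0 ≤ η) (hu : ∀ p ∈ s, |u p - g| ≤ η) :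
    |∑ p ∈ s, u p / D p - m2 * g| ≤
      3 * m2 * η + (2 * m2 * e + 18 * m2 ^ 2 / x) * |g| := by
  set I : ℝ := (s.card : ℝ) with hI
  have hI0 : 0 < I := lt_of_lt_of_le ha hxI
  have he0 : 0 ≤ e := by
    by_contra hc
    push Not at hc
    have := (abs_nonneg _).trans hJI
    nlinarith
  have h1 : 3 / 4 * I ≤ m2 * J := by
    have := (abs_le.1 hJI).2
    nlinarith
  have hm0 : 0 < m2 := by linarith
  have hJ6 : 6 ≤ J := by
    by_contra hc
    push Not at hc
    have : m2 * J < m2 * 6 := mul_lt_mul_of_pos_left hc hm0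
    linarith
  have hJ0 : 0 < J := by linarith
  have hIJ : I / J ≤ 4 / 3 * m2 := by
    rw [div_le_iff₀ hJ0]; linarith
  have hJinv : 1 / J ≤ 4 / 3 * m2 / x := by
    rw [div_le_div_iff₀ hJ0 ha]
    linarith
  have hDJ : ∀ p ∈ s, J / 2 ≤ D p := fun p hp => by linarith [hD2 p hp]
  have key : ∑ p ∈ s, u p / D p - m2 * g =
      ∑ p ∈ s, (u p - g) / D p + g * (∑ p ∈ s, (1 / D p - 1 / J)) + g * (I / J - m2) := by
    rw [Finset.sum_sub_distrib, Finset.sum_const, nsmul_eq_mul, ← hI]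
    have : ∑ p ∈ s, (u p - g) / D p = ∑ p ∈ s, u p / D p - g * ∑ p ∈ s, 1 / D p := by
      rw [Finset.mul_sum, ← Finset.sum_sub_distrib]
      apply Finset.sum_congr rfl
      intro p _
      ring
    rw [this]
    ring
  have b1 : |∑ p ∈ s, (u p - g) / D p| ≤ 3 * m2 * η := by
    have c1 : |∑ p ∈ s, (u p - g) / D p| ≤ ∑ p ∈ s, 2 * η / J := by
      refine (Finset.abs_sum_le_sum_abs _ _).trans (Finset.sum_le_sum fun p hp => ?_)
      have hDp := hDJ p hp
      have hDp0 : 0 < D p := by linarith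
      rw [abs_div, abs_of_pos hDp0, div_le_div_iff₀ hDp0 hJ0]
      have := hu p hp
      nlinarith
    rw [Finset.sum_const, nsmul_eq_mul, ← hI] at c1
    have c2 : I * (2 * η / J) = 2 * η * (I / J) := by ring
    rw [c2] at c1
    nlinarith
  have b2 : |∑ p ∈ s, (1 / D p - 1 / J)| ≤ 18 * m2 ^ 2 / x := by
    have c1 : |∑ p ∈ s, (1 / D p - 1 / J)| ≤ ∑ p ∈ s, 10 / (J * J) := by
      refine (Finset.abs_sum_le_sum_abs _ _).trans (Finset.sum_le_sum fun p hp => ?_)
      have hDp := hDJ p hp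
      have hDp0 : 0 < D p := by linarith
      have e1 : 1 / D p - 1 / J = (J - D p) / (D p * J) := by
        field_simp
      rw [e1, abs_div, abs_of_pos (mul_pos hDp0 hJ0), div_le_div_iff₀ (mul_pos hDp0 hJ0)
        (mul_pos hJ0 hJ0)]
      have e2 : |J - D p| ≤ 5 := by
        rw [abs_le]
        constructor
        · linarith [hD1 p hp]
        · linarith [hD2 p hp]
      have e3 : |J - D p| * (J * J) ≤ 5 * (J * J) :=
        mul_le_mul_of_nonneg_right e2 (by positivity)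
      have e4 : 5 * (J * J) ≤ 10 * (D p * J) := by nlinarith
      linarith
    rw [Finset.sum_const, nsmul_eq_mul, ← hI] at c1
    have c2 : I * (10 / (J * J)) = 10 * (I / J) * (1 / J) := by
      field_simp
    rw [c2] at c1
    have c3 : 10 * (I / J) * (1 / J) ≤ 10 * (4 / 3 * m2) * (4 / 3 * m2 / x) := by
      apply mul_le_mul
      · linarith
      · exact hJinv
      · positivity
      · positivity
    have c4 : 10 * (4 / 3 * m2) * (4 / 3 * m2 / x) ≤ 18 * m2 ^ 2 / x := by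
      rw [← mul_div_assoc, div_le_div_iff_of_pos_right ha]
      nlinarith [sq_nonneg m2]
    linarith
  have b3 : |I / J - m2| ≤ 2 * m2 * e := by
    have e1 : I / J - m2 = (I - m2 * J) / J := by field_simp
    rw [e1, abs_div, abs_of_pos hJ0, div_le_iff₀ hJ0]
    have : e * I ≤ 2 * m2 * e * J := by
      have h2 : I ≤ 2 * m2 * J := by nlinarith
      nlinarith
    linarith
  rw [key]
  calc |∑ p ∈ s, (u p - g) / D p + g * (∑ p ∈ s, (1 / D p - 1 / J)) + g * (I / J - m2)|
      ≤ |∑ p ∈ s, (u p - g) / D p| + |g * (∑ p ∈ s, (1 / D p - 1 / J))| + |g * (I / J - m2)| :=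
        abs_add_three _ _ _
    _ = |∑ p ∈ s, (u p - g) / D p| + |g| * |∑ p ∈ s, (1 / D p - 1 / J)| +
          |g| * |I / J - m2| := by rw [abs_mul, abs_mul]
    _ ≤ 3 * m2 * η + |g| * (18 * m2 ^ 2 / x) + |g| * (2 * m2 * e) := by
        gcongr
    _ = _ := by ring

/-- **The transfer lemma.** -/
theorem transfer (n : ℕ) (m2 a e M : ℝ) (hm : 1 ≤ m2) (ha : 0 < a) (he : e ≤ 1 / 4)
    (hn : 1 ≤ n) (hna : 8 * m2 ≤ a * n)
    (f : (Fin (n + 2 + 1) → ℤ × ℤ) → ℝ) (g η : (Fin (n + 1) → ℤ × ℤ) → ℝ)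
    (Good : (Fin (n + 1) → ℤ × ℤ) → Prop) [DecidablePred Good]
    (hf : ∀ v ∈ saws (n + 2), |f v| ≤ M) (hg : ∀ w ∈ saws n, |g w| ≤ M)
    (hη : ∀ w ∈ saws n, 0 ≤ η w)
    (hfg : ∀ w ∈ saws n, ∀ p ∈ Ins n w, |f (ins n w p.1 p.2) - g w| ≤ η w)
    (hG : ∀ w ∈ saws n, Good w → |((Ins n w).card : ℝ) - m2 * (Del n w).card| ≤ e * (Ins n w).card ∧
      a * n ≤ (Ins n w).card) (he0 : 0 ≤ e) :
    |∑ v ∈ saws (n + 2), f v - m2 * ∑ w ∈ saws n, g w| ≤
      3 * m2 * ∑ w ∈ saws n, η w + (2 * m2 * e + 18 * m2 ^ 2 / (a * n)) * ∑ w ∈ saws n, |g w| +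
      (4 * n + m2) * M * ((saws n).filter fun w => ¬ Good w).card +
      M * ((saws (n + 2)).filter fun v => (Del (n + 2) v).card = 0).card := by
  have hn0 : (0 : ℝ) < n := by exact_mod_cast hn
  have hx : 0 < a * n := mul_pos ha hn0
  have hm0 : 0 < m2 := by linarith
  rw [sum_split, Finset.mul_sum]
  have e1 : (∑ w ∈ saws n, ∑ p ∈ Ins n w,
      f (ins n w p.1 p.2) / (Del (n + 2) (ins n w p.1 p.2)).card) +
      ∑ v ∈ (saws (n + 2)).filter (fun v => (Del (n + 2) v).card = 0), f v -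
      ∑ w ∈ saws n, m2 * g w =
      (∑ w ∈ saws n, (∑ p ∈ Ins n w,
      f (ins n w p.1 p.2) / (Del (n + 2) (ins n w p.1 p.2)).card - m2 * g w)) +
      ∑ v ∈ (saws (n + 2)).filter (fun v => (Del (n + 2) v).card = 0), f v := by
    rw [Finset.sum_sub_distrib]; ring
  rw [e1]
  refine (abs_add_le _ _).trans ?_
  apply add_le_add
  · refine (Finset.abs_sum_le_sum_abs _ _).trans ?_
    have hM : ∀ w ∈ saws n, 0 ≤ M := fun w hw => (abs_nonneg _).trans (hg w hw)
    have main : ∀ w ∈ saws n, |∑ p ∈ Ins n w,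
        f (ins n w p.1 p.2) / (Del (n + 2) (ins n w p.1 p.2)).card - m2 * g w| ≤
        3 * m2 * η w + (2 * m2 * e + 18 * m2 ^ 2 / (a * n)) * |g w| +
        (4 * n + m2) * M * (if ¬ Good w then 1 else 0) := by
      intro w hw
      have hw' := mem_saws.1 hw
      by_cases hgood : Good w
      · rw [if_neg (by simpa using hgood), mul_zero, add_zero]
        obtain ⟨g1, g2⟩ := hG w hw hgood
        exact local_est (Ins n w) _ _ m2 e (Del n w).card (g w) (η w) (a * n) hm hx he hna g2 g1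
          (fun p hp => (card_Del_ins_abs hp).1) (fun p hp => (card_Del_ins_abs hp).2) (hη w hw)
          (hfg w hw)
      · rw [if_pos hgood, mul_one]
        have c1 : |∑ p ∈ Ins n w, f (ins n w p.1 p.2) / (Del (n + 2) (ins n w p.1 p.2)).card| ≤
            4 * n * M := by
          calc |∑ p ∈ Ins n w, f (ins n w p.1 p.2) / (Del (n + 2) (ins n w p.1 p.2)).card|
              ≤ ∑ p ∈ Ins n w, M := by
                refine (Finset.abs_sum_le_sum_abs _ _).trans (Finset.sum_le_sum fun p hp => ?_)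
                have d1 := one_le_card_Del_ins hw' hp
                rw [abs_div, abs_of_pos (show (0 : ℝ) < (Del (n + 2) (ins n w p.1 p.2)).card by
                  linarith)]
                have d2 : |f (ins n w p.1 p.2)| ≤ M :=
                  hf _ (mem_saws.2 (isSAW_ins hw' (show (p.1, p.2) ∈ Ins n w from hp)))
                calc _ ≤ |f (ins n w p.1 p.2)| / 1 :=
                      div_le_div_of_nonneg_left (abs_nonneg _) one_pos d1
                  _ ≤ M := by rw [div_one]; exact d2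
            _ = (Ins n w).card * M := by rw [Finset.sum_const, nsmul_eq_mul]
            _ ≤ 4 * n * M := by
                apply mul_le_mul_of_nonneg_right _ (hM w hw)
                exact_mod_cast card_Ins_le w
        have c2 : |m2 * g w| ≤ m2 * M := by
          rw [abs_mul, abs_of_pos hm0]
          exact mul_le_mul_of_nonneg_left (hg w hw) hm0.le
        have c3 : 0 ≤ 3 * m2 * η w + (2 * m2 * e + 18 * m2 ^ 2 / (a * n)) * |g w| := by
          have := hη w hw
          positivity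
        calc _ ≤ |∑ p ∈ Ins n w, f (ins n w p.1 p.2) / (Del (n + 2) (ins n w p.1 p.2)).card| +
              |m2 * g w| := abs_sub _ _
          _ ≤ 4 * n * M + m2 * M := add_le_add c1 c2
          _ ≤ _ := by linarith
    refine (Finset.sum_le_sum main).trans (le_of_eq ?_)
    rw [Finset.sum_add_distrib, Finset.sum_add_distrib, ← Finset.mul_sum, ← Finset.mul_sum,
      ← Finset.mul_sum]
    congr 2
    rw [Finset.sum_ite, Finset.sum_const_zero, add_zero, Finset.sum_const, nsmul_eq_mul, mul_one]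
  · refine (Finset.abs_sum_le_sum_abs _ _).trans ?_
    calc _ ≤ ∑ v ∈ (saws (n + 2)).filter (fun v => (Del (n + 2) v).card = 0), M :=
          Finset.sum_le_sum fun v hv => hf v (Finset.mem_filter.1 hv).1
      _ = _ := by rw [Finset.sum_const, nsmul_eq_mul, mul_comm]

end Pool.Agent.SawLim
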